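import Mathlib
import Pool.Agent.Helper617.RM.RadoDefs

/-!
Turing reducibility (in the index-free form), computable trees, weak König's lemma and minimal
degrees inside a structure for second-order arithmetic.
-/

namespace Pool.Agent.Helper116.Min

open Pool.Agent.Helper617.RM

universe u

/-- The structure with the same numbers and arithmetic as `N` whose set variables range over
the family `X`. -/
abbrev withSets (N : L2Structure.{u}) (X : Set (Set N.M)) : L2Structure.{u} :=
  ⟨N.M, N.zero, N.one, N.add, N.mul, N.lt, X⟩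

/-- `Y` is `Δ⁰₁` definable with number parameters and with set parameters from `X` only: both
`n ∈ Y` and `n ∉ Y` are given by formulas `∃ k, θ(k, n)` with `θ` bounded. -/
def IsDelta1 (N : L2Structure.{u}) (X : Set (Set N.M)) (Y : Set N.M) : Prop :=
  ∃ θ ψ : Delta0 (withSets N X), ∃ v : ℕ → N.M, ∀ n,
    (n ∈ Y ↔ ∃ k, θ.Holds (cons k (cons n v))) ∧ (n ∉ Y ↔ ∃ k, ψ.Holds (cons k (cons n v)))

variable (N : L2Structure.{u})

/-- `Y` is Turing reducible to `X`, in the index-free form: `Y` is `Δ⁰₁` definable with number
parameters and with `X` as the only set parameter. -/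
def TuringLE (Y X : Set N.M) : Prop := IsDelta1 N {X} Y

/-- `Y` is computable: `Δ⁰₁` definable with number parameters and without set parameters. -/
def Computable (Y : Set N.M) : Prop := IsDelta1 N ∅ Y

/-- the graph of a function, as a set of pairs -/
def graph (f : N.M → N.M) : Set N.M := {p | ∃ x, p = N.pair x (f x)}

/-- `B` is reducible to `A` by a bounded search whose bound is a computable function (this is
truth-table reducibility). -/
def TTLE (B A : Set N.M) : Prop :=
  ∃ θ ψ : Delta0 (withSets N {A}), ∃ v : ℕ → N.M, ∃ g : N.M → N.M, Computable N (graph N g) ∧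
    ∀ n, (n ∈ B ↔ ∃ k, N.lt k (g n) ∧ θ.Holds (cons k (cons n v))) ∧
      (n ∉ B ↔ ∃ k, N.lt k (g n) ∧ ψ.Holds (cons k (cons n v)))

/-- `A` has minimal Turing degree. -/
structure IsMinimal (A : Set N.M) : Prop where
  mem : A ∈ N.Sets
  not_comp : ¬ Computable N A
  minimal : ∀ B ∈ N.Sets, TuringLE N B A → Computable N B ∨ TuringLE N A B

/-- `X` is computably dominated (hyperimmune-free): every function computable from `X` is
bounded by a computable function. -/
def IsDominated (X : Set N.M) : Prop :=
  ∀ f : N.M → N.M, TuringLE N (graph N f) X →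
    ∃ g : N.M → N.M, Computable N (graph N g) ∧ ∀ x, N.lt (f x) (g x)

/-- `s` is the code of the binary string `Y(0), …, Y(n - 1)`: the code of the finite set of all
pairs `(i, Y(i))` with `i < n`. -/
def Restr (Y : Set N.M) (n s : N.M) : Prop :=
  IsCode N s {r | ∃ i, N.lt i n ∧
    ((i ∈ Y ∧ r = N.pair i N.one) ∨ (i ∉ Y ∧ r = N.pair i N.zero))}

/-- `T` is an infinite tree of binary strings. -/
structure IsBinTree (T : Set N.M) : Prop where
  sub : ∀ s ∈ T, ∃ Y n, Restr N Y n s
  closed : ∀ Y n m s s', s ∈ T → Restr N Y n s → N.lt m n → Restr N Y m s' → s' ∈ T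
  infinite : ∀ n, ∃ Y, ∃ s ∈ T, Restr N Y n s

/-- `Y` is an infinite path through `T`. -/
def IsPath (T Y : Set N.M) : Prop := ∀ n s, Restr N Y n s → s ∈ T

/-- Weak König's lemma. -/
def WKL : Prop := ∀ T ∈ N.Sets, IsBinTree N T → ∃ Y ∈ N.Sets, IsPath N T Y

/-- `X` has PA degree: it computes a path through every computable infinite binary tree. -/
def IsPA (X : Set N.M) : Prop :=
  ∀ T ∈ N.Sets, IsBinTree N T → Computable N T → ∃ Y, TuringLE N Y X ∧ IsPath N T Y


end Pool.Agent.Helper116.Min
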