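import Mathlib
import Pool.Agent.Helper617.RM.SeqCodes
import Pool.Agent.Helper116_Min.Defs

/-!
The sets computable from a family of sets of a model of `RCA₀` form, with the same numbers, again
a model of `RCA₀`.
-/

namespace Pool.Agent.Helper116.Min

open Pool.Agent.Helper617.RM

universe u

section weak

variable {N : L2Structure.{u}}

abbrev WTm (X : Set (Set N.M)) (t : Ctx N → N.M) : Prop := Tm (N := withSets N X) t
abbrev WD0 (X : Set (Set N.M)) (R : Ctx N → Prop) : Prop := D0 (N := withSets N X) R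
abbrev WCM (X : Set (Set N.M)) (g : Ctx N → Ctx N) : Prop := CM (N := withSets N X) g

/-- translation of terms -/
def liftT (X : Set (Set N.M)) : Term (withSets N X) → Term N
  | .var i => .var i
  | .const a => .const a
  | .zero => .zero
  | .one => .one
  | .add s t => .add (liftT X s) (liftT X t)
  | .mul s t => .mul (liftT X s) (liftT X t)

theorem liftT_val (X : Set (Set N.M)) (t : Term (withSets N X)) (v : Ctx N) :
    (liftT X t).val v = t.val v := by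
  induction t with
  | var i => rfl
  | const a => rfl
  | zero => rfl
  | one => rfl
  | add s t hs ht => simp only [liftT, Term.val, hs, ht]
  | mul s t hs ht => simp only [liftT, Term.val, hs, ht]

/-- translation of formulas -/
def liftF {X : Set (Set N.M)} (h : X ⊆ N.Sets) : Delta0 (withSets N X) → Delta0 N
  | .eq s t => .eq (liftT X s) (liftT X t)
  | .lt s t => .lt (liftT X s) (liftT X t)
  | .mem t Y => .mem (liftT X t) ⟨Y.1, h Y.2⟩
  | .neg φ => .neg (liftF h φ)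
  | .and φ ψ => .and (liftF h φ) (liftF h ψ)
  | .ball t φ => .ball (liftT X t) (liftF h φ)

theorem liftF_holds {X : Set (Set N.M)} (h : X ⊆ N.Sets) (φ : Delta0 (withSets N X)) :
    ∀ v : Ctx N, (liftF h φ).Holds v ↔ φ.Holds v := by
  induction φ with
  | eq s t => intro v; simp only [liftF, Delta0.Holds, liftT_val]
  | lt s t => intro v; simp only [liftF, Delta0.Holds, liftT_val]
  | mem t Y => intro v; simp only [liftF, Delta0.Holds, liftT_val]
  | neg φ ih => intro v; simp only [liftF, Delta0.Holds, ih]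
  | and φ ψ ih1 ih2 => intro v; simp only [liftF, Delta0.Holds, ih1, ih2]
  | ball t φ ih => intro v; simp only [liftF, Delta0.Holds, liftT_val, ih]

theorem WD0.lift {X : Set (Set N.M)} (h : X ⊆ N.Sets) {R : Ctx N → Prop} (hR : WD0 X R) :
    D0 R := by
  obtain ⟨φ, hφ⟩ := hR
  exact ⟨liftF h φ, fun v => (liftF_holds h φ v).trans (hφ v)⟩

end weak

set_option linter.unusedSectionVars false

section weakmodel

variable {N : L2Structure.{u}} [IsModelRCA0 N] {X : Set (Set N.M)}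

theorem WTm.zero : WTm X (fun _ => (0 : N.M)) := ⟨.zero, fun _ => rfl⟩
theorem WTm.one : WTm X (fun _ => (1 : N.M)) := ⟨.one, fun _ => rfl⟩
theorem WTm.add {s t : Ctx N → N.M} (hs : WTm X s) (ht : WTm X t) :
    WTm X (fun v => s v + t v) := by
  obtain ⟨σ, hσ⟩ := hs
  obtain ⟨τ, hτ⟩ := ht
  exact ⟨.add σ τ, fun v => by simp only [Term.val, hσ, hτ]; rfl⟩
theorem WTm.mul {s t : Ctx N → N.M} (hs : WTm X s) (ht : WTm X t) :
    WTm X (fun v => s v * t v) := by
  obtain ⟨σ, hσ⟩ := hs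
  obtain ⟨τ, hτ⟩ := ht
  exact ⟨.mul σ τ, fun v => by simp only [Term.val, hσ, hτ]; rfl⟩

theorem WD0.lt {s t : Ctx N → N.M} (hs : WTm X s) (ht : WTm X t) :
    WD0 X (fun v => s v < t v) := by
  obtain ⟨σ, hσ⟩ := hs
  obtain ⟨τ, hτ⟩ := ht
  exact ⟨.lt σ τ, fun v => by simp only [Delta0.Holds, hσ, hτ]; rfl⟩

theorem WD0.ball {t : Ctx N → N.M} {P : Ctx N → N.M → Prop} (ht : WTm X t)
    (hP : WD0 X (fun w => P (tail w) (w 0))) : WD0 X (fun v => ∀ x, x < t v → P v x) := by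
  obtain ⟨τ, hτ⟩ := ht
  obtain ⟨φ, hφ⟩ := hP
  refine ⟨.ball τ φ, fun v => ?_⟩
  simp only [Delta0.Holds, hτ]
  exact forall_congr' fun a => imp_congr Iff.rfl (hφ (cons a v))

theorem WD0.bex {t : Ctx N → N.M} {P : Ctx N → N.M → Prop} (ht : WTm X t)
    (hP : WD0 X (fun w => P (tail w) (w 0))) : WD0 X (fun v => ∃ x, x < t v ∧ P v x) :=
  D0.congr (WD0.ball (P := fun v x => ¬ P v x) ht (D0.not hP)).not fun v => by push Not; rfl

/-- `Σ⁰₁` with set parameters from `X` -/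
def WS1 (X : Set (Set N.M)) (R : Ctx N → Prop) : Prop :=
  ∃ Q : Ctx N → N.M → Prop, WD0 X (fun w => Q (tail w) (w 0)) ∧ ∀ v, R v ↔ ∃ k, Q v k

theorem WD0.WS1 {R : Ctx N → Prop} (hR : WD0 X R) : WS1 X R :=
  ⟨fun v _ => R v, D0.tail hR, fun v => by simp⟩

theorem WS1.congr {R S : Ctx N → Prop} (hR : WS1 X R) (h : ∀ v, R v ↔ S v) : WS1 X S := by
  obtain ⟨Q, hQ, hRQ⟩ := hR
  exact ⟨Q, hQ, fun v => (h v).symm.trans (hRQ v)⟩

theorem WS1.comp {R : Ctx N → Prop} (hR : WS1 X R) {g : Ctx N → Ctx N} (hg : WCM X g) :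
    WS1 X (fun v => R (g v)) := by
  obtain ⟨Q, hQ, hRQ⟩ := hR
  refine ⟨fun v k => Q (g v) k, ?_, fun v => hRQ _⟩
  exact D0.comp hQ (g := fun w => cons (w 0) (g (tail w)))
    (CM.cons (Tm.var 0) (fun i => Tm.tail (hg i)))

theorem WS1.ex {P : Ctx N → N.M → Prop} (hP : WS1 X (fun w => P (tail w) (w 0))) :
    WS1 X (fun v => ∃ x, P v x) := by
  obtain ⟨Q, hQ, hPQ⟩ := hP
  refine ⟨fun v z => ∃ x, x < z ∧ ∃ k, k < z ∧ Q (cons x v) k, ?_, fun v => ?_⟩
  · refine WD0.bex (Tm.var 0) (WD0.bex (Tm.var 1) ?_)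
    exact D0.comp hQ (g := fun u => cons (u 0) (cons (u 1) (tail (tail (tail u)))))
      (CM.cons (Tm.var 0) (CM.cons (Tm.var 1) (CM.tail.tail'.tail')))
  · rw [← exists_two]
    exact exists_congr fun x => hPQ (cons x v)

theorem WS1.and {R S : Ctx N → Prop} (hR : WS1 X R) (hS : WS1 X S) :
    WS1 X (fun v => R v ∧ S v) := by
  obtain ⟨Q, hQ, hRQ⟩ := hR
  obtain ⟨Q', hQ', hSQ⟩ := hS
  refine ⟨fun v z => ∃ x, x < z ∧ ∃ k, k < z ∧ (Q v x ∧ Q' v k), ?_, fun v => ?_⟩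
  · refine WD0.bex (Tm.var 0) (WD0.bex (Tm.var 1) (D0.and ?_ ?_))
    · exact D0.comp hQ (g := fun u => cons (u 1) (tail (tail (tail u))))
        (CM.cons (Tm.var 1) (CM.tail.tail'.tail'))
    · exact D0.comp hQ' (g := fun u => cons (u 0) (tail (tail (tail u))))
        (CM.cons (Tm.var 0) (CM.tail.tail'.tail'))
  · show (R v ∧ S v) ↔ _
    rw [← exists_two, hRQ, hSQ]
    constructor
    · rintro ⟨⟨x, hx⟩, ⟨y, hy⟩⟩; exact ⟨x, y, hx, hy⟩
    · rintro ⟨x, y, hx, hy⟩; exact ⟨⟨x, hx⟩, ⟨y, hy⟩⟩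

theorem WS1.or {R S : Ctx N → Prop} (hR : WS1 X R) (hS : WS1 X S) :
    WS1 X (fun v => R v ∨ S v) := by
  obtain ⟨Q, hQ, hRQ⟩ := hR
  obtain ⟨Q', hQ', hSQ⟩ := hS
  refine ⟨fun v z => Q v z ∨ Q' v z, D0.or hQ hQ', fun v => ?_⟩
  show (R v ∨ S v) ↔ ∃ k, (Q v k ∨ Q' v k)
  rw [hRQ, hSQ, exists_or]

theorem WS1.bex {t : Ctx N → N.M} {P : Ctx N → N.M → Prop} (ht : WTm X t)
    (hP : WS1 X (fun w => P (tail w) (w 0))) : WS1 X (fun v => ∃ x, x < t v ∧ P v x) :=
  WS1.ex (WS1.and (WD0.WS1 (WD0.lt (Tm.var 0) (Tm.tail ht))) hP)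

theorem WS1.ball (h : X ⊆ N.Sets) {t : Ctx N → N.M} {P : Ctx N → N.M → Prop} (ht : WTm X t)
    (hP : WS1 X (fun w => P (tail w) (w 0))) : WS1 X (fun v => ∀ x, x < t v → P v x) := by
  obtain ⟨Q, hQ, hPQ⟩ := hP
  refine ⟨fun v b => ∀ x, x < t v → ∃ k, k < b ∧ Q (cons x v) k, ?_, fun v => ?_⟩
  · refine WD0.ball (Tm.tail ht) (WD0.bex (Tm.var 1) ?_)
    exact D0.comp hQ (g := fun u => cons (u 0) (cons (u 1) (tail (tail (tail u)))))
      (CM.cons (Tm.var 0) (CM.cons (Tm.var 1) (CM.tail.tail'.tail')))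
  · constructor
    · intro hv
      refine bounding_ctx (Q := fun v x k => Q (cons x v) k) ?_ v (t v)
        (fun x hx => (hPQ (cons x v)).1 (hv x hx))
      exact D0.comp (WD0.lift h hQ) (g := fun u => cons (u 0) (cons (u 1) (tail (tail u))))
        (CM.cons (Tm.var 0) (CM.cons (Tm.var 1) (CM.tail.tail')))
    · rintro ⟨b, hb⟩ x hx
      obtain ⟨k, _, hk⟩ := hb x hx
      exact (hPQ (cons x v)).2 ⟨k, hk⟩

theorem isDelta1_iff {Y : Set N.M} :
    IsDelta1 N X Y ↔ WS1 X (fun v => v 0 ∈ Y) ∧ WS1 X (fun v => ¬ v 0 ∈ Y) := by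
  constructor
  · rintro ⟨θ, ψ, v0, h⟩
    have key : ∀ θ : Delta0 (withSets N X),
        WD0 X (fun w => θ.Holds (cons (w 0) (cons (tail w 0) v0))) := fun θ =>
      D0.comp (N := withSets N X) (R := fun w => θ.Holds w) ⟨θ, fun _ => Iff.rfl⟩
        (g := fun w => cons (w 0) (cons (tail w 0) v0))
        (CM.cons (Tm.var 0) (CM.cons (Tm.var 1) fun i => Tm.const _))
    exact ⟨⟨fun v k => θ.Holds (cons k (cons (v 0) v0)), key θ, fun v => (h (v 0)).1⟩,
      ⟨fun v k => ψ.Holds (cons k (cons (v 0) v0)), key ψ, fun v => (h (v 0)).2⟩⟩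
  · rintro ⟨⟨Q, ⟨θ, hθ⟩, hQ⟩, ⟨Q', ⟨ψ, hψ⟩, hQ'⟩⟩
    refine ⟨θ, ψ, fun _ => 0, fun n => ⟨?_, ?_⟩⟩
    · exact (hQ (cons n fun _ => 0)).trans (exists_congr fun k =>
        (hθ (cons k (cons n fun _ => 0))).symm)
    · exact (hQ' (cons n fun _ => 0)).trans (exists_congr fun k =>
        (hψ (cons k (cons n fun _ => 0))).symm)

/-- the sets computable from `X` -/
def Cl (N : L2Structure.{u}) (X : Set (Set N.M)) : Set (Set N.M) := {Y | IsDelta1 N X Y}

theorem cl_sub (h : X ⊆ N.Sets) : Cl N X ⊆ N.Sets := by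
  intro Y hY
  obtain ⟨⟨Q, hQ, h1⟩, ⟨Q', hQ', h2⟩⟩ := isDelta1_iff.1 hY
  exact comp_D1 (P := fun n => n ∈ Y) ⟨Q, WD0.lift h hQ, h1⟩ ⟨Q', WD0.lift h hQ', h2⟩

theorem sub_cl : X ⊆ Cl N X := by
  intro Y hY
  have h : WD0 X (fun v => v 0 ∈ Y) := D0.mem (N := withSets N X) (Tm.var 0) hY
  exact isDelta1_iff.2 ⟨WD0.WS1 h, WD0.WS1 (D0.not h)⟩

theorem cl_mono {X' : Set (Set N.M)} (h : X ⊆ X') : Cl N X ⊆ Cl N X' := by
  intro Y hY
  obtain ⟨⟨Q, hQ, h1⟩, ⟨Q', hQ', h2⟩⟩ := isDelta1_iff.1 hY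
  exact isDelta1_iff.2 ⟨⟨Q, WD0.lift (N := withSets N X') h hQ, h1⟩,
    ⟨Q', WD0.lift (N := withSets N X') h hQ', h2⟩⟩

/-- relations of bounded formulas with parameters computable from `X` are `Δ⁰₁` over `X` -/
theorem cl_holds (h : X ⊆ N.Sets) (φ : Delta0 (withSets N (Cl N X))) :
    WS1 X (fun v => φ.Holds v) ∧ WS1 X (fun v => ¬ φ.Holds v) := by
  have ht : ∀ t : Term (withSets N (Cl N X)), WTm X (fun v => t.val v) := by
    intro t
    induction t with
    | var i => exact Tm.var i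
    | const a => exact ⟨.const a, fun _ => rfl⟩
    | zero => exact ⟨.zero, fun _ => rfl⟩
    | one => exact ⟨.one, fun _ => rfl⟩
    | add s t hs ht => exact WTm.add hs ht
    | mul s t hs ht => exact WTm.mul hs ht
  induction φ with
  | eq s t =>
    have := D0.eq (N := withSets N X) (ht s) (ht t)
    exact ⟨WD0.WS1 this, WD0.WS1 (D0.not this)⟩
  | lt s t =>
    have := WD0.lt (ht s) (ht t)
    exact ⟨WD0.WS1 this, WD0.WS1 (D0.not this)⟩
  | mem t Y =>
    obtain ⟨h1, h2⟩ := isDelta1_iff.1 Y.2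
    exact ⟨h1.comp (g := fun v => cons (t.val v) v) (CM.cons (ht t) CM.id),
      h2.comp (g := fun v => cons (t.val v) v) (CM.cons (ht t) CM.id)⟩
  | neg φ ih => exact ⟨ih.2, ih.1.congr fun v => not_not.symm⟩
  | and φ ψ ih1 ih2 =>
    exact ⟨ih1.1.and ih2.1, (ih1.2.or ih2.2).congr fun v => not_and_or.symm⟩
  | ball t φ ih =>
    have h1 : WS1 X (fun w => φ.Holds (cons (w 0) (tail w))) :=
      ih.1.congr fun w => by rw [cons_tail]
    have h2 : WS1 X (fun w => ¬ φ.Holds (cons (w 0) (tail w))) :=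
      ih.2.congr fun w => by rw [cons_tail]
    have a1 : WS1 X (fun v : Ctx N => ∀ x : N.M, N.lt x (t.val v) → φ.Holds (cons x v)) :=
      WS1.ball (N := N) h (t := fun v : Ctx N => (t.val v : N.M))
        (P := fun v x => φ.Holds (cons x v)) (ht t) h1
    have a2 : WS1 X (fun v : Ctx N => ∃ x : N.M, N.lt x (t.val v) ∧ ¬ φ.Holds (cons x v)) :=
      WS1.bex (N := N) (t := fun v : Ctx N => (t.val v : N.M))
        (P := fun v x => ¬ φ.Holds (cons x v)) (ht t) h2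
    refine ⟨a1, a2.congr fun v => ?_⟩
    show (∃ x : N.M, N.lt x (t.val v) ∧ ¬ φ.Holds (cons x v)) ↔
      ¬ ∀ x : N.M, N.lt x (t.val v) → φ.Holds (cons x v)
    push Not
    rfl

theorem cl_S1 (h : X ⊆ N.Sets) {R : Ctx N → Prop} {Q : Ctx N → N.M → Prop}
    (hQ : WD0 (Cl N X) (fun w => Q (tail w) (w 0))) (hR : ∀ v, R v ↔ ∃ k, Q v k) : WS1 X R := by
  obtain ⟨φ, hφ⟩ := hQ
  have h1 : WS1 X (fun w => Q (tail w) (w 0)) := (cl_holds h φ).1.congr hφ
  exact (WS1.ex h1).congr fun v => (hR v).symm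

/-- The sets computable from a family of sets of the model form a model of `RCA₀`. -/
theorem cl_model (h : X ⊆ N.Sets) : IsModelRCA0 (withSets N (Cl N X)) where
  ax_succ_ne_zero := IsModelRCA0.ax_succ_ne_zero (N := N)
  ax_succ_inj := IsModelRCA0.ax_succ_inj (N := N)
  ax_add_zero := IsModelRCA0.ax_add_zero (N := N)
  ax_add_succ := IsModelRCA0.ax_add_succ (N := N)
  ax_mul_zero := IsModelRCA0.ax_mul_zero (N := N)
  ax_mul_succ := IsModelRCA0.ax_mul_succ (N := N)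
  ax_not_lt_zero := IsModelRCA0.ax_not_lt_zero (N := N)
  ax_lt_succ := IsModelRCA0.ax_lt_succ (N := N)
  sigma1_induction := by
    intro θ v h0 hs
    have := IsModelRCA0.sigma1_induction (N := N) (liftF (cl_sub h) θ) v
    simp only [liftF_holds] at this
    exact this h0 hs
  delta1_comprehension := by
    intro θ ψ v hθψ
    refine isDelta1_iff.2 ⟨?_, ?_⟩
    · refine cl_S1 h (Q := fun w k => θ.Holds (cons k (cons (w 0) v))) ?_ fun w => Iff.rfl
      exact D0.comp (N := withSets N (Cl N X)) (R := fun w => θ.Holds w) ⟨θ, fun _ => Iff.rfl⟩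
        (g := fun w => cons (w 0) (cons (tail w 0) v))
        (CM.cons (Tm.var 0) (CM.cons (Tm.var 1) fun i => Tm.const _))
    · refine cl_S1 h (Q := fun w k => ¬ ψ.Holds (cons k (cons (w 0) v))) ?_ fun w => ?_
      · exact D0.not (D0.comp (N := withSets N (Cl N X)) (R := fun w => ψ.Holds w)
          ⟨ψ, fun _ => Iff.rfl⟩ (g := fun w => cons (w 0) (cons (tail w 0) v))
          (CM.cons (Tm.var 0) (CM.cons (Tm.var 1) fun i => Tm.const _)))
      · show ¬ (∃ k, θ.Holds (cons k (cons (w 0) v))) ↔ _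
        rw [hθψ, not_forall]

end weakmodel

end Pool.Agent.Helper116.Min
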