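import Mathlib
import Pool.Agent.Helper116_Min.Closure

/-!
A universal `Σ⁰₁` relation inside a model of `RCA₀`: bounded formulas without set parameters are
evaluated by finite certificates.
-/

namespace Pool.Agent.Helper116.Min

open Pool.Agent.Helper617.RM

universe u

set_option linter.unusedSectionVars false
set_option linter.unusedVariables false

variable {N : L2Structure.{u}} [IsModelRCA0 N]

/-- bounded existential quantifier with an implicit bound -/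
theorem D0.exB {t : Ctx N → N.M} {P : Ctx N → N.M → Prop} (ht : Tm t)
    (hb : ∀ v x, P v x → x ≤ t v) (hP : D0 (fun w => P (tail w) (w 0))) :
    D0 (fun v => ∃ x, P v x) :=
  (D0.bexLe ht hP).congr fun v => ⟨fun ⟨x, _, h⟩ => ⟨x, h⟩, fun ⟨x, h⟩ => ⟨x, hb v x h, h⟩⟩

/-- bounded universal quantifier with an implicit bound -/
theorem D0.allB {t : Ctx N → N.M} {P : Ctx N → N.M → Prop} (ht : Tm t)
    (hb : ∀ v x, ¬ P v x → x ≤ t v) (hP : D0 (fun w => P (tail w) (w 0))) :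
    D0 (fun v => ∀ x, P v x) :=
  (D0.exB (P := fun v x => ¬ P v x) ht hb hP.not).not.congr fun v => by push Not; rfl

theorem pr_eq {x y x' y' : N.M} : pr x y = pr x' y' ↔ x = x' ∧ y = y' :=
  ⟨pr_inj, fun h => by rw [h.1, h.2]⟩

/-- the value `w` is recorded in `c` for the expression `f` and the environment `a` -/
def T (c f a w : N.M) : Prop := MemC (pr f (pr a w)) c

theorem T.f_lt {c f a w : N.M} (h : T c f a w) : f < c := lt_of_le_of_lt (fst_le_pr _ _) h.lt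
theorem T.a_lt {c f a w : N.M} (h : T c f a w) : a < c :=
  lt_of_le_of_lt ((fst_le_pr _ _).trans (snd_le_pr _ _)) h.lt
theorem T.w_lt {c f a w : N.M} (h : T c f a w) : w < c :=
  lt_of_le_of_lt ((snd_le_pr _ _).trans (snd_le_pr _ _)) h.lt

theorem T_D0 {sc sf sa sw : Ctx N → N.M} (hc : Tm sc) (hf : Tm sf) (ha : Tm sa) (hw : Tm sw) :
    D0 (fun v => T (sc v) (sf v) (sa v) (sw v)) := MemC_D0 (hf.pr (ha.pr hw)) hc

/-- binary expressions -/
def BinL (R : N.M → N.M → N.M → Prop) (k c f a w : N.M) : Prop :=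
  ∃ s t x y, f = pr k (pr s t) ∧ T c s a x ∧ T c t a y ∧ R x y w

theorem D0.comp3 {R : N.M → N.M → N.M → Prop} (hR : D0 (fun v => R (v 0) (v 1) (v 2)))
    {s t r : Ctx N → N.M} (hs : Tm s) (ht : Tm t) (hr : Tm r) :
    D0 (fun v => R (s v) (t v) (r v)) :=
  hR.comp (g := fun v => cons (s v) (cons (t v) (cons (r v) v)))
    (CM.cons hs (CM.cons ht (CM.cons hr CM.id)))

theorem D0.comp4 {R : N.M → N.M → N.M → N.M → Prop}
    (hR : D0 (fun v => R (v 0) (v 1) (v 2) (v 3)))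
    {s t r q : Ctx N → N.M} (hs : Tm s) (ht : Tm t) (hr : Tm r) (hq : Tm q) :
    D0 (fun v => R (s v) (t v) (r v) (q v)) :=
  hR.comp (g := fun v => cons (s v) (cons (t v) (cons (r v) (cons (q v) v))))
    (CM.cons hs (CM.cons ht (CM.cons hr (CM.cons hq CM.id))))

theorem BinL_D0 {R : N.M → N.M → N.M → Prop} (hR : D0 (fun v => R (v 0) (v 1) (v 2))) (k : N.M) :
    D0 (fun v => BinL R k (v 0) (v 1) (v 2) (v 3)) := by
  refine D0.exB (Tm.var 1) ?_ (D0.exB (Tm.var 2) ?_ (D0.exB (Tm.var 2) ?_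
    (D0.exB (Tm.var 3) ?_ ?_)))
  · rintro v s ⟨t, x, y, h, -⟩
    rw [h]; exact (fst_le_pr _ _).trans (snd_le_pr _ _)
  · rintro v t ⟨x, y, h, -⟩
    show t ≤ v 2
    rw [show v 2 = _ from h]; exact (snd_le_pr _ _).trans (snd_le_pr _ _)
  · rintro v x ⟨y, h, h1, -⟩
    exact h1.w_lt.le
  · rintro v y ⟨h, h1, h2, -⟩
    exact h2.w_lt.le
  · refine D0.and (D0.eq (Tm.var 5) ((Tm.const k).pr ((Tm.var 3).pr (Tm.var 2)))) (D0.and ?_
      (D0.and ?_ ?_))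
    · exact T_D0 (Tm.var 4) (Tm.var 3) (Tm.var 6) (Tm.var 1)
    · exact T_D0 (Tm.var 4) (Tm.var 2) (Tm.var 6) (Tm.var 0)
    · exact D0.comp3 hR (Tm.var 1) (Tm.var 0) (Tm.var 7)

/-- variables -/
def VarL (c f a w : N.M) : Prop :=
  ∃ i, f = pr 0 i ∧ ((i = 0 ∧ ∃ b, a = pr w b) ∨
    ∃ j z b, i = j + 1 ∧ a = pr z b ∧ T c (pr 0 j) b w)

theorem VarL_D0 : D0 (fun v : Ctx N => VarL (v 0) (v 1) (v 2) (v 3)) := by
  refine D0.exB (Tm.var 1) ?_ (D0.and ?_ (D0.or (D0.and ?_ (D0.exB (Tm.var 3) ?_ ?_))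
    (D0.exB (Tm.var 0) ?_ (D0.exB (Tm.var 4) ?_ (D0.exB (Tm.var 5) ?_ ?_)))))
  · rintro v i ⟨h, -⟩
    rw [h]; exact snd_le_pr _ _
  · exact D0.eq (Tm.var 2) (Tm.zero.pr (Tm.var 0))
  · exact D0.eq (Tm.var 0) Tm.zero
  · rintro v b h
    show b ≤ v 3
    rw [show v 3 = _ from h]; exact snd_le_pr _ _
  · exact D0.eq (Tm.var 4) ((Tm.var 5).pr (Tm.var 0))
  · rintro v j ⟨z, b, h, -⟩
    show j ≤ v 0
    rw [h]; exact le_add_of_nonneg_right (zero_le' _)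
  · rintro v z ⟨b, h, h1, -⟩
    show z ≤ v 4
    rw [show v 4 = _ from h1]; exact fst_le_pr _ _
  · rintro v b ⟨h, h1, -⟩
    show b ≤ v 5
    rw [show v 5 = _ from h1]; exact snd_le_pr _ _
  · refine D0.and (D0.eq (Tm.var 3) ((Tm.var 2).add Tm.one)) (D0.and
      (D0.eq (Tm.var 6) ((Tm.var 1).pr (Tm.var 0))) ?_)
    exact T_D0 (Tm.var 4) (Tm.zero.pr (Tm.var 2)) (Tm.var 0) (Tm.var 7)

/-- negations -/
def NegL (k c f a w : N.M) : Prop :=
  ∃ g x, f = pr k g ∧ T c g a x ∧ ((x = 0 ∧ w = 1) ∨ (x ≠ 0 ∧ w = 0))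

theorem NegL_D0 (k : N.M) : D0 (fun v : Ctx N => NegL k (v 0) (v 1) (v 2) (v 3)) := by
  refine D0.exB (Tm.var 1) ?_ (D0.exB (Tm.var 1) ?_ (D0.and ?_ (D0.and ?_ ?_)))
  · rintro v i ⟨x, h, -⟩
    rw [h]; exact snd_le_pr _ _
  · rintro v x ⟨h, h1, -⟩
    exact h1.w_lt.le
  · exact D0.eq (Tm.var 3) ((Tm.const k).pr (Tm.var 1))
  · exact T_D0 (Tm.var 2) (Tm.var 1) (Tm.var 4) (Tm.var 0)
  · exact D0.or (D0.and (D0.eq (Tm.var 0) Tm.zero) (D0.eq (Tm.var 5) Tm.one))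
      (D0.and (D0.eq (Tm.var 0) Tm.zero).not (D0.eq (Tm.var 5) Tm.zero))

/-- bounded quantifiers -/
def BallL (k c f a w : N.M) : Prop :=
  ∃ t g b, f = pr k (pr t g) ∧ T c t a b ∧
    ((w = 1 ∧ ∀ z, z < b → ∃ x, x ≠ 0 ∧ T c g (pr z a) x) ∨
      (w = 0 ∧ ∃ z, z < b ∧ T c g (pr z a) 0))

theorem BallL_D0 (k : N.M) : D0 (fun v : Ctx N => BallL k (v 0) (v 1) (v 2) (v 3)) := by
  refine D0.exB (Tm.var 1) ?_ (D0.exB (Tm.var 2) ?_ (D0.exB (Tm.var 2) ?_ (D0.and ?_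
    (D0.and ?_ (D0.or (D0.and ?_ (D0.ball (Tm.var 0) (D0.exB (Tm.var 4) ?_ (D0.and ?_ ?_))))
      (D0.and ?_ (D0.bex (Tm.var 0) ?_)))))))
  · rintro v s ⟨t, x, h, -⟩
    rw [h]; exact (fst_le_pr _ _).trans (snd_le_pr _ _)
  · rintro v t ⟨x, h, -⟩
    show t ≤ v 2
    rw [show v 2 = _ from h]; exact (snd_le_pr _ _).trans (snd_le_pr _ _)
  · rintro v x ⟨h, h1, -⟩
    exact h1.w_lt.le
  · exact D0.eq (Tm.var 4) ((Tm.const k).pr ((Tm.var 2).pr (Tm.var 1)))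
  · exact T_D0 (Tm.var 3) (Tm.var 2) (Tm.var 5) (Tm.var 0)
  · exact D0.eq (Tm.var 6) Tm.one
  · rintro v x ⟨h, h1⟩
    exact h1.w_lt.le
  · exact (D0.eq (Tm.var 0) Tm.zero).not
  · exact T_D0 (Tm.var 5) (Tm.var 3) ((Tm.var 1).pr (Tm.var 7)) (Tm.var 0)
  · exact D0.eq (Tm.var 6) Tm.zero
  · exact T_D0 (Tm.var 4) (Tm.var 2) ((Tm.var 0).pr (Tm.var 6)) Tm.zero

/-- local correctness of an entry of a certificate -/
def Loc (c f a w : N.M) : Prop :=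
  VarL c f a w ∨ f = pr ((1 : ℕ) : N.M) w ∨ (f = pr ((2 : ℕ) : N.M) 0 ∧ w = 0) ∨
  (f = pr ((3 : ℕ) : N.M) 0 ∧ w = 1) ∨
  BinL (fun x y w => w = x + y) ((4 : ℕ) : N.M) c f a w ∨
  BinL (fun x y w => w = x * y) ((5 : ℕ) : N.M) c f a w ∨
  BinL (fun x y w => (x = y ∧ w = 1) ∨ (x ≠ y ∧ w = 0)) ((6 : ℕ) : N.M) c f a w ∨
  BinL (fun x y w => (x < y ∧ w = 1) ∨ (¬ x < y ∧ w = 0)) ((7 : ℕ) : N.M) c f a w ∨
  NegL ((8 : ℕ) : N.M) c f a w ∨
  BinL (fun x y w => ((x ≠ 0 ∧ y ≠ 0) ∧ w = 1) ∨ ((x = 0 ∨ y = 0) ∧ w = 0))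
    ((9 : ℕ) : N.M) c f a w ∨
  BallL ((10 : ℕ) : N.M) c f a w

theorem Loc_D0 : D0 (fun v : Ctx N => Loc (v 0) (v 1) (v 2) (v 3)) := by
  refine D0.or VarL_D0 (D0.or ?_ (D0.or (D0.and ?_ ?_) (D0.or (D0.and ?_ ?_)
    (D0.or (BinL_D0 ?_ _) (D0.or (BinL_D0 ?_ _) (D0.or (BinL_D0 ?_ _) (D0.or (BinL_D0 ?_ _)
      (D0.or (NegL_D0 _) (D0.or (BinL_D0 ?_ _) (BallL_D0 _))))))))))
  · exact D0.eq (Tm.var 1) ((Tm.const _).pr (Tm.var 3))
  · exact D0.eq (Tm.var 1) (Tm.const _)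
  · exact D0.eq (Tm.var 3) Tm.zero
  · exact D0.eq (Tm.var 1) (Tm.const _)
  · exact D0.eq (Tm.var 3) Tm.one
  · exact D0.eq (Tm.var 2) ((Tm.var 0).add (Tm.var 1))
  · exact D0.eq (Tm.var 2) ((Tm.var 0).mul (Tm.var 1))
  · exact D0.or (D0.and (D0.eq (Tm.var 0) (Tm.var 1)) (D0.eq (Tm.var 2) Tm.one))
      (D0.and (D0.eq (Tm.var 0) (Tm.var 1)).not (D0.eq (Tm.var 2) Tm.zero))
  · exact D0.or (D0.and (D0.lt (Tm.var 0) (Tm.var 1)) (D0.eq (Tm.var 2) Tm.one))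
      (D0.and (D0.lt (Tm.var 0) (Tm.var 1)).not (D0.eq (Tm.var 2) Tm.zero))
  · exact D0.or (D0.and (D0.and (D0.eq (Tm.var 0) Tm.zero).not (D0.eq (Tm.var 1) Tm.zero).not)
      (D0.eq (Tm.var 2) Tm.one))
      (D0.and (D0.or (D0.eq (Tm.var 0) Tm.zero) (D0.eq (Tm.var 1) Tm.zero))
        (D0.eq (Tm.var 2) Tm.zero))

theorem Loc.mono {c c' f a w : N.M} (h : ∀ r, MemC r c → MemC r c') (hl : Loc c f a w) :
    Loc c' f a w := by
  have hT : ∀ {f a w}, T c f a w → T c' f a w := fun hh => h _ hh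
  have hB : ∀ {R k}, BinL R k c f a w → BinL R k c' f a w := by
    rintro R k ⟨s, t, x, y, h1, h2, h3, h4⟩
    exact ⟨s, t, x, y, h1, hT h2, hT h3, h4⟩
  rcases hl with h | h | h | h | h | h | h | h | h | h | h
  · left
    obtain ⟨i, h1, h2 | ⟨j, z, b, h2, h3, h4⟩⟩ := h
    · exact ⟨i, h1, Or.inl h2⟩
    · exact ⟨i, h1, Or.inr ⟨j, z, b, h2, h3, hT h4⟩⟩
  · exact Or.inr (Or.inl h)
  · exact Or.inr (Or.inr (Or.inl h))
  · exact Or.inr (Or.inr (Or.inr (Or.inl h)))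
  · exact Or.inr (Or.inr (Or.inr (Or.inr (Or.inl (hB h)))))
  · exact Or.inr (Or.inr (Or.inr (Or.inr (Or.inr (Or.inl (hB h))))))
  · exact Or.inr (Or.inr (Or.inr (Or.inr (Or.inr (Or.inr (Or.inl (hB h)))))))
  · exact Or.inr (Or.inr (Or.inr (Or.inr (Or.inr (Or.inr (Or.inr (Or.inl (hB h))))))))
  · refine Or.inr (Or.inr (Or.inr (Or.inr (Or.inr (Or.inr (Or.inr (Or.inr (Or.inl ?_))))))))
    obtain ⟨g, x, h1, h2, h3⟩ := h
    exact ⟨g, x, h1, hT h2, h3⟩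
  · exact Or.inr (Or.inr (Or.inr (Or.inr (Or.inr (Or.inr (Or.inr (Or.inr (Or.inr
      (Or.inl (hB h))))))))))
  · refine Or.inr (Or.inr (Or.inr (Or.inr (Or.inr (Or.inr (Or.inr (Or.inr (Or.inr
      (Or.inr ?_)))))))))
    obtain ⟨t, g, b, h1, h2, ⟨h3, h4⟩ | ⟨h3, z, h4, h5⟩⟩ := h
    · refine ⟨t, g, b, h1, hT h2, Or.inl ⟨h3, fun z hz => ?_⟩⟩
      obtain ⟨x, hx, hx'⟩ := h4 z hz
      exact ⟨x, hx, hT hx'⟩
    · exact ⟨t, g, b, h1, hT h2, Or.inr ⟨h3, z, h4, hT h5⟩⟩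

/-- certificates -/
def Cert (c : N.M) : Prop := ∀ r, MemC r c → ∃ f a w, r = pr f (pr a w) ∧ Loc c f a w

theorem Cert_D0 {t : Ctx N → N.M} (ht : Tm t) : D0 (fun v => Cert (t v)) := by
  refine D0.allB ht ?_ (D0.imp (MemC_D0 (Tm.var 0) ht.tail) (D0.exB (Tm.var 0) ?_
    (D0.exB (Tm.var 1) ?_ (D0.exB (Tm.var 2) ?_ (D0.and ?_ ?_)))))
  · intro v r h
    push Not at h
    exact h.1.lt.le
  · rintro v f ⟨a, w, h, -⟩
    rw [h]; exact fst_le_pr _ _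
  · rintro v a ⟨w, h, -⟩
    show a ≤ v 1
    rw [show v 1 = _ from h]; exact (fst_le_pr _ _).trans (snd_le_pr _ _)
  · rintro v w ⟨h, -⟩
    show w ≤ v 2
    rw [show v 2 = _ from h]; exact (snd_le_pr _ _).trans (snd_le_pr _ _)
  · exact D0.eq (Tm.var 3) ((Tm.var 2).pr ((Tm.var 1).pr (Tm.var 0)))
  · exact D0.comp4 Loc_D0 ht.tail.tail.tail.tail (Tm.var 2) (Tm.var 1) (Tm.var 0)

theorem Cert.loc {c f a w : N.M} (hc : Cert c) (h : T c f a w) : Loc c f a w := by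
  obtain ⟨f', a', w', e, hl⟩ := hc _ h
  obtain ⟨e1, e2⟩ := pr_inj e
  obtain ⟨e3, e4⟩ := pr_inj e2
  rw [e1, e3, e4]
  exact hl

theorem cert_empty : ∃ c : N.M, Cert c := by
  obtain ⟨c, _, hc⟩ := exists_isC (N := N) (P := fun _ => False) D0.false (b := 0)
    (fun r hr => hr.elim)
  exact ⟨c, fun r hr => ((hc r).1 hr).elim⟩

theorem cert_union (B : N.M) : ∃ c : N.M, Cert c ∧ ∀ c', c' < B → Cert c' →
    ∀ r, MemC r c' → MemC r c := by
  obtain ⟨c, _, hc⟩ := exists_isC (N := N)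
    (P := fun r => ∃ c', c' < B ∧ (Cert c' ∧ MemC r c'))
    (D0.bex (Tm.const B) (D0.and (Cert_D0 (Tm.var 0)) (MemC_D0 (Tm.var 1) (Tm.var 0)))) (b := B)
    (fun r ⟨c', h, _, hr⟩ => hr.lt.trans h)
  refine ⟨c, fun r hr => ?_, fun c' h h' r hr => (hc r).2 ⟨c', h, h', hr⟩⟩
  obtain ⟨c', h1, h2, h3⟩ := (hc r).1 hr
  obtain ⟨f, a, w, e, hl⟩ := h2 r h3
  exact ⟨f, a, w, e, hl.mono fun r hr => (hc r).2 ⟨c', h1, h2, hr⟩⟩

theorem cert_two {c1 c2 : N.M} (h1 : Cert c1) (h2 : Cert c2) :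
    ∃ c, Cert c ∧ (∀ r, MemC r c1 → MemC r c) ∧ ∀ r, MemC r c2 → MemC r c := by
  obtain ⟨c, hc, h⟩ := cert_union (max (c1 + 1) (c2 + 1))
  exact ⟨c, hc, h c1 (lt_of_lt_of_le (lt_add_one_iff'.2 le_rfl) (le_max_left _ _)) h1,
    h c2 (lt_of_lt_of_le (lt_add_one_iff'.2 le_rfl) (le_max_right _ _)) h2⟩

theorem cert_add {c f a w : N.M} (h : Cert c) (hl : Loc c f a w) :
    ∃ c', Cert c' ∧ T c' f a w ∧ ∀ r, MemC r c → MemC r c' := by
  obtain ⟨c', _, hc⟩ := exists_isC (N := N) (P := fun r => MemC r c ∨ r = pr f (pr a w))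
    (D0.or (MemC_D0 (Tm.var 0) (Tm.const c)) (D0.eq (Tm.var 0) (Tm.const _)))
    (b := c + (pr f (pr a w) + 1)) (fun r hr => by
      rcases hr with hr | rfl
      · exact lt_of_lt_of_le hr.lt (le_add_of_nonneg_right (zero_le' _))
      · exact lt_of_lt_of_le (lt_add_one_iff'.2 le_rfl) (le_add_of_nonneg_left (zero_le' _)))
  have hm : ∀ r, MemC r c → MemC r c' := fun r hr => (hc r).2 (Or.inl hr)
  refine ⟨c', fun r hr => ?_, (hc _).2 (Or.inr rfl), hm⟩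
  rcases (hc r).1 hr with hr | rfl
  · obtain ⟨f', a', w', e, hl'⟩ := h r hr
    exact ⟨f', a', w', e, hl'.mono hm⟩
  · exact ⟨f, a, w, rfl, hl.mono hm⟩

/-- codes of terms -/
noncomputable def tcode : Term (withSets N ∅) → N.M
  | .var i => pr 0 ((i : ℕ) : N.M)
  | .const a => pr ((1 : ℕ) : N.M) a
  | .zero => pr ((2 : ℕ) : N.M) 0
  | .one => pr ((3 : ℕ) : N.M) 0
  | .add s t => pr ((4 : ℕ) : N.M) (pr (tcode s) (tcode t))
  | .mul s t => pr ((5 : ℕ) : N.M) (pr (tcode s) (tcode t))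

/-- codes of formulas -/
noncomputable def fcode : Delta0 (withSets N ∅) → N.M
  | .eq s t => pr ((6 : ℕ) : N.M) (pr (tcode s) (tcode t))
  | .lt s t => pr ((7 : ℕ) : N.M) (pr (tcode s) (tcode t))
  | .mem _ _ => 0
  | .neg φ => pr ((8 : ℕ) : N.M) (fcode φ)
  | .and φ ψ => pr ((9 : ℕ) : N.M) (pr (fcode φ) (fcode ψ))
  | .ball t φ => pr ((10 : ℕ) : N.M) (pr (tcode t) (fcode φ))

/-- bounds for the variables -/
def tb : Term (withSets N ∅) → ℕ
  | .var i => i + 1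
  | .const _ => 0
  | .zero => 0
  | .one => 0
  | .add s t => max (tb s) (tb t)
  | .mul s t => max (tb s) (tb t)

def fb : Delta0 (withSets N ∅) → ℕ
  | .eq s t => max (tb s) (tb t)
  | .lt s t => max (tb s) (tb t)
  | .mem _ _ => 0
  | .neg φ => fb φ
  | .and φ ψ => max (fb φ) (fb ψ)
  | .ball t φ => max (tb t) (fb φ)

/-- `a` codes the first `n` values of `v` -/
def Rep : ℕ → N.M → Ctx N → Prop
  | 0, _, _ => True
  | n + 1, a, v => ∃ b, a = pr (v 0) b ∧ Rep n b (tail v)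

theorem exists_rep (n : ℕ) : ∀ v : Ctx N, ∃ a, Rep n a v := by
  induction n with
  | zero => exact fun v => ⟨0, trivial⟩
  | succ n ih =>
    intro v
    obtain ⟨b, hb⟩ := ih (tail v)
    exact ⟨pr (v 0) b, b, rfl, hb⟩

theorem Rep.pred {n : ℕ} : ∀ {a : N.M} {v : Ctx N}, Rep (n + 1) a v → Rep n a v := by
  induction n with
  | zero => exact fun _ => trivial
  | succ n ih =>
    rintro a v ⟨b, hb, h⟩
    exact ⟨b, hb, ih h⟩

theorem Rep.le {m n : ℕ} (h : m ≤ n) {a : N.M} {v : Ctx N} (hr : Rep n a v) : Rep m a v := by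
  induction h with
  | refl => exact hr
  | step _ ih => exact ih hr.pred

theorem Rep.cons {n : ℕ} {a z : N.M} {v : Ctx N} (h : Rep n a v) :
    Rep (n + 1) (pr z a) (Pool.Agent.Helper617.RM.cons z v) := ⟨a, rfl, h⟩

theorem cast_ne {i j : ℕ} (h : i ≠ j) : ((i : ℕ) : N.M) ≠ ((j : ℕ) : N.M) :=
  fun e => h (Nat.cast_injective e)

theorem zero_ne_cast {j : ℕ} (h : 0 ≠ j) : (0 : N.M) ≠ ((j : ℕ) : N.M) := by
  have := cast_ne (N := N) h
  rwa [Nat.cast_zero] at this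

/-- decoding the local correctness, by the tag of the expression -/
theorem Loc.tag {c g a w : N.M} (k : ℕ) (h : Loc c (pr ((k : ℕ) : N.M) g) a w) :
    (k = 0 ∧ VarL c (pr 0 g) a w) ∨ (k = 1 ∧ g = w) ∨ (k = 2 ∧ w = 0) ∨ (k = 3 ∧ w = 1) ∨
    (k = 4 ∧ ∃ s t x y, g = pr s t ∧ T c s a x ∧ T c t a y ∧ w = x + y) ∨
    (k = 5 ∧ ∃ s t x y, g = pr s t ∧ T c s a x ∧ T c t a y ∧ w = x * y) ∨
    (k = 6 ∧ ∃ s t x y, g = pr s t ∧ T c s a x ∧ T c t a y ∧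
      ((x = y ∧ w = 1) ∨ (x ≠ y ∧ w = 0))) ∨
    (k = 7 ∧ ∃ s t x y, g = pr s t ∧ T c s a x ∧ T c t a y ∧
      ((x < y ∧ w = 1) ∨ (¬ x < y ∧ w = 0))) ∨
    (k = 8 ∧ ∃ x, T c g a x ∧ ((x = 0 ∧ w = 1) ∨ (x ≠ 0 ∧ w = 0))) ∨
    (k = 9 ∧ ∃ s t x y, g = pr s t ∧ T c s a x ∧ T c t a y ∧
      (((x ≠ 0 ∧ y ≠ 0) ∧ w = 1) ∨ ((x = 0 ∨ y = 0) ∧ w = 0))) ∨
    (k = 10 ∧ ∃ t h b, g = pr t h ∧ T c t a b ∧
      ((w = 1 ∧ ∀ z, z < b → ∃ x, x ≠ 0 ∧ T c h (pr z a) x) ∨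
      (w = 0 ∧ ∃ z, z < b ∧ T c h (pr z a) 0))) := by
  have hk : ∀ {j : ℕ} {x : N.M}, pr ((k : ℕ) : N.M) g = pr ((j : ℕ) : N.M) x → k = j ∧ g = x :=
    fun e => ⟨Nat.cast_injective (pr_inj e).1, (pr_inj e).2⟩
  have hB : ∀ {j : ℕ} {R : N.M → N.M → N.M → Prop},
      BinL R ((j : ℕ) : N.M) c (pr ((k : ℕ) : N.M) g) a w →
      k = j ∧ ∃ s t x y, g = pr s t ∧ T c s a x ∧ T c t a y ∧ R x y w := by
    rintro j R ⟨s, t, x, y, e, h⟩
    exact ⟨(hk e).1, s, t, x, y, (hk e).2, h⟩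
  rcases h with h | h | h | h | h | h | h | h | h | h | h
  · left
    obtain ⟨i, e, h'⟩ := h
    have h0 : k = 0 := by
      have := (pr_inj e).1
      rw [← Nat.cast_zero] at this
      exact Nat.cast_injective this
    subst h0
    have e' : g = i := (pr_inj e).2
    exact ⟨rfl, i, by rw [e'], h'⟩
  · exact Or.inr (Or.inl (hk h))
  · exact Or.inr (Or.inr (Or.inl ⟨(Nat.cast_injective (pr_inj h.1).1), h.2⟩))
  · exact Or.inr (Or.inr (Or.inr (Or.inl ⟨(Nat.cast_injective (pr_inj h.1).1), h.2⟩)))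
  · exact Or.inr (Or.inr (Or.inr (Or.inr (Or.inl (hB h)))))
  · exact Or.inr (Or.inr (Or.inr (Or.inr (Or.inr (Or.inl (hB h))))))
  · exact Or.inr (Or.inr (Or.inr (Or.inr (Or.inr (Or.inr (Or.inl (hB h)))))))
  · exact Or.inr (Or.inr (Or.inr (Or.inr (Or.inr (Or.inr (Or.inr (Or.inl (hB h))))))))
  · refine Or.inr (Or.inr (Or.inr (Or.inr (Or.inr (Or.inr (Or.inr (Or.inr (Or.inl ?_))))))))
    obtain ⟨g', x, e, h'⟩ := h
    obtain ⟨e1, e2⟩ := hk e
    subst e2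
    exact ⟨e1, x, h'⟩
  · exact Or.inr (Or.inr (Or.inr (Or.inr (Or.inr (Or.inr (Or.inr (Or.inr (Or.inr
      (Or.inl (hB h))))))))))
  · refine Or.inr (Or.inr (Or.inr (Or.inr (Or.inr (Or.inr (Or.inr (Or.inr (Or.inr
      (Or.inr ?_)))))))))
    obtain ⟨t, h, b, e, h'⟩ := h
    obtain ⟨e1, e2⟩ := hk e
    exact ⟨e1, t, h, b, e2, h'⟩

theorem var_sound {c : N.M} (hc : Cert c) (i : ℕ) : ∀ {a w : N.M} {v : Ctx N},
    Rep (i + 1) a v → T c (pr 0 ((i : ℕ) : N.M)) a w → w = v i := by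
  induction i with
  | zero =>
    rintro a w v ⟨b, hb, -⟩ h
    have := hc.loc h
    have h0 : (0 : N.M) = ((0 : ℕ) : N.M) := Nat.cast_zero.symm
    rw [show pr (0 : N.M) ((0 : ℕ) : N.M) = pr ((0 : ℕ) : N.M) ((0 : ℕ) : N.M) by rw [← h0]] at this
    rcases this.tag 0 with ⟨_, i, e, h1 | ⟨j, z, b', e2, _⟩⟩ | h | h | h | h | h | h | h | h | h | h
    · obtain ⟨-, b', e'⟩ := h1
      rw [hb] at e'
      exact (pr_inj e').1.symm
    · have := (pr_inj e).2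
      rw [e2, Nat.cast_zero] at this
      exact absurd this.symm (succ_ne_zero' j)
    all_goals exact absurd h.1 (by decide)
  | succ i ih =>
    rintro a w v ⟨b, hb, hr⟩ h
    have := hc.loc h
    have h0 : (0 : N.M) = ((0 : ℕ) : N.M) := Nat.cast_zero.symm
    rw [show pr (0 : N.M) ((i + 1 : ℕ) : N.M) = pr ((0 : ℕ) : N.M) ((i + 1 : ℕ) : N.M) by
      rw [← h0]] at this
    rcases this.tag 0 with ⟨_, i', e, h1 | ⟨j, z, b', e2, e3, h3⟩⟩ | h | h | h | h | h | h | h | h |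
      h | h
    · have := (pr_inj e).2
      rw [h1.1, Nat.cast_succ] at this
      exact absurd this (succ_ne_zero' _)
    · have := (pr_inj e).2
      rw [e2, Nat.cast_succ] at this
      have hj := add_cancel' this
      subst hj
      rw [hb] at e3
      obtain ⟨-, rfl⟩ := pr_inj e3
      exact ih hr h3
    all_goals exact absurd h.1 (by decide)

theorem term_sound {c : N.M} (hc : Cert c) (t : Term (withSets N ∅)) : ∀ {n : ℕ} {a w : N.M}
    {v : Ctx N}, tb t ≤ n → Rep n a v → T c (tcode t) a w → w = t.val v := by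
  induction t with
  | var i =>
    intro n a w v hn hr h
    exact var_sound hc i (hr.le hn) h
  | const b =>
    intro n a w v hn hr h
    rcases (hc.loc h).tag 1 with h | h | h | h | h | h | h | h | h | h | h
    · exact absurd h.1 (by decide)
    · exact h.2.symm
    all_goals exact absurd h.1 (by decide)
  | zero =>
    intro n a w v hn hr h
    rcases (hc.loc h).tag 2 with h | h | h | h | h | h | h | h | h | h | h
    · exact absurd h.1 (by decide)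
    · exact absurd h.1 (by decide)
    · exact h.2
    all_goals exact absurd h.1 (by decide)
  | one =>
    intro n a w v hn hr h
    rcases (hc.loc h).tag 3 with h | h | h | h | h | h | h | h | h | h | h
    · exact absurd h.1 (by decide)
    · exact absurd h.1 (by decide)
    · exact absurd h.1 (by decide)
    · exact h.2
    all_goals exact absurd h.1 (by decide)
  | add s t ihs iht =>
    intro n a w v hn hr h
    rcases (hc.loc h).tag 4 with h | h | h | h | h | h | h | h | h | h | h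
    on_goal 5 =>
      obtain ⟨-, s', t', x, y, e, h1, h2, h3⟩ := h
      obtain ⟨rfl, rfl⟩ := pr_inj e
      rw [h3, ihs ((le_max_left _ _).trans hn) hr h1, iht ((le_max_right _ _).trans hn) hr h2]
      rfl
    all_goals exact absurd h.1 (by decide)
  | mul s t ihs iht =>
    intro n a w v hn hr h
    rcases (hc.loc h).tag 5 with h | h | h | h | h | h | h | h | h | h | h
    on_goal 6 =>
      obtain ⟨-, s', t', x, y, e, h1, h2, h3⟩ := h
      obtain ⟨rfl, rfl⟩ := pr_inj e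
      rw [h3, ihs ((le_max_left _ _).trans hn) hr h1, iht ((le_max_right _ _).trans hn) hr h2]
      rfl
    all_goals exact absurd h.1 (by decide)

theorem one_ne_zero'' : (1 : N.M) ≠ 0 := (zero_lt_one).ne'

theorem form_sound {c : N.M} (hc : Cert c) (φ : Delta0 (withSets N ∅)) : ∀ {n : ℕ} {a w : N.M}
    {v : Ctx N}, fb φ ≤ n → Rep n a v → T c (fcode φ) a w →
    (w = 1 ∧ φ.Holds v) ∨ (w = 0 ∧ ¬ φ.Holds v) := by
  induction φ with
  | eq s t =>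
    intro n a w v hn hr h
    rcases (hc.loc h).tag 6 with h | h | h | h | h | h | h | h | h | h | h
    on_goal 7 =>
      obtain ⟨-, s', t', x, y, e, h1, h2, h3⟩ := h
      obtain ⟨rfl, rfl⟩ := pr_inj e
      have e1 := term_sound hc s ((le_max_left _ _).trans hn) hr h1
      have e2 := term_sound hc t ((le_max_right _ _).trans hn) hr h2
      rcases h3 with ⟨h3, h4⟩ | ⟨h3, h4⟩
      · refine Or.inl ⟨h4, ?_⟩
        rw [e1, e2] at h3
        exact h3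
      · refine Or.inr ⟨h4, ?_⟩
        rw [e1, e2] at h3
        exact h3
    all_goals exact absurd h.1 (by decide)
  | lt s t =>
    intro n a w v hn hr h
    rcases (hc.loc h).tag 7 with h | h | h | h | h | h | h | h | h | h | h
    on_goal 8 =>
      obtain ⟨-, s', t', x, y, e, h1, h2, h3⟩ := h
      obtain ⟨rfl, rfl⟩ := pr_inj e
      have e1 := term_sound hc s ((le_max_left _ _).trans hn) hr h1
      have e2 := term_sound hc t ((le_max_right _ _).trans hn) hr h2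
      rcases h3 with ⟨h3, h4⟩ | ⟨h3, h4⟩
      · refine Or.inl ⟨h4, ?_⟩
        rw [e1, e2] at h3
        exact h3
      · refine Or.inr ⟨h4, ?_⟩
        rw [e1, e2] at h3
        exact h3
    all_goals exact absurd h.1 (by decide)
  | mem t Y => exact absurd Y.2 (Set.notMem_empty _)
  | neg φ ih =>
    intro n a w v hn hr h
    rcases (hc.loc h).tag 8 with h | h | h | h | h | h | h | h | h | h | h
    on_goal 9 =>
      obtain ⟨-, x, h1, h2⟩ := h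
      rcases ih hn hr h1 with ⟨e, hφ⟩ | ⟨e, hφ⟩
      · rcases h2 with ⟨h2, h3⟩ | ⟨h2, h3⟩
        · rw [e] at h2; exact absurd h2 one_ne_zero''
        · exact Or.inr ⟨h3, fun hn => hn hφ⟩
      · rcases h2 with ⟨h2, h3⟩ | ⟨h2, h3⟩
        · exact Or.inl ⟨h3, hφ⟩
        · exact absurd e h2
    all_goals exact absurd h.1 (by decide)
  | and φ ψ ih1 ih2 =>
    intro n a w v hn hr h
    rcases (hc.loc h).tag 9 with h | h | h | h | h | h | h | h | h | h | h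
    on_goal 10 =>
      obtain ⟨-, s', t', x, y, e, h1, h2, h3⟩ := h
      obtain ⟨rfl, rfl⟩ := pr_inj e
      have e1 := ih1 ((le_max_left _ _).trans hn) hr h1
      have e2 := ih2 ((le_max_right _ _).trans hn) hr h2
      rcases h3 with ⟨⟨h3, h4⟩, h5⟩ | ⟨h3 | h3, h5⟩
      · refine Or.inl ⟨h5, ?_, ?_⟩
        · rcases e1 with e1 | e1
          · exact e1.2
          · exact absurd e1.1 h3
        · rcases e2 with e2 | e2
          · exact e2.2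
          · exact absurd e2.1 h4
      · refine Or.inr ⟨h5, fun hh => ?_⟩
        rcases e1 with e1 | e1
        · rw [e1.1] at h3; exact one_ne_zero'' h3
        · exact e1.2 hh.1
      · refine Or.inr ⟨h5, fun hh => ?_⟩
        rcases e2 with e2 | e2
        · rw [e2.1] at h3; exact one_ne_zero'' h3
        · exact e2.2 hh.2
    all_goals exact absurd h.1 (by decide)
  | ball t φ ih =>
    intro n a w v hn hr h
    rcases (hc.loc h).tag 10 with h | h | h | h | h | h | h | h | h | h | h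
    on_goal 11 =>
      obtain ⟨-, s', g', b, e, h1, h2⟩ := h
      obtain ⟨rfl, rfl⟩ := pr_inj e
      have e1 := term_sound hc t ((le_max_left _ _).trans hn) hr h1
      have hn' : fb φ ≤ n + 1 := ((le_max_right _ _).trans hn).trans (Nat.le_succ _)
      rcases h2 with ⟨h2, h3⟩ | ⟨h2, z, hz, h3⟩
      · refine Or.inl ⟨h2, fun z hz => ?_⟩
        obtain ⟨x, hx, hx'⟩ := h3 z (by rw [e1]; exact hz)
        rcases ih hn' (Rep.cons (N := N) (z := z) hr) hx' with h | h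
        · exact h.2
        · exact absurd h.1 hx
      · refine Or.inr ⟨h2, fun hall => ?_⟩
        have hz' : N.lt z (t.val v) := by rw [← e1]; exact hz
        rcases ih hn' (Rep.cons (N := N) (z := z) hr) h3 with h | h
        · exact one_ne_zero'' h.1.symm
        · exact h.2 (hall z hz')
    all_goals exact absurd h.1 (by decide)

theorem var_complete (i : ℕ) : ∀ {a : N.M} {v : Ctx N}, Rep (i + 1) a v →
    ∃ c, Cert c ∧ T c (pr 0 ((i : ℕ) : N.M)) a (v i) := by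
  induction i with
  | zero =>
    rintro a v ⟨b, hb, -⟩
    obtain ⟨c, hc⟩ := cert_empty (N := N)
    obtain ⟨c', h1, h2, -⟩ := cert_add hc (f := pr 0 ((0 : ℕ) : N.M)) (a := a) (w := v 0)
      (Or.inl ⟨_, rfl, Or.inl ⟨Nat.cast_zero, b, hb⟩⟩)
    exact ⟨c', h1, h2⟩
  | succ i ih =>
    rintro a v ⟨b, hb, hr⟩
    obtain ⟨c, hc, h⟩ := ih hr
    obtain ⟨c', h1, h2, -⟩ := cert_add hc (f := pr 0 ((i + 1 : ℕ) : N.M)) (a := a) (w := v (i + 1))
      (Or.inl ⟨_, rfl, Or.inr ⟨_, _, b, Nat.cast_succ i, hb, h⟩⟩)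
    exact ⟨c', h1, h2⟩

theorem term_complete (t : Term (withSets N ∅)) : ∀ {n : ℕ} {a : N.M} {v : Ctx N},
    tb t ≤ n → Rep n a v → ∃ c, Cert c ∧ T c (tcode t) a (t.val v) := by
  induction t with
  | var i => exact fun hn hr => var_complete i (hr.le hn)
  | const b =>
    intro n a v hn hr
    obtain ⟨c, hc⟩ := cert_empty (N := N)
    obtain ⟨c', h1, h2, -⟩ := cert_add hc (f := pr ((1 : ℕ) : N.M) b) (a := a) (w := b)
      (Or.inr (Or.inl rfl))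
    exact ⟨c', h1, h2⟩
  | zero =>
    intro n a v hn hr
    obtain ⟨c, hc⟩ := cert_empty (N := N)
    obtain ⟨c', h1, h2, -⟩ := cert_add hc (f := pr ((2 : ℕ) : N.M) 0) (a := a) (w := 0)
      (Or.inr (Or.inr (Or.inl ⟨rfl, rfl⟩)))
    exact ⟨c', h1, h2⟩
  | one =>
    intro n a v hn hr
    obtain ⟨c, hc⟩ := cert_empty (N := N)
    obtain ⟨c', h1, h2, -⟩ := cert_add hc (f := pr ((3 : ℕ) : N.M) 0) (a := a) (w := 1)
      (Or.inr (Or.inr (Or.inr (Or.inl ⟨rfl, rfl⟩))))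
    exact ⟨c', h1, h2⟩
  | add s t ihs iht =>
    intro n a v hn hr
    obtain ⟨c1, hc1, g1⟩ := ihs ((le_max_left _ _).trans hn) hr
    obtain ⟨c2, hc2, g2⟩ := iht ((le_max_right _ _).trans hn) hr
    obtain ⟨c, hc, m1, m2⟩ := cert_two hc1 hc2
    obtain ⟨c', h1, h2, -⟩ := cert_add hc (f := tcode (.add s t)) (a := a)
      (w := (Term.add s t).val v)
      (Or.inr (Or.inr (Or.inr (Or.inr (Or.inl ⟨_, _, _, _, rfl, m1 _ g1, m2 _ g2, rfl⟩)))))
    exact ⟨c', h1, h2⟩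
  | mul s t ihs iht =>
    intro n a v hn hr
    obtain ⟨c1, hc1, g1⟩ := ihs ((le_max_left _ _).trans hn) hr
    obtain ⟨c2, hc2, g2⟩ := iht ((le_max_right _ _).trans hn) hr
    obtain ⟨c, hc, m1, m2⟩ := cert_two hc1 hc2
    obtain ⟨c', h1, h2, -⟩ := cert_add hc (f := tcode (.mul s t)) (a := a)
      (w := (Term.mul s t).val v)
      (Or.inr (Or.inr (Or.inr (Or.inr (Or.inr (Or.inl
        ⟨_, _, _, _, rfl, m1 _ g1, m2 _ g2, rfl⟩))))))
    exact ⟨c', h1, h2⟩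

theorem form_complete (φ : Delta0 (withSets N ∅)) : ∀ {n : ℕ} {a : N.M} {v : Ctx N},
    fb φ ≤ n → Rep n a v → ∃ c w, Cert c ∧ T c (fcode φ) a w := by
  induction φ with
  | eq s t =>
    intro n a v hn hr
    obtain ⟨c1, hc1, g1⟩ := term_complete s ((le_max_left _ _).trans hn) hr
    obtain ⟨c2, hc2, g2⟩ := term_complete t ((le_max_right _ _).trans hn) hr
    obtain ⟨c, hc, m1, m2⟩ := cert_two hc1 hc2
    have key : ∃ w : N.M, ((s.val v = t.val v ∧ w = 1) ∨ (s.val v ≠ t.val v ∧ w = 0)) := by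
      by_cases h : s.val v = t.val v
      · exact ⟨1, Or.inl ⟨h, rfl⟩⟩
      · exact ⟨0, Or.inr ⟨h, rfl⟩⟩
    obtain ⟨w, hw⟩ := key
    obtain ⟨c', h1, h2, -⟩ := cert_add hc (f := fcode (.eq s t)) (a := a) (w := w)
      (Or.inr (Or.inr (Or.inr (Or.inr (Or.inr (Or.inr (Or.inl
        ⟨_, _, _, _, rfl, m1 _ g1, m2 _ g2, hw⟩)))))))
    exact ⟨c', w, h1, h2⟩
  | lt s t =>
    intro n a v hn hr
    obtain ⟨c1, hc1, g1⟩ := term_complete s ((le_max_left _ _).trans hn) hr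
    obtain ⟨c2, hc2, g2⟩ := term_complete t ((le_max_right _ _).trans hn) hr
    obtain ⟨c, hc, m1, m2⟩ := cert_two hc1 hc2
    have key : ∀ p q : N.M, ∃ w : N.M, ((p < q ∧ w = 1) ∨ (¬ p < q ∧ w = 0)) := by
      intro p q
      by_cases h : p < q
      · exact ⟨1, Or.inl ⟨h, rfl⟩⟩
      · exact ⟨0, Or.inr ⟨h, rfl⟩⟩
    obtain ⟨w, hw⟩ := key (s.val v) (t.val v)
    obtain ⟨c', h1, h2, -⟩ := cert_add hc (f := fcode (.lt s t)) (a := a) (w := w)
      (Or.inr (Or.inr (Or.inr (Or.inr (Or.inr (Or.inr (Or.inr (Or.inl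
        ⟨_, _, _, _, rfl, m1 _ g1, m2 _ g2, hw⟩))))))))
    exact ⟨c', w, h1, h2⟩
  | mem t Y => exact absurd Y.2 (Set.notMem_empty _)
  | neg φ ih =>
    intro n a v hn hr
    obtain ⟨c, x, hc, g⟩ := ih hn hr
    have key : ∃ w : N.M, ((x = 0 ∧ w = 1) ∨ (x ≠ 0 ∧ w = 0)) := by
      by_cases h : x = 0
      · exact ⟨1, Or.inl ⟨h, rfl⟩⟩
      · exact ⟨0, Or.inr ⟨h, rfl⟩⟩
    obtain ⟨w, hw⟩ := key
    obtain ⟨c', h1, h2, -⟩ := cert_add hc (f := fcode (.neg φ)) (a := a) (w := w)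
      (Or.inr (Or.inr (Or.inr (Or.inr (Or.inr (Or.inr (Or.inr (Or.inr (Or.inl
        ⟨_, _, rfl, g, hw⟩)))))))))
    exact ⟨c', w, h1, h2⟩
  | and φ ψ ih1 ih2 =>
    intro n a v hn hr
    obtain ⟨c1, x, hc1, g1⟩ := ih1 ((le_max_left _ _).trans hn) hr
    obtain ⟨c2, y, hc2, g2⟩ := ih2 ((le_max_right _ _).trans hn) hr
    obtain ⟨c, hc, m1, m2⟩ := cert_two hc1 hc2
    have key : ∃ w : N.M, (((x ≠ 0 ∧ y ≠ 0) ∧ w = 1) ∨ ((x = 0 ∨ y = 0) ∧ w = 0)) := by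
      by_cases h : x ≠ 0 ∧ y ≠ 0
      · exact ⟨1, Or.inl ⟨h, rfl⟩⟩
      · refine ⟨0, Or.inr ⟨?_, rfl⟩⟩
        by_cases hx : x = 0
        · exact Or.inl hx
        · by_cases hy : y = 0
          · exact Or.inr hy
          · exact absurd ⟨hx, hy⟩ h
    obtain ⟨w, hw⟩ := key
    obtain ⟨c', h1, h2, -⟩ := cert_add hc (f := fcode (.and φ ψ)) (a := a) (w := w)
      (Or.inr (Or.inr (Or.inr (Or.inr (Or.inr (Or.inr (Or.inr (Or.inr (Or.inr (Or.inl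
        ⟨_, _, _, _, rfl, m1 _ g1, m2 _ g2, hw⟩))))))))))
    exact ⟨c', w, h1, h2⟩
  | ball t φ ih =>
    intro n a v hn hr
    obtain ⟨c1, hc1, g1⟩ := term_complete t ((le_max_left _ _).trans hn) hr
    have hn' : fb φ ≤ n + 1 := ((le_max_right _ _).trans hn).trans (Nat.le_succ _)
    obtain ⟨B, hB⟩ := bounding (N := N)
      (Q := fun z c => Cert c ∧ ∃ x, T c (fcode φ) (pr z a) x)
      (D0.and (Cert_D0 (Tm.var 0)) (D0.exB (Tm.var 0) (fun v x h => h.w_lt.le)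
        (T_D0 (Tm.var 1) (Tm.const _) ((Tm.var 2).pr (Tm.const _)) (Tm.var 0)))) (t.val v)
      (fun z hz => by
        obtain ⟨c, x, hc, hx⟩ := ih hn' (Rep.cons (N := N) (z := z) hr)
        exact ⟨c, hc, x, hx⟩)
    obtain ⟨c2, hc2, m2⟩ := cert_union B
    obtain ⟨c, hc, n1, n2⟩ := cert_two hc1 hc2
    have key : ∀ b : N.M, (∀ z : N.M, z < b → ∃ x, T c (fcode φ) (pr z a) x) →
        ∃ w : N.M, ((w = 1 ∧ ∀ z, z < b → ∃ x, x ≠ 0 ∧
        T c (fcode φ) (pr z a) x) ∨ (w = 0 ∧ ∃ z, z < b ∧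
        T c (fcode φ) (pr z a) 0)) := by
      intro b hz
      by_cases h : ∃ z, z < b ∧ T c (fcode φ) (pr z a) 0
      · exact ⟨0, Or.inr ⟨rfl, h⟩⟩
      · refine ⟨1, Or.inl ⟨rfl, fun z hzv => ?_⟩⟩
        obtain ⟨x, hx⟩ := hz z hzv
        refine ⟨x, fun h0 => h ⟨z, hzv, ?_⟩, hx⟩
        rw [h0] at hx; exact hx
    obtain ⟨w, hw⟩ := key (t.val v) (by
      intro z hz
      obtain ⟨c', hc', h1, x, hx⟩ := hB z hz
      exact ⟨x, n2 _ (m2 c' hc' h1 _ hx)⟩)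
    obtain ⟨c', h1, h2, -⟩ := cert_add hc (f := fcode (.ball t φ)) (a := a) (w := w)
      (Or.inr (Or.inr (Or.inr (Or.inr (Or.inr (Or.inr (Or.inr (Or.inr (Or.inr (Or.inr
        ⟨_, _, _, rfl, n1 _ g1, hw⟩))))))))))
    exact ⟨c', w, h1, h2⟩

theorem holds_iff_cert (φ : Delta0 (withSets N ∅)) {n : ℕ} {a : N.M} {v : Ctx N}
    (hn : fb φ ≤ n) (hr : Rep n a v) : φ.Holds v ↔ ∃ c, Cert c ∧ T c (fcode φ) a 1 := by
  constructor
  · intro h
    obtain ⟨c, w, hc, hw⟩ := form_complete φ hn hr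
    rcases form_sound hc φ hn hr hw with ⟨e, _⟩ | ⟨_, h'⟩
    · rw [e] at hw; exact ⟨c, hc, hw⟩
    · exact absurd h h'
  · rintro ⟨c, hc, hw⟩
    rcases form_sound hc φ hn hr hw with ⟨_, h'⟩ | ⟨e, _⟩
    · exact h'
    · exact absurd e one_ne_zero''

/-- the universal relation -/
def Um (e z y : N.M) : Prop :=
  ∃ f a k c, e = pr f a ∧ y = pr k c ∧ Cert c ∧ T c f (pr k (pr z a)) 1

theorem Um_D0 {se sz sy : Ctx N → N.M} (he : Tm se) (hz : Tm sz) (hy : Tm sy) :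
    D0 (fun v => Um (se v) (sz v) (sy v)) := by
  refine D0.exB he ?_ (D0.exB he.tail ?_ (D0.exB hy.tail.tail ?_ (D0.exB hy.tail.tail.tail ?_
    (D0.and ?_ (D0.and ?_ (D0.and ?_ ?_))))))
  · rintro v f ⟨a, k, c, h, -⟩
    rw [h]; exact fst_le_pr _ _
  · rintro v a ⟨k, c, h, -⟩
    rw [show se (tail v) = _ from h]; exact snd_le_pr _ _
  · rintro v k ⟨c, -, h, -⟩
    rw [show sy (tail (tail v)) = _ from h]; exact fst_le_pr _ _
  · rintro v c ⟨-, h, -⟩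
    rw [show sy (tail (tail (tail v))) = _ from h]; exact snd_le_pr _ _
  · exact D0.eq he.tail.tail.tail.tail ((Tm.var 3).pr (Tm.var 2))
  · exact D0.eq hy.tail.tail.tail.tail ((Tm.var 1).pr (Tm.var 0))
  · exact Cert_D0 (Tm.var 0)
  · exact T_D0 (Tm.var 0) (Tm.var 3) ((Tm.var 1).pr (hz.tail.tail.tail.tail.pr (Tm.var 2))) Tm.one

/-- every `Σ⁰₁` property without set parameters has an index -/
theorem exists_index {R : N.M → Prop} (hR : WS1 (N := N) ∅ (fun v => R (v 0))) :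
    ∃ e, ∀ z, R z ↔ ∃ y, Um e z y := by
  obtain ⟨Q, ⟨φ, hφ⟩, hRQ⟩ := hR
  obtain ⟨a, ha⟩ := exists_rep (N := N) (fb φ) (fun _ => 0)
  refine ⟨pr (fcode φ) a, fun z => ?_⟩
  refine (hRQ (cons z fun _ => 0)).trans ?_
  have hφ' : ∀ k, Q (cons z fun _ => 0) k ↔ φ.Holds (cons k (cons z fun _ => 0)) := fun k =>
    (hφ (cons k (cons z fun _ => 0))).symm
  have key : ∀ k, Q (cons z fun _ => 0) k ↔
      ∃ c, Cert c ∧ T c (fcode φ) (pr k (pr z a)) 1 := fun k => by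
    rw [hφ' k]
    exact holds_iff_cert φ ((Nat.le_succ _).trans (Nat.le_succ _)) (ha.cons.cons)
  constructor
  · rintro ⟨k, hk⟩
    obtain ⟨c, hc, h⟩ := (key k).1 hk
    exact ⟨pr k c, _, _, _, _, rfl, rfl, hc, h⟩
  · rintro ⟨y, f, a', k, c, e1, e2, hc, h⟩
    obtain ⟨rfl, rfl⟩ := pr_inj e1
    exact ⟨k, (key k).2 ⟨c, hc, h⟩⟩

end Pool.Agent.Helper116.Min
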