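import Mathlib
import Pool.Agent.Helper116_Min.Univ

/-!
Binary strings in a model of `RCA₀`, and definition of sets by course-of-values recursion.
-/

namespace Pool.Agent.Helper116.Min

open Pool.Agent.Helper617.RM

universe u

set_option linter.unusedSectionVars false
set_option linter.unusedVariables false

variable {N : L2Structure.{u}} [IsModelRCA0 N]

theorem lt_succ'' (a : N.M) : a < a + 1 := lt_add_one_iff'.2 le_rfl

/-- `s` codes a binary string of length `n` -/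
def Str (s n : N.M) : Prop := IsSq s n ∧ ∀ r, MemC r s → ∃ i, r = pr i 0 ∨ r = pr i 1

theorem Str_D0 {s t : Ctx N → N.M} (hs : Tm s) (ht : Tm t) : D0 (fun v => Str (s v) (t v)) := by
  refine D0.and (IsSq_D0 hs ht) (D0.allB hs ?_ (D0.imp (MemC_D0 (Tm.var 0) hs.tail)
    (D0.exB (Tm.var 0) ?_ (D0.or ?_ ?_))))
  · intro v r h
    push Not at h
    exact h.1.lt.le
  · rintro v i (h | h)
    · rw [h]; exact fst_le_pr _ _
    · rw [h]; exact fst_le_pr _ _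
  · exact D0.eq (Tm.var 1) ((Tm.var 0).pr Tm.zero)
  · exact D0.eq (Tm.var 1) ((Tm.var 0).pr Tm.one)

theorem Str.sq {s n : N.M} (h : Str s n) : Sq s := h.1.sq

theorem Str.unique {s n m : N.M} (h : Str s n) (h' : Str s m) : n = m := h.1.len_unique h'.1

theorem Str.le {s n : N.M} (h : Str s n) : n ≤ s := h.1.len_le

theorem exists_str0 : ∃ s : N.M, Str s 0 := by
  obtain ⟨s, hs⟩ := exists_empty (N := N)
  exact ⟨s, hs, fun r hr => by
    obtain ⟨i, z, hi, _⟩ := hs.mem hr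
    exact absurd hi (not_lt_of_ge (zero_le' _))⟩

theorem str_app {s n : N.M} (hs : Str s n) {z : N.M} (hz : z = 0 ∨ z = 1) :
    ∃ t, Str t (n + 1) ∧ Ini s t ∧ MemC (pr n z) t := by
  obtain ⟨t, h1, h2, h3⟩ := exists_app hs.1 z
  refine ⟨t, ⟨h1, fun r hr => ?_⟩, h2, h3⟩
  obtain ⟨i, y, hi, rfl⟩ := h1.mem hr
  rcases lt_or_eq_of_le (lt_add_one_iff'.1 hi) with hi | rfl
  · obtain ⟨y', hy'⟩ := hs.1.ex hi
    rw [h1.fn hr (h2.mem hy')]
    exact hs.2 _ hy'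
  · rw [h1.fn hr h3]
    rcases hz with rfl | rfl
    · exact ⟨i, Or.inl rfl⟩
    · exact ⟨i, Or.inr rfl⟩

theorem str_of_ini {s t n m : N.M} (h : Ini s t) (hs : IsSq s n) (ht : Str t m) : Str s n :=
  ⟨hs, fun r hr => ht.2 r (h.mem hr)⟩

theorem str_of_ini' {s t m : N.M} (h : Ini s t) (ht : Str t m) : ∃ n, Str s n ∧ n ≤ m := by
  obtain ⟨n, _, hn⟩ := h.1
  exact ⟨n, str_of_ini h hn ht, h.len_le hn ht.1⟩

theorem str_res {t m n : N.M} (ht : Str t m) (hn : n ≤ m) : ∃ s, Str s n ∧ Ini s t := by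
  obtain ⟨s, h1, h2⟩ := exists_res ht.1 hn
  exact ⟨s, str_of_ini h2 h1 ht, h2⟩

theorem Str.bit {s n i : N.M} (h : Str s n) (hi : i < n) : MemC (pr i 0) s ∨ MemC (pr i 1) s := by
  obtain ⟨z, hz⟩ := h.1.ex hi
  obtain ⟨j, e | e⟩ := h.2 _ hz
  · obtain ⟨rfl, rfl⟩ := pr_inj e
    exact Or.inl hz
  · obtain ⟨rfl, rfl⟩ := pr_inj e
    exact Or.inr hz

theorem Str.bit_ne {s n i : N.M} (h : Str s n) (h0 : MemC (pr i 0) s) (h1 : MemC (pr i 1) s) :
    False := one_ne_zero'' (h.1.fn h1 h0)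

/-- `s` is an initial segment of (the characteristic function of) `Y` -/
def Pre (Y : Set N.M) (s : N.M) : Prop :=
  (∃ n, Str s n) ∧ ∀ i, (MemC (pr i 1) s → i ∈ Y) ∧ (MemC (pr i 0) s → i ∉ Y)

theorem Pre_D0' {M : N.M → N.M → Prop} (hM : D0 (fun v => M (v 0) (v 1)))
    {sc st : Ctx N → N.M} (hc : Tm sc) (ht : Tm st) :
    D0 (fun v => Pre {i | M i (sc v)} (st v)) := by
  refine D0.and (D0.exB ht (fun v x h => h.le) (Str_D0 ht.tail (Tm.var 0)))
    (D0.allB ht ?_ (D0.and (D0.imp ?_ ?_) (D0.imp ?_ (D0.not ?_))))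
  · intro v i h
    rw [not_and_or] at h
    rcases h with h | h
    · rw [not_forall] at h
      obtain ⟨h1, _⟩ := h
      exact h1.fst_lt.le
    · rw [not_forall] at h
      obtain ⟨h1, _⟩ := h
      exact h1.fst_lt.le
  · exact MemC_D0 ((Tm.var 0).pr Tm.one) ht.tail
  · exact hM.rel (Tm.var 0) hc.tail
  · exact MemC_D0 ((Tm.var 0).pr Tm.zero) ht.tail
  · exact hM.rel (Tm.var 0) hc.tail

theorem Pre_D0 {Y : Set N.M} (hY : Y ∈ N.Sets) {st : Ctx N → N.M} (ht : Tm st) :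
    D0 (fun v => Pre Y (st v)) :=
  Pre_D0' (M := fun i _ => i ∈ Y) (D0.mem (Tm.var 0) hY) Tm.zero ht

theorem Pre.ini {Y : Set N.M} {s t : N.M} (h : Pre Y t) (hi : Ini s t) : Pre Y s := by
  obtain ⟨⟨m, hm⟩, h⟩ := h
  obtain ⟨n, hn, -⟩ := str_of_ini' hi hm
  exact ⟨⟨n, hn⟩, fun i => ⟨fun hh => (h i).1 (hi.mem hh), fun hh => (h i).2 (hi.mem hh)⟩⟩

theorem Pre.bit {Y : Set N.M} {s n i : N.M} (h : Pre Y s) (hs : Str s n) (hi : i < n) :
    (i ∈ Y → MemC (pr i 1) s) ∧ (i ∉ Y → MemC (pr i 0) s) := by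
  rcases hs.bit hi with hb | hb
  · exact ⟨fun hY => absurd hY ((h.2 i).2 hb), fun _ => hb⟩
  · exact ⟨fun _ => hb, fun hY => absurd ((h.2 i).1 hb) hY⟩

theorem Pre.comp {Y : Set N.M} {s t n m : N.M} (h : Pre Y s) (h' : Pre Y t) (hs : Str s n)
    (ht : Str t m) (hnm : n ≤ m) : Ini s t := by
  refine ini_of hs.sq ht.sq fun r hr => ?_
  obtain ⟨i, z, hi, e⟩ := hs.1.mem hr
  have hb := h'.bit ht (lt_of_lt_of_le hi hnm)
  obtain ⟨j, e' | e'⟩ := hs.2 r hr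
  · rw [e'] at hr e ⊢
    obtain ⟨rfl, -⟩ := pr_inj e
    exact hb.2 ((h.2 _).2 hr)
  · rw [e'] at hr e ⊢
    obtain ⟨rfl, -⟩ := pr_inj e
    exact hb.1 ((h.2 _).1 hr)

theorem Pre.conflict {Y : Set N.M} {s t i : N.M} (h : Pre Y s) (h' : Pre Y t)
    (h0 : MemC (pr i 0) s) (h1 : MemC (pr i 1) t) : False := (h.2 i).2 h0 ((h'.2 i).1 h1)

theorem pre0 {Y : Set N.M} {s : N.M} (hs : Str s 0) : Pre Y s :=
  ⟨⟨0, hs⟩, fun i => ⟨fun h => absurd (hs.1.lt h) (not_lt_of_ge (zero_le' _)),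
    fun h => absurd (hs.1.lt h) (not_lt_of_ge (zero_le' _))⟩⟩

theorem pre_app {Y : Set N.M} {s t n : N.M} (hs : Pre Y s) (h1 : Str s n) (h2 : Str t (n + 1))
    (h3 : Ini s t) (h : (n ∈ Y ∧ MemC (pr n 1) t) ∨ (n ∉ Y ∧ MemC (pr n 0) t)) : Pre Y t := by
  refine ⟨⟨_, h2⟩, fun i => ?_⟩
  constructor
  · intro hi
    rcases lt_or_eq_of_le (lt_add_one_iff'.1 (h2.1.lt hi)) with hlt | rfl
    · rcases h1.bit hlt with hb | hb
      · exact (h2.bit_ne (h3.mem hb) hi).elim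
      · exact (hs.2 i).1 hb
    · rcases h with h | h
      · exact h.1
      · exact (h2.bit_ne h.2 hi).elim
  · intro hi
    rcases lt_or_eq_of_le (lt_add_one_iff'.1 (h2.1.lt hi)) with hlt | rfl
    · rcases h1.bit hlt with hb | hb
      · exact (hs.2 i).2 hb
      · exact (h2.bit_ne hi (h3.mem hb)).elim
    · rcases h with h | h
      · exact (h2.bit_ne hi h.2).elim
      · exact h.1

theorem exists_pre {Y : Set N.M} (hY : Y ∈ N.Sets) (n : N.M) : ∃ s, Str s n ∧ Pre Y s := by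
  refine ind_S1 (P := fun n => ∃ s, Str s n ∧ Pre Y s) ?_ ?_ ?_ n
  · exact S1.ex (D0.S1 (D0.and (Str_D0 (Tm.var 0) (Tm.var 1)) (Pre_D0 hY (Tm.var 0))))
  · obtain ⟨s, hs⟩ := exists_str0 (N := N)
    exact ⟨s, hs, pre0 hs⟩
  · rintro n ⟨s, hs, hp⟩
    by_cases h : n ∈ Y
    · obtain ⟨t, h1, h2, h3⟩ := str_app hs (z := 1) (Or.inr rfl)
      exact ⟨t, h1, pre_app hp hs h1 h2 (Or.inl ⟨h, h3⟩)⟩
    · obtain ⟨t, h1, h2, h3⟩ := str_app hs (z := 0) (Or.inl rfl)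
      exact ⟨t, h1, pre_app hp hs h1 h2 (Or.inr ⟨h, h3⟩)⟩

theorem pr_mono {x y x' y' : N.M} (hx : x ≤ x') (hy : y ≤ y') : pr x y ≤ pr x' y' := by
  unfold pr
  gcongr

/-- `a` is a bound for the codes of all strings of length at most `n` -/
def CB (n a : N.M) : Prop :=
  ∃ m, m ≤ a ∧ ∃ B, B ≤ a ∧ (a = pr (pr n 1 + 1) (pr m B) + 1 ∧ (0 < B ∧
    ((0 < m ∧ ∀ i, i < pr n 1 + 1 → (i + 1) ∣ m) ∧ ∀ i, i < pr n 1 + 1 → el m i ∣ B)))

theorem CB_D0 {s t : Ctx N → N.M} (hs : Tm s) (ht : Tm t) : D0 (fun v => CB (s v) (t v)) := by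
  refine D0.bexLe ht (D0.bexLe ht.tail (D0.and ?_ (D0.and ?_ (D0.and (D0.and ?_
    (D0.ball ?_ ?_)) (D0.ball ?_ ?_)))))
  · exact D0.eq ht.tail.tail ((((hs.tail.tail.pr Tm.one).add Tm.one).pr
      ((Tm.var 1).pr (Tm.var 0))).add Tm.one)
  · exact D0.lt Tm.zero (Tm.var 0)
  · exact D0.lt Tm.zero (Tm.var 1)
  · exact (hs.tail.tail.pr Tm.one).add Tm.one
  · exact D0.dvd ((Tm.var 0).add Tm.one) (Tm.var 2)
  · exact (hs.tail.tail.pr Tm.one).add Tm.one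
  · exact D0.dvd (Tm.el (Tm.var 2) (Tm.var 0)) (Tm.var 1)

theorem exists_CB (n : N.M) : ∃ a, CB n a := by
  obtain ⟨m, hm⟩ := exists_base (pr n 1 + 1)
  obtain ⟨B, hB, hB2⟩ := exists_top (pr n 1 + 1) m
  refine ⟨pr (pr n 1 + 1) (pr m B) + 1, m, ?_, B, ?_, rfl, hB, hm, hB2⟩
  · exact ((fst_le_pr _ _).trans (snd_le_pr _ _)).trans (lt_succ'' _).le
  · exact ((snd_le_pr _ _).trans (snd_le_pr _ _)).trans (lt_succ'' _).le

theorem CB.bound {n a : N.M} (h : CB n a) {s k : N.M} (hk : k ≤ n) (hs : Str s k) : s < a := by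
  obtain ⟨m, _, B, _, rfl, hB, hm, hB2⟩ := h
  refine lt_add_one_iff'.2 ?_
  have hlt : ∀ r, MemC r s → r < pr n 1 + 1 := by
    intro r hr
    obtain ⟨i, z, hi, e⟩ := hs.1.mem hr
    obtain ⟨j, e' | e'⟩ := hs.2 r hr
    · rw [e'] at e ⊢
      obtain ⟨rfl, -⟩ := pr_inj e
      exact lt_add_one_iff'.2 (pr_mono (hi.le.trans hk) (zero_le' _))
    · rw [e'] at e ⊢
      obtain ⟨rfl, -⟩ := pr_inj e
      exact lt_add_one_iff'.2 (pr_mono (hi.le.trans hk) le_rfl)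
  obtain ⟨c, hcB, hc, hc1, _⟩ := exists_code (P := fun i => MemC i s)
    (MemC_D0 (Tm.var 0) (Tm.const s)).S1 hm hB hB2
  refine le_trans ?_ (pr_mono (le_refl _) (pr_mono (le_refl m) hcB))
  by_contra hcon
  push Not at hcon
  obtain ⟨i, hi, hne⟩ := hs.1.1.2 _ hcon (Shape_pr _ _ _)
  apply hne
  rw [MemC_pr]
  exact ⟨fun h => ⟨hlt i h, (hc1 i (hlt i h)).2 h⟩, fun h => (hc1 i h.1).1 h.2⟩

/-- all strings of bounded length have codes below some number -/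
theorem code_bound (n : N.M) : ∃ a, ∀ s k, k ≤ n → Str s k → s < a := by
  obtain ⟨a, ha⟩ := exists_CB n
  exact ⟨a, fun s k hk hs => ha.bound hk hs⟩

/-- greatest element below a bound -/
theorem exists_greatest {P : N.M → Prop} (hP : D0 (fun v => P (v 0))) (s : N.M)
    (h : ∃ t, t < s ∧ P t) : ∃ t, t < s ∧ P t ∧ ∀ t', t < t' → t' < s → ¬ P t' := by
  refine ind_D0 (P := fun s => (∃ t, t < s ∧ P t) →
    ∃ t, t < s ∧ (P t ∧ ∀ t', t' < s → t < t' → ¬ P t')) ?_ ?_ ?_ s h |>.imp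
    fun t ⟨h1, h2, h3⟩ => ⟨h1, h2, fun t' a b => h3 t' b a⟩
  · refine D0.imp (D0.bex (Tm.var 0) (hP.pred (Tm.var 0))) (D0.bex (Tm.var 0)
      (D0.and (hP.pred (Tm.var 0)) (D0.ball (Tm.var 1) (D0.imp (D0.lt (Tm.var 1) (Tm.var 0))
        (hP.pred (Tm.var 0)).not))))
  · rintro ⟨t, ht, _⟩
    exact absurd ht (not_lt_of_ge (zero_le' _))
  · intro s ih hs
    by_cases hPs : P s
    · exact ⟨s, lt_succ'' s, hPs, fun t' h1 h2 => absurd h2 (not_lt_of_ge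
        (lt_add_one_iff'.1 h1))⟩
    · obtain ⟨t, ht, hPt⟩ := hs
      have ht' : t < s := by
        rcases lt_or_eq_of_le (lt_add_one_iff'.1 ht) with h | rfl
        · exact h
        · exact absurd hPt hPs
      obtain ⟨t, h1, h2, h3⟩ := ih ⟨t, ht', hPt⟩
      refine ⟨t, h1.trans (lt_succ'' s), h2, fun t' h4 h5 => ?_⟩
      rcases lt_or_eq_of_le (lt_add_one_iff'.1 h4) with h | rfl
      · exact h3 t' h h5
      · exact hPs

/-- definition of a set by course-of-values recursion -/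
theorem exists_cvr {Φ : Set N.M → N.M → Prop}
    (hloc : ∀ E E' t, (∀ i, i < t → (i ∈ E ↔ i ∈ E')) → (Φ E t ↔ Φ E' t))
    (hD : D0 (fun v => Φ {i | MemC i (v 0)} (v 1))) :
    ∃ E ∈ N.Sets, ∀ t, t ∈ E ↔ Φ E t := by
  let G : N.M → N.M → Prop := fun c n => ∀ i, i < n → (MemC i c ↔ Φ {i | MemC i c} i)
  have hG : D0 (fun v => G (v 0) (v 1)) :=
    D0.ball (Tm.var 1) (D0.iff (MemC_D0 (Tm.var 0) (Tm.var 1))
      (D0.rel (R := fun c t => Φ {i | MemC i c} t) hD (Tm.var 1) (Tm.var 0)))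
  have hex : ∀ n, ∃ c, G c n := by
    refine ind_S1 (P := fun n => ∃ c, G c n) ?_ ?_ ?_
    · exact S1.ex (hG.rel (Tm.var 0) (Tm.var 1)).S1
    · exact ⟨0, fun i hi => absurd hi (not_lt_of_ge (zero_le' _))⟩
    · rintro n ⟨c, hc⟩
      obtain ⟨c', -, hc'⟩ := exists_isC (N := N)
        (P := fun r => (r < n ∧ MemC r c) ∨ (r = n ∧ Φ {i | MemC i c} n))
        (D0.or (D0.and (D0.lt (Tm.var 0) (Tm.const n)) (MemC_D0 (Tm.var 0) (Tm.const c)))
          (D0.and (D0.eq (Tm.var 0) (Tm.const n)) (D0.const _))) (b := n + 1) (fun r hr => by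
            rcases hr with hr | hr
            · exact hr.1.trans (lt_succ'' n)
            · rw [hr.1]; exact lt_succ'' n)
      have hag : ∀ i, i < n → (MemC i c' ↔ MemC i c) := by
        intro i hi
        rw [hc']
        exact ⟨fun h => h.elim (fun h => h.2) (fun h => absurd h.1 hi.ne), fun h => Or.inl ⟨hi, h⟩⟩
      refine ⟨c', fun i hi => ?_⟩
      rcases lt_or_eq_of_le (lt_add_one_iff'.1 hi) with hi | rfl
      · rw [hag i hi, hc i hi]
        exact hloc _ _ _ fun j hj => (hag j (hj.trans hi)).symm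
      · rw [hc' i]
        constructor
        · rintro (h | h)
          · exact absurd h.1 (lt_irrefl _)
          · exact (hloc _ _ _ fun j hj => (hag j hj)).2 h.2
        · intro h
          exact Or.inr ⟨rfl, (hloc _ _ _ fun j hj => (hag j hj)).1 h⟩
  have hun : ∀ c c' n n', G c n → G c' n' → ∀ i, i < n → i < n' → (MemC i c ↔ MemC i c') := by
    intro c c' n n' h h'
    have key : ∀ i, ∀ j, j < i → j < n → j < n' → (MemC j c ↔ MemC j c') := by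
      refine ind_D0 (P := fun i => ∀ j, j < i → j < n → j < n' → (MemC j c ↔ MemC j c')) ?_ ?_ ?_
      · exact D0.ball (Tm.var 0) (D0.imp (D0.lt (Tm.var 0) (Tm.const n)) (D0.imp
          (D0.lt (Tm.var 0) (Tm.const n')) (D0.iff (MemC_D0 (Tm.var 0) (Tm.const c))
            (MemC_D0 (Tm.var 0) (Tm.const c')))))
      · exact fun j hj => absurd hj (not_lt_of_ge (zero_le' _))
      · intro i ih j hj hn hn'
        rcases lt_or_eq_of_le (lt_add_one_iff'.1 hj) with hj | rfl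
        · exact ih j hj hn hn'
        · rw [h j hn, h' j hn']
          exact hloc _ _ _ fun k hk => ih k hk (hk.trans hn) (hk.trans hn')
    intro i hi hi'
    exact key (i + 1) i (lt_succ'' i) hi hi'
  refine ⟨{t | ∃ c, G c (t + 1) ∧ MemC t c}, ?_, fun t => ?_⟩
  · refine comp_D1 (P := fun t => ∃ c, G c (t + 1) ∧ MemC t c) ?_ ?_
    · exact S1.ex (D0.S1 (D0.and (hG.rel (Tm.var 0) ((Tm.var 1).add Tm.one))
        (MemC_D0 (Tm.var 1) (Tm.var 0))))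
    · refine S1.congr (R := fun v => ∃ c, G c (v 0 + 1) ∧ ¬ MemC (v 0) c) ?_ fun v => ?_
      · exact S1.ex (D0.S1 (D0.and (hG.rel (Tm.var 0) ((Tm.var 1).add Tm.one))
          (MemC_D0 (Tm.var 1) (Tm.var 0)).not))
      · constructor
        · rintro ⟨c, h1, h2⟩ ⟨c', h1', h2'⟩
          exact h2 ((hun c c' _ _ h1 h1' _ (lt_succ'' _) (lt_succ'' _)).2 h2')
        · intro h
          obtain ⟨c, hc⟩ := hex (v 0 + 1)
          exact ⟨c, hc, fun h' => h ⟨c, hc, h'⟩⟩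
  · obtain ⟨c, hc⟩ := hex (t + 1)
    have h1 : ∀ i, i < t + 1 → (i ∈ {t | ∃ c, G c (t + 1) ∧ MemC t c} ↔ MemC i c) := by
      intro i hi
      constructor
      · rintro ⟨c', h1', h2'⟩
        exact (hun c c' _ _ hc h1' _ hi (lt_succ'' _)).2 h2'
      · intro h
        refine ⟨c, fun j hj => hc j ?_, h⟩
        exact lt_of_le_of_lt (lt_add_one_iff'.1 hj) hi
    rw [h1 t (lt_succ'' t), hc t (lt_succ'' t)]
    exact hloc _ _ _ fun i hi => (h1 i (hi.trans (lt_succ'' t))).symm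

end Pool.Agent.Helper116.Min
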