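import Mathlib
import Pool.Agent.Helper116_Min.Str

/-!
The construction: a computable sequence of instructions `ν → α | β`, and the class of all sets
which obey them. For every c.e. relation on pairs of strings and every sufficiently long final
node, either the two final successors of the node belong to the relation, or no two final nodes
above them do.
-/

namespace Pool.Agent.Helper116.Min

open Pool.Agent.Helper617.RM

universe u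

set_option linter.unusedSectionVars false
set_option linter.unusedVariables false

variable {N : L2Structure.{u}} [IsModelRCA0 N]

/-- codes of instructions -/
def q (e ν α β y : N.M) : N.M := pr e (pr ν (pr α (pr β y)))

theorem q_inj {e ν α β y e' ν' α' β' y' : N.M} (h : q e ν α β y = q e' ν' α' β' y') :
    e = e' ∧ ν = ν' ∧ α = α' ∧ β = β' ∧ y = y' := by
  obtain ⟨h1, h⟩ := pr_inj h
  obtain ⟨h2, h⟩ := pr_inj h
  obtain ⟨h3, h⟩ := pr_inj h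
  obtain ⟨h4, h⟩ := pr_inj h
  exact ⟨h1, h2, h3, h4, h⟩

theorem q_le {e ν α β y : N.M} : e ≤ q e ν α β y ∧ ν ≤ q e ν α β y ∧ α ≤ q e ν α β y ∧
    β ≤ q e ν α β y ∧ y ≤ q e ν α β y :=
  ⟨fst_le_pr _ _, (fst_le_pr _ _).trans (snd_le_pr _ _),
    (fst_le_pr _ _).trans ((snd_le_pr _ _).trans (snd_le_pr _ _)),
    (fst_le_pr _ _).trans ((snd_le_pr _ _).trans ((snd_le_pr _ _).trans (snd_le_pr _ _))),
    (snd_le_pr _ _).trans ((snd_le_pr _ _).trans ((snd_le_pr _ _).trans (snd_le_pr _ _)))⟩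

theorem Tm.q {s1 s2 s3 s4 s5 : Ctx N → N.M} (h1 : Tm s1) (h2 : Tm s2) (h3 : Tm s3) (h4 : Tm s4)
    (h5 : Tm s5) : Tm (fun v => q (s1 v) (s2 v) (s3 v) (s4 v) (s5 v)) :=
  h1.pr (h2.pr (h3.pr (h4.pr h5)))

/-- the instruction `ν → α | β` has been given at stage `t`, for the index `e` -/
def Ins (E : Set N.M) (t e ν α β : N.M) : Prop := t ∈ E ∧ ∃ y, y ≤ t ∧ t = q e ν α β y

theorem Ins.le {E : Set N.M} {t e ν α β : N.M} (h : Ins E t e ν α β) :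
    e ≤ t ∧ ν ≤ t ∧ α ≤ t ∧ β ≤ t := by
  obtain ⟨_, y, _, e⟩ := h
  rw [e]
  exact ⟨q_le.1, q_le.2.1, q_le.2.2.1, q_le.2.2.2.1⟩

theorem Ins.inj {E : Set N.M} {t e ν α β e' ν' α' β' : N.M} (h : Ins E t e ν α β)
    (h' : Ins E t e' ν' α' β') : e = e' ∧ ν = ν' ∧ α = α' ∧ β = β' := by
  obtain ⟨_, y, _, h⟩ := h
  obtain ⟨_, y', _, h'⟩ := h'
  rw [h] at h'
  obtain ⟨h1, h2, h3, h4, _⟩ := q_inj h'
  exact ⟨h1, h2, h3, h4⟩

/-- `δ` is a node at stage `s` -/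
def Node (E : Set N.M) (s δ : N.M) : Prop :=
  ∀ t, t < s → ∀ e, e ≤ t → ∀ ν, ν ≤ t → ∀ α, α ≤ t → ∀ β, β ≤ t → Ins E t e ν α β →
    Ini ν δ → ν ≠ δ → (Ini α δ ∨ Ini β δ)

theorem Node.use {E : Set N.M} {s δ t e ν α β : N.M} (h : Node E s δ) (ht : t < s)
    (hi : Ins E t e ν α β) (h1 : Ini ν δ) (h2 : ν ≠ δ) : Ini α δ ∨ Ini β δ := by
  obtain ⟨a, b, c, d⟩ := hi.le
  exact h t ht e a ν b α c β d hi h1 h2

theorem Node.mono {E : Set N.M} {s s' δ : N.M} (h : Node E s δ) (hs : s' ≤ s) : Node E s' δ :=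
  fun t ht => h t (lt_of_lt_of_le ht hs)

/-- `α` is a string above `ν ⌢ z` -/
def Side (z n ν α : N.M) : Prop := (∃ m, m ≤ α ∧ Str α m) ∧ Ini ν α ∧ MemC (pr n z) α

theorem Side.ini {z n ν α α' m : N.M} (h : Side z n ν α) (hi : Ini α α') (hm : Str α' m) :
    Side z n ν α' := ⟨⟨m, hm.le, hm⟩, h.2.1.trans hi, hi.mem h.2.2⟩

/-- the instruction coded by `t` is given at stage `t` -/
def Act (E : Set N.M) (t : N.M) : Prop :=
  ∃ e, e ≤ t ∧ ∃ ν, ν ≤ t ∧ ∃ α, α ≤ t ∧ ∃ β, β ≤ t ∧ ∃ y, y ≤ t ∧ ∃ n, n ≤ t ∧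
    (t = q e ν α β y ∧ (Str ν n ∧ e ≤ n) ∧ (Side 0 n ν α ∧ Side 1 n ν β) ∧
    (Node E t ν ∧ Node E t α ∧ Node E t β) ∧
    (∀ t', t' < t → ∀ e', e' ≤ t' → ∀ α', α' ≤ t' → ∀ β', β' ≤ t' → Ins E t' e' ν α' β' →
      (e' ≠ e ∧ Ini α' α ∧ Ini β' β)) ∧ Um e (pr α β) y)

section D0

variable {M : N.M → N.M → Prop} (hM : D0 (fun v => M (v 0) (v 1)))
include hM

theorem Ins_D0 {sc s1 s2 s3 s4 s5 : Ctx N → N.M} (hc : Tm sc) (h1 : Tm s1) (h2 : Tm s2)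
    (h3 : Tm s3) (h4 : Tm s4) (h5 : Tm s5) :
    D0 (fun v => Ins {i | M i (sc v)} (s1 v) (s2 v) (s3 v) (s4 v) (s5 v)) :=
  D0.and (hM.rel h1 hc) (D0.bexLe h1 (D0.eq h1.tail (Tm.q h2.tail h3.tail h4.tail h5.tail
    (Tm.var 0))))

theorem Node_D0' {sc s1 s2 : Ctx N → N.M} (hc : Tm sc) (h1 : Tm s1) (h2 : Tm s2) :
    D0 (fun v => Node {i | M i (sc v)} (s1 v) (s2 v)) := by
  refine D0.ball h1 (D0.ballLe (Tm.var 0) (D0.ballLe (Tm.var 1) (D0.ballLe (Tm.var 2)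
    (D0.ballLe (Tm.var 3) (D0.imp ?_ (D0.imp ?_ (D0.imp ?_ (D0.or ?_ ?_))))))))
  · exact Ins_D0 hM hc.tail.tail.tail.tail.tail (Tm.var 4) (Tm.var 3) (Tm.var 2) (Tm.var 1)
      (Tm.var 0)
  · exact Ini_D0 (Tm.var 2) h2.tail.tail.tail.tail.tail
  · exact (D0.eq (Tm.var 2) h2.tail.tail.tail.tail.tail).not
  · exact Ini_D0 (Tm.var 1) h2.tail.tail.tail.tail.tail
  · exact Ini_D0 (Tm.var 0) h2.tail.tail.tail.tail.tail

theorem Side_D0 {s1 s2 s3 s4 : Ctx N → N.M} (h1 : Tm s1) (h2 : Tm s2) (h3 : Tm s3) (h4 : Tm s4) :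
    D0 (fun v => Side (s1 v) (s2 v) (s3 v) (s4 v)) :=
  D0.and (D0.bexLe h4 (Str_D0 h4.tail (Tm.var 0))) (D0.and (Ini_D0 h3 h4)
    (MemC_D0 (h2.pr h1) h4))

theorem Act_D0' {sc s1 : Ctx N → N.M} (hc : Tm sc) (h1 : Tm s1) :
    D0 (fun v => Act {i | M i (sc v)} (s1 v)) := by
  refine D0.bexLe h1 (D0.bexLe h1.tail (D0.bexLe h1.tail.tail (D0.bexLe h1.tail.tail.tail
    (D0.bexLe h1.tail.tail.tail.tail (D0.bexLe h1.tail.tail.tail.tail.tail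
      (D0.and ?_ (D0.and (D0.and ?_ ?_) (D0.and (D0.and ?_ ?_) (D0.and (D0.and ?_ (D0.and ?_ ?_))
        (D0.and ?_ ?_))))))))))
  · exact D0.eq h1.tail.tail.tail.tail.tail.tail
      (Tm.q (Tm.var 5) (Tm.var 4) (Tm.var 3) (Tm.var 2) (Tm.var 1))
  · exact Str_D0 (Tm.var 4) (Tm.var 0)
  · exact D0.le (Tm.var 5) (Tm.var 0)
  · exact Side_D0 hM Tm.zero (Tm.var 0) (Tm.var 4) (Tm.var 3)
  · exact Side_D0 hM Tm.one (Tm.var 0) (Tm.var 4) (Tm.var 2)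
  · exact Node_D0' hM hc.tail.tail.tail.tail.tail.tail h1.tail.tail.tail.tail.tail.tail (Tm.var 4)
  · exact Node_D0' hM hc.tail.tail.tail.tail.tail.tail h1.tail.tail.tail.tail.tail.tail (Tm.var 3)
  · exact Node_D0' hM hc.tail.tail.tail.tail.tail.tail h1.tail.tail.tail.tail.tail.tail (Tm.var 2)
  · refine D0.ball h1.tail.tail.tail.tail.tail.tail (D0.ballLe (Tm.var 0) (D0.ballLe (Tm.var 1)
      (D0.ballLe (Tm.var 2) (D0.imp ?_ (D0.and ?_ (D0.and ?_ ?_))))))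
    · exact Ins_D0 hM hc.tail.tail.tail.tail.tail.tail.tail.tail.tail.tail (Tm.var 3) (Tm.var 2)
        (Tm.var 8) (Tm.var 1) (Tm.var 0)
    · exact (D0.eq (Tm.var 2) (Tm.var 9)).not
    · exact Ini_D0 (Tm.var 1) (Tm.var 7)
    · exact Ini_D0 (Tm.var 0) (Tm.var 6)
  · exact Um_D0 (Tm.var 5) ((Tm.var 3).pr (Tm.var 2)) (Tm.var 1)

end D0

theorem Ins.congr {E E' : Set N.M} {s t e ν α β : N.M} (h : ∀ i, i < s → (i ∈ E ↔ i ∈ E'))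
    (ht : t < s) : Ins E t e ν α β ↔ Ins E' t e ν α β :=
  and_congr (h t ht) Iff.rfl

theorem Node.congr {E E' : Set N.M} {s δ : N.M} (h : ∀ i, i < s → (i ∈ E ↔ i ∈ E')) :
    Node E s δ ↔ Node E' s δ := by
  constructor
  · intro hn t ht e he ν hν α hα β hβ hi
    exact hn t ht e he ν hν α hα β hβ ((Ins.congr h ht).2 hi)
  · intro hn t ht e he ν hν α hα β hβ hi
    exact hn t ht e he ν hν α hα β hβ ((Ins.congr h ht).1 hi)

theorem Act.loc (E E' : Set N.M) (t : N.M) (h : ∀ i, i < t → (i ∈ E ↔ i ∈ E')) :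
    Act E t ↔ Act E' t := by
  have key : ∀ {E E' : Set N.M}, (∀ i, i < t → (i ∈ E ↔ i ∈ E')) → Act E t → Act E' t := by
    rintro E E' h ⟨e, he, ν, hν, α, hα, β, hβ, y, hy, n, hn, h1, h2, h3, ⟨h4, h5, h6⟩, h7, h8⟩
    refine ⟨e, he, ν, hν, α, hα, β, hβ, y, hy, n, hn, h1, h2, h3,
      ⟨(Node.congr h).1 h4, (Node.congr h).1 h5, (Node.congr h).1 h6⟩, ?_, h8⟩
    intro t' ht' e' he' α' hα' β' hβ' hi
    exact h7 t' ht' e' he' α' hα' β' hβ' ((Ins.congr h ht').2 hi)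
  exact ⟨key h, key fun i hi => (h i hi).symm⟩

/-- `E` is the set of all instructions given -/
def IsE (E : Set N.M) : Prop := ∀ t, t ∈ E ↔ Act E t

theorem exists_E : ∃ E ∈ N.Sets, IsE E :=
  exists_cvr (Φ := Act) Act.loc
    (Act_D0' (M := fun i c => MemC i c) (MemC_D0 (Tm.var 0) (Tm.var 1)) (Tm.var 0) (Tm.var 1))

theorem Node_D0 {E : Set N.M} (hE : E ∈ N.Sets) {s1 s2 : Ctx N → N.M} (h1 : Tm s1)
    (h2 : Tm s2) : D0 (fun v => Node E (s1 v) (s2 v)) :=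
  Node_D0' (M := fun i _ => i ∈ E) (D0.mem (Tm.var 0) hE) Tm.zero h1 h2

theorem Ins_D0'' {E : Set N.M} (hE : E ∈ N.Sets) {s1 s2 s3 s4 s5 : Ctx N → N.M} (h1 : Tm s1)
    (h2 : Tm s2) (h3 : Tm s3) (h4 : Tm s4) (h5 : Tm s5) :
    D0 (fun v => Ins E (s1 v) (s2 v) (s3 v) (s4 v) (s5 v)) :=
  Ins_D0 (M := fun i _ => i ∈ E) (D0.mem (Tm.var 0) hE) Tm.zero h1 h2 h3 h4 h5

/-- what is known when an instruction is given -/
theorem IsE.act {E : Set N.M} (hE : IsE E) {t e ν α β : N.M} (h : Ins E t e ν α β) :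
    ∃ n y, (Str ν n ∧ e ≤ n) ∧ (Side 0 n ν α ∧ Side 1 n ν β) ∧
    (Node E t ν ∧ Node E t α ∧ Node E t β) ∧
    (∀ t' e' α' β', t' < t → Ins E t' e' ν α' β' → (e' ≠ e ∧ Ini α' α ∧ Ini β' β)) ∧
    Um e (pr α β) y := by
  obtain ⟨e', -, ν', -, α', -, β', -, y', -, n, -, h1, h2, h3, h4, h5, h6⟩ := (hE t).1 h.1
  obtain ⟨_, y, _, h7⟩ := h
  rw [h7] at h1
  obtain ⟨rfl, rfl, rfl, rfl, rfl⟩ := q_inj h1
  refine ⟨n, _, h2, h3, h4, fun t' e' α' β' ht' hi => ?_, h6⟩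
  obtain ⟨a, b, c, d⟩ := hi.le
  exact h5 t' ht' e' a α' c β' d hi

/-- at most one instruction for each index at each node -/
theorem IsE.unique {E : Set N.M} (hE : IsE E) {t t' e ν α β α' β' : N.M}
    (h : Ins E t e ν α β) (h' : Ins E t' e ν α' β') : t = t' := by
  rcases lt_trichotomy t t' with hlt | heq | hlt
  · obtain ⟨n, y, -, -, -, h1, -⟩ := hE.act h'
    exact absurd rfl (h1 t e α β hlt h).1
  · exact heq
  · obtain ⟨n, y, -, -, -, h1, -⟩ := hE.act h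
    exact absurd rfl (h1 t' e α' β' hlt h').1

theorem ini_antisymm {s t n m : N.M} (h : Ini s t) (h' : Ini t s) (hs : Str s n)
    (ht : Str t m) : s = t := by
  have : n = m := le_antisymm (h.len_le hs.1 ht.1) (h'.len_le ht.1 hs.1)
  subst this
  exact h.eq hs.1 ht.1

theorem Ini.lt_len {s t n m : N.M} (h : Ini s t) (hne : s ≠ t) (hs : Str s n) (ht : Str t m) :
    n < m := by
  refine lt_of_le_of_ne (h.len_le hs.1 ht.1) fun e => hne ?_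
  subst e
  exact h.eq hs.1 ht.1

/-- a string which extends both sides does not exist -/
theorem side_conflict {n ν ν' α β δ m : N.M} (h0 : Side 0 n ν α) (h1 : Side 1 n ν' β)
    (ha : Ini α δ) (hb : Ini β δ) (hδ : Str δ m) : False :=
  hδ.bit_ne (ha.mem h0.2.2) (hb.mem h1.2.2)

/-- the criterion for being a node above a node -/
theorem node_side {E : Set N.M} (hE : IsE E) {s ν n γ m : N.M} (hν : Str ν n)
    (hN : Node E s ν) (hγ : Ini ν γ) (hγm : Str γ m)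
    (h1 : ∀ t e α β, t < s → Ins E t e ν α β → Ini α γ ∨ Ini β γ)
    (h2 : m = n + 1 ∨ ∃ t0, t0 < s ∧ Node E t0 γ ∧ ∃ e α β, Ins E t0 e ν α β ∧
      ∀ ν', Ini ν' γ → ν' ≠ γ → ¬ (Ini α ν' ∨ Ini β ν')) : Node E s γ := by
  intro t' ht' e' _ ν' _ α' _ β' _ hi hini hne
  obtain ⟨k', y', ⟨hk', -⟩, -, hnodes, -, -⟩ := hE.act hi
  rcases le_or_gt k' n with hle | hgt
  · have hνν : Ini ν' ν := hini.comp hγ hk'.1 hν.1 hle
    by_cases heq : ν' = ν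
    · subst heq
      exact h1 t' e' α' β' ht' hi
    · rcases hN.use ht' hi hνν heq with h | h
      · exact Or.inl (h.trans hγ)
      · exact Or.inr (h.trans hγ)
  · have hνν : Ini ν ν' := hγ.comp hini hν.1 hk'.1 hgt.le
    have hne' : ν ≠ ν' := fun e => by
      subst e
      exact absurd (hk'.unique hν) hgt.ne'
    rcases h2 with h2 | ⟨t0, ht0, hN0, e0, α0, β0, hi0, h3⟩
    · subst h2
      have h4 := Ini.lt_len hini hne hk' hγm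
      exact absurd hgt (not_lt_of_ge (lt_add_one_iff'.1 h4))
    · rcases lt_trichotomy t' t0 with hlt | heq | hlt
      · exact hN0.use hlt hi hini hne
      · subst heq
        exact absurd (hi0.inj hi).2.1 hne'
      · exact absurd (hnodes.1.use hlt hi0 hνν hne') (h3 ν' hini hne)

/-- `α` and `β` are the successors of `ν` at stage `s` -/
def Cur (E : Set N.M) (s n ν α β : N.M) : Prop :=
  (Side 0 n ν α ∧ Side 1 n ν β) ∧
    (∀ t e α' β', t < s → Ins E t e ν α' β' → Ini α' α ∧ Ini β' β) ∧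
    ((∃ t e, t < s ∧ Ins E t e ν α β) ∨ (Str α (n + 1) ∧ Str β (n + 1)))

theorem exists_cur {E : Set N.M} (hEN : E ∈ N.Sets) (hE : IsE E) (s : N.M) {n ν : N.M}
    (hν : Str ν n) : ∃ α β, Cur E s n ν α β := by
  by_cases h : ∃ t, t < s ∧ ∃ e, e ≤ t ∧ ∃ α, α ≤ t ∧ ∃ β, β ≤ t ∧ Ins E t e ν α β
  · obtain ⟨t, ht, ⟨e, -, α, -, β, -, hi⟩, hmax⟩ := exists_greatest
      (P := fun t => ∃ e, e ≤ t ∧ ∃ α, α ≤ t ∧ ∃ β, β ≤ t ∧ Ins E t e ν α β)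
      (D0.bexLe (Tm.var 0) (D0.bexLe (Tm.var 1) (D0.bexLe (Tm.var 2)
        (Ins_D0'' hEN (Tm.var 3) (Tm.var 2) (Tm.const ν) (Tm.var 1) (Tm.var 0))))) s h
    obtain ⟨n', y, ⟨h1, -⟩, h2, h3, h4, -⟩ := hE.act hi
    have hn : n' = n := h1.unique hν
    subst hn
    refine ⟨α, β, h2, fun t' e' α' β' ht' hi' => ?_, Or.inl ⟨t, e, ht, hi⟩⟩
    rcases lt_trichotomy t' t with hlt | heq | hlt
    · exact (h4 t' e' α' β' hlt hi').2
    · subst heq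
      obtain ⟨-, -, rfl, rfl⟩ := hi.inj hi'
      obtain ⟨⟨m, _, hm⟩, -⟩ := h2.1
      obtain ⟨⟨m', _, hm'⟩, -⟩ := h2.2
      exact ⟨Ini.refl hm.sq, Ini.refl hm'.sq⟩
    · obtain ⟨a, b, c, d⟩ := hi'.le
      exact absurd ⟨e', a, α', c, β', d, hi'⟩ (hmax t' hlt ht')
  · obtain ⟨α, a1, a2, a3⟩ := str_app hν (z := 0) (Or.inl rfl)
    obtain ⟨β, b1, b2, b3⟩ := str_app hν (z := 1) (Or.inr rfl)
    refine ⟨α, β, ⟨⟨⟨_, a1.le, a1⟩, a2, a3⟩, ⟨⟨_, b1.le, b1⟩, b2, b3⟩⟩,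
      fun t e α' β' ht hi => absurd ?_ h, Or.inr ⟨a1, b1⟩⟩
    obtain ⟨a, b, c, d⟩ := hi.le
    exact ⟨t, ht, e, a, α', c, β', d, hi⟩

theorem cur_node {E : Set N.M} (hE : IsE E) {s n ν α β : N.M} (hν : Str ν n)
    (hN : Node E s ν) (hc : Cur E s n ν α β) : Node E s α ∧ Node E s β := by
  obtain ⟨⟨hα, hβ⟩, hlast, hor⟩ := hc
  obtain ⟨⟨m, _, hm⟩, hα1, hα2⟩ := id hα
  obtain ⟨⟨m', _, hm'⟩, hβ1, hβ2⟩ := id hβ
  constructor
  · refine node_side hE hν hN hα1 hm (fun t e α' β' ht hi => Or.inl (hlast t e α' β' ht hi).1) ?_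
    rcases hor with ⟨t, e, ht, hi⟩ | ⟨h, _⟩
    · obtain ⟨_, _, -, -, h3, -, -⟩ := hE.act hi
      refine Or.inr ⟨t, ht, h3.2.1, e, α, β, hi, ?_⟩
      rintro ν' h4 h5 (h6 | h6)
      · obtain ⟨k, hk, _⟩ := str_of_ini' h4 hm
        exact h5 (ini_antisymm h4 h6 hk hm)
      · exact hm.bit_ne hα2 ((h6.trans h4).mem hβ2)
    · exact Or.inl (hm.unique h)
  · refine node_side hE hν hN hβ1 hm' (fun t e α' β' ht hi => Or.inr (hlast t e α' β' ht hi).2) ?_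
    rcases hor with ⟨t, e, ht, hi⟩ | ⟨_, h⟩
    · obtain ⟨_, _, -, -, h3, -, -⟩ := hE.act hi
      refine Or.inr ⟨t, ht, h3.2.2, e, α, β, hi, ?_⟩
      rintro ν' h4 h5 (h6 | h6)
      · exact hm'.bit_ne ((h6.trans h4).mem hα2) hβ2
      · obtain ⟨k, hk, _⟩ := str_of_ini' h4 hm'
        exact h5 (ini_antisymm h4 h6 hk hm')
    · exact Or.inl (hm'.unique h)

/-- `Y` obeys all instructions -/
def Obey (E Y : Set N.M) : Prop :=
  ∀ t e ν α β, Ins E t e ν α β → Pre Y ν → Pre Y α ∨ Pre Y β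

theorem cur_obey {E Y : Set N.M} (hY : Obey E Y) {s n ν α β : N.M} (hν : Str ν n)
    (hc : Cur E s n ν α β) (hp : Pre Y ν) : Pre Y α ∨ Pre Y β := by
  obtain ⟨⟨hα, hβ⟩, hlast, ⟨t, e, ht, hi⟩ | ⟨h1, h2⟩⟩ := hc
  · exact hY t e ν α β hi hp
  · by_cases h : n ∈ Y
    · exact Or.inr (pre_app hp hν h2 hβ.2.1 (Or.inl ⟨h, hβ.2.2⟩))
    · exact Or.inl (pre_app hp hν h1 hα.2.1 (Or.inr ⟨h, hα.2.2⟩))

theorem cur_len {E : Set N.M} {s n ν α β : N.M} (hc : Cur E s n ν α β) :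
    (∃ m, n < m ∧ Str α m) ∧ ∃ m, n < m ∧ Str β m := by
  obtain ⟨⟨⟨⟨m, _, hm⟩, _, h1⟩, ⟨⟨m', _, hm'⟩, _, h2⟩⟩, -⟩ := hc
  exact ⟨⟨m, hm.1.lt h1, hm⟩, ⟨m', hm'.1.lt h2, hm'⟩⟩

/-- nodes above a node -/
theorem node_above {E : Set N.M} (hEN : E ∈ N.Sets) (hE : IsE E) (s : N.M) {ρ k : N.M}
    (hρ : Str ρ k) (hN : Node E s ρ) (m : N.M) :
    ∃ δ l, (Ini ρ δ ∧ Node E s δ) ∧ (Str δ l ∧ m ≤ l) := by
  refine ind_S1 (P := fun m => ∃ δ l, (Ini ρ δ ∧ Node E s δ) ∧ (Str δ l ∧ m ≤ l)) ?_ ?_ ?_ m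
  · refine S1.ex (S1.ex (D0.S1 (D0.and (D0.and ?_ ?_) (D0.and ?_ ?_))))
    · exact Ini_D0 (Tm.const ρ) (Tm.var 1)
    · exact Node_D0 hEN (Tm.const s) (Tm.var 1)
    · exact Str_D0 (Tm.var 1) (Tm.var 0)
    · exact D0.le (Tm.var 2) (Tm.var 0)
  · exact ⟨ρ, k, ⟨Ini.refl hρ.sq, hN⟩, hρ, zero_le' _⟩
  · rintro m ⟨δ, l, ⟨h1, h2⟩, h3, h4⟩
    obtain ⟨α, β, hc⟩ := exists_cur hEN hE s h3
    obtain ⟨l', hl', hα⟩ := (cur_len hc).1
    exact ⟨α, l', ⟨h1.trans hc.1.1.2.1, (cur_node hE h3 h2 hc).1⟩, hα,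
      add_one_le_iff'.2 (lt_of_le_of_lt h4 hl')⟩

/-- nodes along a path -/
theorem node_along {E : Set N.M} (hEN : E ∈ N.Sets) (hE : IsE E) {Y : Set N.M}
    (hYN : Y ∈ N.Sets) (hY : Obey E Y) (s : N.M) {ρ k : N.M}
    (hρ : Str ρ k) (hN : Node E s ρ) (hρY : Pre Y ρ) (m : N.M) :
    ∃ δ l, ((Ini ρ δ ∧ Pre Y δ) ∧ Node E s δ) ∧ (Str δ l ∧ m ≤ l) := by
  refine ind_S1 (P := fun m => ∃ δ l, ((Ini ρ δ ∧ Pre Y δ) ∧ Node E s δ) ∧ (Str δ l ∧ m ≤ l))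
    ?_ ?_ ?_ m
  · refine S1.ex (S1.ex (D0.S1 (D0.and (D0.and (D0.and ?_ ?_) ?_) (D0.and ?_ ?_))))
    · exact Ini_D0 (Tm.const ρ) (Tm.var 1)
    · exact Pre_D0 hYN (Tm.var 1)
    · exact Node_D0 hEN (Tm.const s) (Tm.var 1)
    · exact Str_D0 (Tm.var 1) (Tm.var 0)
    · exact D0.le (Tm.var 2) (Tm.var 0)
  · exact ⟨ρ, k, ⟨⟨Ini.refl hρ.sq, hρY⟩, hN⟩, hρ, zero_le' _⟩
  · rintro m ⟨δ, l, ⟨⟨h1, h1'⟩, h2⟩, h3, h4⟩
    obtain ⟨α, β, hc⟩ := exists_cur hEN hE s h3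
    obtain ⟨⟨l1, hl1, hα⟩, ⟨l2, hl2, hβ⟩⟩ := cur_len hc
    rcases cur_obey hY h3 hc h1' with h | h
    · exact ⟨α, l1, ⟨⟨h1.trans hc.1.1.2.1, h⟩, (cur_node hE h3 h2 hc).1⟩, hα,
        add_one_le_iff'.2 (lt_of_le_of_lt h4 hl1)⟩
    · exact ⟨β, l2, ⟨⟨h1.trans hc.1.2.2.1, h⟩, (cur_node hE h3 h2 hc).2⟩, hβ,
        add_one_le_iff'.2 (lt_of_le_of_lt h4 hl2)⟩

/-- final nodes -/
def FN (E : Set N.M) (δ : N.M) : Prop := ∀ s, Node E s δ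

theorem fn_root {E : Set N.M} (hE : IsE E) {s : N.M} (hs : Str s 0) : FN E s := by
  intro t t' ht e he ν hν α hα β hβ hi h1 h2
  obtain ⟨k, hk, hk0⟩ := str_of_ini' h1 hs
  exact absurd (Ini.lt_len h1 h2 hk hs) (not_lt_of_ge (zero_le' _))

/-- the instructions at short nodes are given before some stage -/
theorem settle {E : Set N.M} (hEN : E ∈ N.Sets) (hE : IsE E) (n : N.M) :
    ∃ s, ∀ t e ν α β k, Ins E t e ν α β → Str ν k → k ≤ n → t < s := by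
  obtain ⟨a, ha⟩ := code_bound n
  obtain ⟨b, hb⟩ := strong_bounding
    (Q := fun x t => ∃ e, e ≤ x ∧ ∃ ν, ν ≤ x ∧ ∃ α, α ≤ t ∧ ∃ β, β ≤ t ∧
      (x = pr e ν ∧ Ins E t e ν α β))
    (D0.bexLe (Tm.var 0) (D0.bexLe (Tm.var 1) (D0.bexLe (Tm.var 3) (D0.bexLe (Tm.var 4)
      (D0.and (D0.eq (Tm.var 4) ((Tm.var 3).pr (Tm.var 2)))
        (Ins_D0'' hEN (Tm.var 5) (Tm.var 3) (Tm.var 2) (Tm.var 1) (Tm.var 0))))))) (pr n a + 1)
  refine ⟨b, fun t e ν α β k hi hk hkn => ?_⟩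
  obtain ⟨n', y, ⟨h1, h2⟩, -⟩ := hE.act hi
  have hn' : n' = k := h1.unique hk
  have hlt : pr e ν < pr n a + 1 :=
    lt_add_one_iff'.2 (pr_mono (h2.trans (hn' ▸ hkn)) (ha ν k hkn hk).le)
  obtain ⟨_, _, c, d⟩ := hi.le
  obtain ⟨t', ht', e', -, ν', -, α', -, β', -, h3, h4⟩ := hb _ hlt
    ⟨t, e, fst_le_pr _ _, ν, snd_le_pr _ _, α, c, β, d, rfl, hi⟩
  obtain ⟨rfl, rfl⟩ := pr_inj h3
  rw [hE.unique hi h4]
  exact ht'

/-- final nodes along a path -/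
theorem final_along {E : Set N.M} (hEN : E ∈ N.Sets) (hE : IsE E) {Y : Set N.M}
    (hYN : Y ∈ N.Sets) (hY : Obey E Y) (n : N.M) :
    ∃ δ m, Pre Y δ ∧ FN E δ ∧ Str δ m ∧ n ≤ m := by
  obtain ⟨s, hs⟩ := settle hEN hE n
  obtain ⟨r, hr⟩ := exists_str0 (N := N)
  obtain ⟨δ0, l0, ⟨⟨-, a1⟩, a2⟩, a3, a4⟩ := node_along hEN hE hYN hY s hr (fn_root hE hr s)
    (pre0 hr) n
  obtain ⟨m, -, ⟨hnm, δ, ⟨h1, h2⟩, h3⟩, hmin⟩ := lnp_S1
    (P := fun m => n ≤ m ∧ ∃ δ, (Str δ m ∧ Pre Y δ) ∧ Node E s δ)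
    (S1.and (D0.le (Tm.const n) (Tm.var 0)).S1 (S1.ex (D0.S1 (D0.and (D0.and
      (Str_D0 (Tm.var 0) (Tm.var 1)) (Pre_D0 hYN (Tm.var 0))) (Node_D0 hEN (Tm.const s)
        (Tm.var 0)))))) l0 ⟨a4, δ0, ⟨a3, a1⟩, a2⟩
  refine ⟨δ, m, h2, ?_, h1, hnm⟩
  intro s' t ht e he ν hν α hα β hβ hi hini hne
  by_cases hts : t < s
  · exact h3.use hts hi hini hne
  · exfalso
    obtain ⟨k, y, ⟨hk, -⟩, -, hnodes, -, -⟩ := hE.act hi
    have hnk : n < k := by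
      by_contra hcon
      push Not at hcon
      exact hts (hs t e ν α β k hi hk hcon)
    exact hmin k (Ini.lt_len hini hne hk h1)
      ⟨hnk.le, ν, ⟨hk, h2.ini hini⟩, hnodes.1.mono (not_lt.1 hts)⟩

/-- final successors -/
theorem final_succ {E : Set N.M} (hEN : E ∈ N.Sets) (hE : IsE E) {ν n : N.M} (hν : Str ν n)
    (hN : FN E ν) : ∃ α β, (Side 0 n ν α ∧ Side 1 n ν β) ∧ (FN E α ∧ FN E β) ∧
      (∀ t e α' β', Ins E t e ν α' β' → Ini α' α ∧ Ini β' β) ∧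
      ∀ Y, Obey E Y → Pre Y ν → Pre Y α ∨ Pre Y β := by
  obtain ⟨s, hs⟩ := settle hEN hE n
  obtain ⟨α, β, hc⟩ := exists_cur hEN hE s hν
  have hc' : ∀ s', s ≤ s' → Cur E s' n ν α β := by
    intro s' hs'
    refine ⟨hc.1, fun t e α' β' ht hi => hc.2.1 t e α' β' (hs t e ν α' β' n hi hν le_rfl) hi, ?_⟩
    rcases hc.2.2 with ⟨t, e, ht, hi⟩ | h
    · exact Or.inl ⟨t, e, lt_of_lt_of_le ht hs', hi⟩
    · exact Or.inr h
  have hfn : ∀ s', Node E s' α ∧ Node E s' β := by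
    intro s'
    have := cur_node hE hν (hN (max s s')) (hc' _ (le_max_left _ _))
    exact ⟨this.1.mono (le_max_right _ _), this.2.mono (le_max_right _ _)⟩
  exact ⟨α, β, hc.1, ⟨fun s' => (hfn s').1, fun s' => (hfn s').2⟩,
    fun t e α' β' hi => hc.2.1 t e α' β' (hs t e ν α' β' n hi hν le_rfl) hi,
    fun Y hY hp => cur_obey hY hν hc hp⟩

/-- the main property of the construction -/
theorem no_pair {E : Set N.M} (hE : IsE E) {ν n e α β α' β' y m m' : N.M} (hν : Str ν n)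
    (hN : FN E ν) (he : e ≤ n) (hno : ∀ t α β, ¬ Ins E t e ν α β)
    (hs : Side 0 n ν α ∧ Side 1 n ν β)
    (hlast : ∀ t e α' β', Ins E t e ν α' β' → Ini α' α ∧ Ini β' β)
    (hα : Ini α α') (hβ : Ini β β') (hα' : FN E α') (hβ' : FN E β') (hm : Str α' m)
    (hm' : Str β' m') : ¬ Um e (pr α' β') y := by
  intro hU
  obtain ⟨h1, h2, h3, h4, h5⟩ := q_le (e := e) (ν := ν) (α := α') (β := β') (y := y)
  have hact : Act E (q e ν α' β' y) := by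
    refine ⟨e, h1, ν, h2, α', h3, β', h4, y, h5, n, hν.le.trans h2, rfl, ⟨hν, he⟩,
      ⟨hs.1.ini hα hm, hs.2.ini hβ hm'⟩, ⟨hN _, hα' _, hβ' _⟩, ?_, hU⟩
    intro t' ht' e' he' α'' h1 β'' h2 hi
    refine ⟨fun h => ?_, (hlast _ _ _ _ hi).1.trans hα, (hlast _ _ _ _ hi).2.trans hβ⟩
    subst h
    exact hno _ _ _ hi
  exact hno _ _ _ ⟨(hE _).2 hact, y, h5, rfl⟩

end Pool.Agent.Helper116.Min
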