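import Mathlib
import Pool.Agent.Helper116_Min.Constr

/-!
The dichotomy for total functionals on the class of all sets which obey the instructions.
-/

namespace Pool.Agent.Helper116.Min

open Pool.Agent.Helper617.RM

universe u

set_option linter.unusedSectionVars false
set_option linter.unusedVariables false

variable {N : L2Structure.{u}} [IsModelRCA0 N]

/-- the tree of all strings which obey the instructions, as far as they are given early -/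
def InT (E : Set N.M) (δ : N.M) : Prop :=
  ∃ n, n ≤ δ ∧ (Str δ n ∧ ∀ t, t < n → ∀ e, e ≤ t → ∀ ν, ν ≤ t → ∀ α, α ≤ t → ∀ β, β ≤ t →
    Ins E t e ν α β → Ini ν δ → (Ini α δ ∨ Ini β δ))

theorem InT_D0 {E : Set N.M} (hE : E ∈ N.Sets) {s1 : Ctx N → N.M} (h1 : Tm s1) :
    D0 (fun v => InT E (s1 v)) := by
  refine D0.bexLe h1 (D0.and (Str_D0 h1.tail (Tm.var 0)) (D0.ball (Tm.var 0) (D0.ballLe (Tm.var 0)
    (D0.ballLe (Tm.var 1) (D0.ballLe (Tm.var 2) (D0.ballLe (Tm.var 3) (D0.imp ?_ (D0.imp ?_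
      (D0.or ?_ ?_)))))))))
  · exact Ins_D0'' hE (Tm.var 4) (Tm.var 3) (Tm.var 2) (Tm.var 1) (Tm.var 0)
  · exact Ini_D0 (Tm.var 2) h1.tail.tail.tail.tail.tail.tail
  · exact Ini_D0 (Tm.var 1) h1.tail.tail.tail.tail.tail.tail
  · exact Ini_D0 (Tm.var 0) h1.tail.tail.tail.tail.tail.tail

theorem InT.use {E : Set N.M} {δ n t e ν α β : N.M} (h : InT E δ) (hn : Str δ n) (ht : t < n)
    (hi : Ins E t e ν α β) (h1 : Ini ν δ) : Ini α δ ∨ Ini β δ := by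
  obtain ⟨n', _, hn', h⟩ := h
  have : n' = n := hn'.unique hn
  subst this
  obtain ⟨a, b, c, d⟩ := hi.le
  exact h t ht e a ν b α c β d hi h1

/-- the strings of an instruction are short -/
theorem ins_len {E : Set N.M} (hE : IsE E) {t e ν α β : N.M} (hi : Ins E t e ν α β) :
    (∃ k, Str ν k ∧ k ≤ t) ∧ (∃ k, Str α k ∧ k ≤ t) ∧ ∃ k, Str β k ∧ k ≤ t := by
  obtain ⟨n, y, ⟨h1, -⟩, ⟨⟨⟨m, hm, h2⟩, -⟩, ⟨⟨m', hm', h3⟩, -⟩⟩, -⟩ := hE.act hi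
  obtain ⟨a, b, c, d⟩ := hi.le
  exact ⟨⟨n, h1, h1.le.trans b⟩, ⟨m, h2, hm.trans c⟩, ⟨m', h3, hm'.trans d⟩⟩

theorem inT_ini {E : Set N.M} (hE : IsE E) {δ δ' : N.M} (h : InT E δ) (hi : Ini δ' δ) :
    InT E δ' := by
  obtain ⟨n, _, hn, _⟩ := id h
  obtain ⟨n', hn', hle⟩ := str_of_ini' hi hn
  refine ⟨n', hn'.le, hn', fun t ht e _ ν _ α _ β _ hins hν => ?_⟩
  obtain ⟨-, ⟨k, hk, hkt⟩, ⟨k', hk', hkt'⟩⟩ := ins_len hE hins
  rcases h.use hn (lt_of_lt_of_le ht hle) hins (hν.trans hi) with h1 | h1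
  · exact Or.inl (h1.comp hi hk.1 hn'.1 (hkt.trans ht.le))
  · exact Or.inr (h1.comp hi hk'.1 hn'.1 (hkt'.trans ht.le))

theorem inT_node {E : Set N.M} (hE : IsE E) {δ δ' n l : N.M} (hN : Node E n δ') (hl : Str δ' l)
    (hnl : n ≤ l) (hδ : Str δ n) (hi : Ini δ δ') : InT E δ := by
  refine ⟨n, hδ.le, hδ, fun t ht e _ ν _ α _ β _ hins hν => ?_⟩
  obtain ⟨⟨j, hj, hjt⟩, ⟨k, hk, hkt⟩, ⟨k', hk', hkt'⟩⟩ := ins_len hE hins
  have hne : ν ≠ δ' := fun e => by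
    subst e
    have := hj.unique hl
    subst this
    exact absurd (lt_of_lt_of_le ht hnl) (not_lt_of_ge hjt)
  rcases hN.use ht hins (hν.trans hi) hne with h1 | h1
  · exact Or.inl (h1.comp hi hk.1 hδ.1 (hkt.trans ht.le))
  · exact Or.inr (h1.comp hi hk'.1 hδ.1 (hkt'.trans ht.le))

theorem path_obey {E : Set N.M} (hE : IsE E) {Y : Set N.M} (hYN : Y ∈ N.Sets)
    (h : ∀ s n, Str s n → Pre Y s → InT E s) : Obey E Y := by
  intro t e ν α β hi hν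
  obtain ⟨s, hs, hp⟩ := exists_pre hYN (t + 1)
  obtain ⟨⟨j, hj, hjt⟩, -⟩ := ins_len hE hi
  have h1 : Ini ν s := hν.comp hp hj hs (hjt.trans (lt_succ'' t).le)
  rcases (h s _ hs hp).use hs (lt_succ'' t) hi h1 with h2 | h2
  · exact Or.inl (hp.ini h2)
  · exact Or.inr (hp.ini h2)

theorem obey_path {E : Set N.M} (hE : IsE E) {Y : Set N.M} (hY : Obey E Y) {s n : N.M}
    (hs : Str s n) (hp : Pre Y s) : InT E s := by
  refine ⟨n, hs.le, hs, fun t ht e _ ν _ α _ β _ hins hν => ?_⟩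
  obtain ⟨-, ⟨k, hk, hkt⟩, ⟨k', hk', hkt'⟩⟩ := ins_len hE hins
  rcases hY t e ν α β hins (hp.ini hν) with h1 | h1
  · exact Or.inl (h1.comp hp hk hs (hkt.trans ht.le))
  · exact Or.inr (h1.comp hp hk' hs (hkt'.trans ht.le))

/-- weak König's lemma, internal form -/
def WKL' (N : L2Structure.{u}) [IsModelRCA0 N] : Prop :=
  ∀ T ∈ N.Sets, (∀ s ∈ T, ∀ s', Ini s' s → s' ∈ T) → (∀ n, ∃ s ∈ T, Str s n) →
    ∃ Y ∈ N.Sets, ∀ s n, Str s n → Pre Y s → s ∈ T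

theorem comparable {s t u k l m : N.M} (h : Ini s u) (h' : Ini t u) (hs : Str s k)
    (ht : Str t l) : Ini s t ∨ Ini t s := by
  rcases le_total k l with hle | hle
  · exact Or.inl (h.comp h' hs.1 ht.1 hle)
  · exact Or.inr (h'.comp h ht.1 hs.1 hle)

/-- the part of a tree of obeying strings through a given node -/
theorem path_through (hW : WKL' N) {E : Set N.M} (hEN : E ∈ N.Sets) (hE : IsE E) {γ k : N.M}
    (hγ : Str γ k) {R : N.M → Prop} (hR : D0 (fun v => R (v 0)))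
    (hmono : ∀ σ τ, Ini σ τ → (∃ k, Str τ k) → R τ → R σ)
    (hinf : ∀ m, k ≤ m → ∃ δ, Str δ m ∧ Ini γ δ ∧ InT E δ ∧ R δ) :
    ∃ Z ∈ N.Sets, Obey E Z ∧ Pre Z γ ∧ ∀ s n, Str s n → Pre Z s → R s := by
  obtain ⟨Z, hZ, hp⟩ := hW {δ | (Ini δ γ ∨ Ini γ δ) ∧ (InT E δ ∧ R δ)}
    (comp_D0 (P := fun δ => (Ini δ γ ∨ Ini γ δ) ∧ (InT E δ ∧ R δ))
      (D0.and (D0.or (Ini_D0 (Tm.var 0) (Tm.const γ)) (Ini_D0 (Tm.const γ) (Tm.var 0)))
        (D0.and (InT_D0 hEN (Tm.var 0)) (hR.pred (Tm.var 0)))))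
    (by
      rintro s ⟨h1, h2, h3⟩ s' hi
      refine ⟨?_, inT_ini hE h2 hi, hmono _ _ hi (h2.imp fun _ h => h.2.1) h3⟩
      rcases h1 with h1 | h1
      · exact Or.inl (hi.trans h1)
      · obtain ⟨n, -, hn, -⟩ := id h2
        obtain ⟨n', hn', -⟩ := str_of_ini' hi hn
        exact comparable (m := n) hi h1 hn' hγ)
    (by
      intro n
      rcases le_total k n with hkn | hkn
      · obtain ⟨δ, h1, h2, h3, h4⟩ := hinf n hkn
        exact ⟨δ, ⟨Or.inr h2, h3, h4⟩, h1⟩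
      · obtain ⟨δ, h1, h2, h3, h4⟩ := hinf k le_rfl
        obtain ⟨s, hs, hi⟩ := str_res h1 hkn
        exact ⟨s, ⟨Or.inl (hi.comp h2 hs.1 hγ.1 hkn), inT_ini hE h3 hi,
          hmono _ _ hi ⟨_, h1⟩ h4⟩, hs⟩)
  refine ⟨Z, hZ, path_obey hE hZ fun s n hs h => (hp s n hs h).2.1, ?_,
    fun s n hs h => (hp s n hs h).2.2⟩
  obtain ⟨s, hs, hsp⟩ := exists_pre hZ k
  rcases (hp s k hs hsp).1 with h | h
  · have := h.eq hs.1 hγ.1
    rw [← this]; exact hsp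
  · have := h.eq hγ.1 hs.1
    rw [this]; exact hsp

theorem inT_above {E : Set N.M} (hEN : E ∈ N.Sets) (hE : IsE E) {γ k : N.M}
    (hγ : Str γ k) (hN : FN E γ) (m : N.M) (hkm : k ≤ m) :
    ∃ δ, Str δ m ∧ Ini γ δ ∧ InT E δ := by
  obtain ⟨δ, l, ⟨h1, h2⟩, h3, h4⟩ := node_above hEN hE m hγ (hN m) m
  obtain ⟨s, hs, hi⟩ := str_res h3 h4
  exact ⟨s, hs, h1.comp hi hγ.1 hs.1 hkm, inT_node hE h2 h3 h4 hs hi⟩

theorem exists_obey_through (hW : WKL' N) {E : Set N.M} (hEN : E ∈ N.Sets) (hE : IsE E)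
    {γ k : N.M} (hγ : Str γ k) (hN : FN E γ) : ∃ Z ∈ N.Sets, Obey E Z ∧ Pre Z γ := by
  obtain ⟨Z, h1, h2, h3, -⟩ := path_through hW hEN hE hγ (R := fun _ => True) D0.true
    (fun _ _ _ _ _ => trivial) (fun m hm => by
      obtain ⟨δ, a, b, c⟩ := inT_above hEN hE hγ hN m hm
      exact ⟨δ, a, b, c, trivial⟩)
  exact ⟨Z, h1, h2, h3⟩

/-- total functionals: `G1 σ x` means that the functional gives `1` on `σ` and `x` -/
structure TFun (G0 G1 : N.M → N.M → Prop) : Prop where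
  mono0 : ∀ σ τ x, Ini σ τ → (∃ k, Str τ k) → G0 σ x → G0 τ x
  mono1 : ∀ σ τ x, Ini σ τ → (∃ k, Str τ k) → G1 σ x → G1 τ x
  excl : ∀ σ x, G0 σ x → G1 σ x → False
  str0 : ∀ σ x, G0 σ x → ∃ n, Str σ n
  str1 : ∀ σ x, G1 σ x → ∃ n, Str σ n
  total : ∀ x, ∃ m, ∀ σ k, Str σ k → m ≤ k → G0 σ x ∨ G1 σ x

/-- the value of the functional given by `G` on the set `Y` -/
def V (G : N.M → N.M → Prop) (Y : Set N.M) (x : N.M) : Prop := ∃ σ, Pre Y σ ∧ G σ x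

theorem V_excl {G0 G1 : N.M → N.M → Prop} (hG : TFun G0 G1) {Y : Set N.M} {x : N.M}
    (h0 : V G0 Y x) (h1 : V G1 Y x) : False := by
  obtain ⟨σ, a1, a2⟩ := h0
  obtain ⟨τ, b1, b2⟩ := h1
  obtain ⟨n, hn⟩ := hG.str0 _ _ a2
  obtain ⟨m, hm⟩ := hG.str1 _ _ b2
  rcases le_total n m with hle | hle
  · exact hG.excl _ _ (hG.mono0 _ _ _ (a1.comp b1 hn hm hle) ⟨_, hm⟩ a2) b2
  · exact hG.excl _ _ a2 (hG.mono1 _ _ _ (b1.comp a1 hm hn hle) ⟨_, hn⟩ b2)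

theorem V_total {G0 G1 : N.M → N.M → Prop} (hG : TFun G0 G1) {Y : Set N.M} (hY : Y ∈ N.Sets)
    (x : N.M) : V G0 Y x ∨ V G1 Y x := by
  obtain ⟨m, hm⟩ := hG.total x
  obtain ⟨s, hs, hp⟩ := exists_pre hY m
  rcases hm s m hs le_rfl with h | h
  · exact Or.inl ⟨s, hp, h⟩
  · exact Or.inr ⟨s, hp, h⟩

/-- the splitting relation -/
def Spl (G0 G1 : N.M → N.M → Prop) (z : N.M) : Prop :=
  ∃ α β, z = pr α β ∧ ∃ x, (G0 α x ∧ G1 β x) ∨ (G1 α x ∧ G0 β x)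

theorem spl_pr {G0 G1 : N.M → N.M → Prop} {α β : N.M} :
    Spl G0 G1 (pr α β) ↔ ∃ x, (G0 α x ∧ G1 β x) ∨ (G1 α x ∧ G0 β x) := by
  constructor
  · rintro ⟨α', β', e, h⟩
    obtain ⟨rfl, rfl⟩ := pr_inj e
    exact h
  · intro h; exact ⟨α, β, rfl, h⟩

/-- a final node on `Z` above a given one on which a value of the functional is decided -/
theorem final_value {E : Set N.M} (hEN : E ∈ N.Sets) (hE : IsE E) {G : N.M → N.M → Prop}
    (mono : ∀ σ τ x, Ini σ τ → (∃ k, Str τ k) → G σ x → G τ x) (str : ∀ σ x, G σ x → ∃ n, Str σ n)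
    {Z : Set N.M} (hZN : Z ∈ N.Sets) (hZ : Obey E Z) {α k x : N.M} (hα : Str α k) (hp : Pre Z α)
    (hx : V G Z x) : ∃ α' m, Ini α α' ∧ FN E α' ∧ Str α' m ∧ G α' x ∧ Pre Z α' := by
  obtain ⟨σ, h1, h2⟩ := hx
  obtain ⟨l, hl⟩ := str _ _ h2
  obtain ⟨δ, m, a, b, c, d⟩ := final_along hEN hE hZN hZ (max k l)
  exact ⟨δ, m, hp.comp a hα c ((le_max_left _ _).trans d), b, c,
    mono _ _ _ (h1.comp a hl c ((le_max_right _ _).trans d)) ⟨_, c⟩ h2, a⟩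

theorem no_cross {E : Set N.M} (hEN : E ∈ N.Sets) (hE : IsE E) {G0 G1 : N.M → N.M → Prop}
    (hG : TFun G0 G1) {e : N.M} (he : ∀ z, Spl G0 G1 z ↔ ∃ y, Um e z y)
    {ν n α β : N.M} (hν : Str ν n) (hN : FN E ν) (hen : e ≤ n)
    (hno : ∀ t α β, ¬ Ins E t e ν α β) (hs : Side 0 n ν α ∧ Side 1 n ν β)
    (hlast : ∀ t e α' β', Ins E t e ν α' β' → Ini α' α ∧ Ini β' β)
    {Z Z' : Set N.M} (hZN : Z ∈ N.Sets) (hZ : Obey E Z) (hZN' : Z' ∈ N.Sets) (hZ' : Obey E Z')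
    (hα : Pre Z α) (hβ : Pre Z' β) {x : N.M}
    (h : (V G0 Z x ∧ V G1 Z' x) ∨ (V G1 Z x ∧ V G0 Z' x)) : False := by
  obtain ⟨⟨m, _, hm⟩, _⟩ := hs.1
  obtain ⟨⟨m', _, hm'⟩, _⟩ := hs.2
  have key : ∀ α' β' k k', Ini α α' → FN E α' → Str α' k → Ini β β' → FN E β' → Str β' k' →
      ((G0 α' x ∧ G1 β' x) ∨ (G1 α' x ∧ G0 β' x)) → False := by
    intro α' β' k k' h1 h2 h3 h4 h5 h6 h7
    obtain ⟨y, hy⟩ := (he _).1 (spl_pr.2 ⟨x, h7⟩)
    exact no_pair hE hν hN hen hno hs hlast h1 h4 h2 h5 h3 h6 hy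
  rcases h with ⟨h1, h2⟩ | ⟨h1, h2⟩
  · obtain ⟨α', k, a1, a2, a3, a4, -⟩ := final_value hEN hE hG.mono0 hG.str0 hZN hZ hm hα h1
    obtain ⟨β', k', b1, b2, b3, b4, -⟩ := final_value hEN hE hG.mono1 hG.str1 hZN' hZ' hm' hβ h2
    exact key _ _ _ _ a1 a2 a3 b1 b2 b3 (Or.inl ⟨a4, b4⟩)
  · obtain ⟨α', k, a1, a2, a3, a4, -⟩ := final_value hEN hE hG.mono1 hG.str1 hZN hZ hm hα h1
    obtain ⟨β', k', b1, b2, b3, b4, -⟩ := final_value hEN hE hG.mono0 hG.str0 hZN' hZ' hm' hβ h2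
    exact key _ _ _ _ a1 a2 a3 b1 b2 b3 (Or.inr ⟨a4, b4⟩)

/-- the functional is constant above a node at which it is never made to split -/
theorem const_above (hW : WKL' N) {E : Set N.M} (hEN : E ∈ N.Sets) (hE : IsE E)
    {G0 G1 : N.M → N.M → Prop} (hG : TFun G0 G1) {e : N.M}
    (he : ∀ z, Spl G0 G1 z ↔ ∃ y, Um e z y) {ν n : N.M} (hν : Str ν n) (hN : FN E ν)
    (hen : e ≤ n) (hno : ∀ t α β, ¬ Ins E t e ν α β) {Z Z' : Set N.M} (hZN : Z ∈ N.Sets)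
    (hZ : Obey E Z) (hZN' : Z' ∈ N.Sets) (hZ' : Obey E Z') (hp : Pre Z ν) (hp' : Pre Z' ν)
    {x : N.M} (h0 : V G0 Z x) (h1 : V G1 Z' x) : False := by
  obtain ⟨α, β, hs, ⟨hα, hβ⟩, hlast, hsucc⟩ := final_succ hEN hE hν hN
  obtain ⟨⟨m, _, hm⟩, _⟩ := id hs.1
  obtain ⟨⟨m', _, hm'⟩, _⟩ := id hs.2
  have cross := fun {Z Z' : Set N.M} (a : Z ∈ N.Sets) (b : Obey E Z) (c : Z' ∈ N.Sets)
    (d : Obey E Z') (e' : Pre Z α) (f : Pre Z' β) {x : N.M}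
    (h : (V G0 Z x ∧ V G1 Z' x) ∨ (V G1 Z x ∧ V G0 Z' x)) =>
    no_cross hEN hE hG he hν hN hen hno hs hlast a b c d e' f h
  rcases hsucc Z hZ hp with hZα | hZβ
  · rcases hsucc Z' hZ' hp' with hZα' | hZβ'
    · obtain ⟨W, hWN, hWo, hWβ⟩ := exists_obey_through hW hEN hE hm' hβ
      rcases V_total hG hWN x with h | h
      · exact cross hZN' hZ' hWN hWo hZα' hWβ (Or.inr ⟨h1, h⟩)
      · exact cross hZN hZ hWN hWo hZα hWβ (Or.inl ⟨h0, h⟩)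
    · exact cross hZN hZ hZN' hZ' hZα hZβ' (Or.inl ⟨h0, h1⟩)
  · rcases hsucc Z' hZ' hp' with hZα' | hZβ'
    · exact cross hZN' hZ' hZN hZ hZα' hZβ (Or.inr ⟨h1, h0⟩)
    · obtain ⟨W, hWN, hWo, hWα⟩ := exists_obey_through hW hEN hE hm hα
      rcases V_total hG hWN x with h | h
      · exact cross hWN hWo hZN' hZ' hWα hZβ' (Or.inl ⟨h, h1⟩)
      · exact cross hWN hWo hZN hZ hWα hZβ (Or.inr ⟨h, h0⟩)

/-- first case of the dichotomy: the value is computable -/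
theorem caseA (hW : WKL' N) {E : Set N.M} (hEN : E ∈ N.Sets) (hE : IsE E)
    {G0 G1 : N.M → N.M → Prop} (hG : TFun G0 G1) (hD0 : D0 (fun v => G0 (v 0) (v 1)))
    (hD1 : D0 (fun v => G1 (v 0) (v 1))) {e : N.M}
    (he : ∀ z, Spl G0 G1 z ↔ ∃ y, Um e z y) {ν n : N.M} (hν : Str ν n) (hN : FN E ν)
    (hen : e ≤ n) (hno : ∀ t α β, ¬ Ins E t e ν α β) {Y : Set N.M} (hYN : Y ∈ N.Sets)
    (hY : Obey E Y) (hp : Pre Y ν) (x : N.M) :
    (V G1 Y x ↔ ∃ m, n ≤ m ∧ ∀ δ, Str δ m → Ini ν δ → InT E δ → G1 δ x) ∧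
    (V G0 Y x ↔ ∃ m, n ≤ m ∧ ∀ δ, Str δ m → Ini ν δ → InT E δ → G0 δ x) := by
  have easy : ∀ G : N.M → N.M → Prop,
      (∃ m, n ≤ m ∧ ∀ δ, Str δ m → Ini ν δ → InT E δ → G δ x) → V G Y x := by
    rintro G ⟨m, hm, h⟩
    obtain ⟨s, hs, hsp⟩ := exists_pre hYN m
    exact ⟨s, hsp, h s hs (hp.comp hsp hν hs hm) (obey_path hE hY hs hsp)⟩
  constructor
  · refine ⟨fun h1 => ?_, easy G1⟩
    by_contra hcon
    push Not at hcon
    obtain ⟨Z, hZN, hZ, hZp, hR⟩ := path_through hW hEN hE hν (R := fun δ => ¬ G1 δ x)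
      (hD1.rel (Tm.var 0) (Tm.const x)).not
      (fun σ τ hi hτ h h' => h (hG.mono1 _ _ _ hi hτ h')) (fun m hm => by
        obtain ⟨δ, a, b, c, d⟩ := hcon m hm
        exact ⟨δ, a, b, c, d⟩)
    rcases V_total hG hZN x with h | ⟨σ, hσ, h⟩
    · exact const_above hW hEN hE hG he hν hN hen hno hZN hZ hYN hY hZp hp h h1
    · obtain ⟨k, hk⟩ := hG.str1 _ _ h
      exact hR σ k hk hσ h
  · refine ⟨fun h0 => ?_, easy G0⟩
    by_contra hcon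
    push Not at hcon
    obtain ⟨Z, hZN, hZ, hZp, hR⟩ := path_through hW hEN hE hν (R := fun δ => ¬ G0 δ x)
      (hD0.rel (Tm.var 0) (Tm.const x)).not
      (fun σ τ hi hτ h h' => h (hG.mono0 _ _ _ hi hτ h')) (fun m hm => by
        obtain ⟨δ, a, b, c, d⟩ := hcon m hm
        exact ⟨δ, a, b, c, d⟩)
    rcases V_total hG hZN x with ⟨σ, hσ, h⟩ | h
    · obtain ⟨k, hk⟩ := hG.str0 _ _ h
      exact hR σ k hk hσ h
    · exact const_above hW hEN hE hG he hν hN hen hno hYN hY hZN hZ hp hZp h0 h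

/-- the condition of the first case is `Σ⁰₁` -/
theorem AllStr_S1 {E : Set N.M} (hEN : E ∈ N.Sets) {G : N.M → N.M → Prop}
    (hD : D0 (fun v => G (v 0) (v 1))) (ν n : N.M) :
    S1 (fun v => ∃ m, n ≤ m ∧ ∀ δ, Str δ m → Ini ν δ → InT E δ → G δ (v 0)) := by
  refine S1.congr (R := fun v => ∃ m a, (n ≤ m ∧ CB m a) ∧ ∀ δ, δ < a →
    (Str δ m → Ini ν δ → InT E δ → G δ (v 0))) ?_ fun v => ?_
  · refine S1.ex (S1.ex (D0.S1 (D0.and (D0.and ?_ ?_) (D0.ball (Tm.var 0) (D0.imp ?_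
      (D0.imp ?_ (D0.imp ?_ ?_)))))))
    · exact D0.le (Tm.const n) (Tm.var 1)
    · exact CB_D0 (Tm.var 1) (Tm.var 0)
    · exact Str_D0 (Tm.var 0) (Tm.var 2)
    · exact Ini_D0 (Tm.const ν) (Tm.var 0)
    · exact InT_D0 hEN (Tm.var 0)
    · exact hD.rel (Tm.var 0) (Tm.var 3)
  · constructor
    · rintro ⟨m, a, ⟨h1, h2⟩, h3⟩
      exact ⟨m, h1, fun δ hδ => h3 δ (h2.bound le_rfl hδ) hδ⟩
    · rintro ⟨m, h1, h2⟩
      obtain ⟨a, ha⟩ := exists_CB m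
      exact ⟨m, a, ⟨h1, ha⟩, fun δ _ => h2 δ⟩

/-- `B` agrees with the value on `α` where the values on `α` and `β` differ -/
def Agr (G0 G1 : N.M → N.M → Prop) (B : Set N.M) (α β : N.M) : Prop :=
  ∃ x, (G1 α x ∧ G0 β x ∧ x ∈ B) ∨ (G0 α x ∧ G1 β x ∧ x ∉ B)

/-- at stage `s` the path to `δ` is decided by `B` at all nodes above `ν0` -/
def Good (G0 G1 : N.M → N.M → Prop) (E B : Set N.M) (e ν0 n0 s δ : N.M) : Prop :=
  (Node E s δ ∧ Ini ν0 δ) ∧ ∃ n, Str δ n ∧ ∀ k, k < n → (¬ n0 ≤ k ∨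
    ∃ ν, (Str ν k ∧ Ini ν δ) ∧ (¬ Node E s ν ∨
      ∃ t, t < s ∧ ∃ α β, Ins E t e ν α β ∧
        ((Ini α δ ∧ Agr G0 G1 B α β) ∨ (Ini β δ ∧ Agr G0 G1 B β α))))

theorem Agr_S1 {G0 G1 : N.M → N.M → Prop} (hD0 : D0 (fun v => G0 (v 0) (v 1)))
    (hD1 : D0 (fun v => G1 (v 0) (v 1))) {B : Set N.M} (hB : B ∈ N.Sets) {s1 s2 : Ctx N → N.M}
    (h1 : Tm s1) (h2 : Tm s2) : S1 (fun v => Agr G0 G1 B (s1 v) (s2 v)) := by
  refine S1.ex (D0.S1 (D0.or (D0.and ?_ (D0.and ?_ ?_)) (D0.and ?_ (D0.and ?_ (D0.not ?_)))))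
  · exact hD1.rel h1.tail (Tm.var 0)
  · exact hD0.rel h2.tail (Tm.var 0)
  · exact D0.mem (Tm.var 0) hB
  · exact hD0.rel h1.tail (Tm.var 0)
  · exact hD1.rel h2.tail (Tm.var 0)
  · exact D0.mem (Tm.var 0) hB

theorem Good_S1 {G0 G1 : N.M → N.M → Prop} (hD0 : D0 (fun v => G0 (v 0) (v 1)))
    (hD1 : D0 (fun v => G1 (v 0) (v 1))) {E B : Set N.M} (hEN : E ∈ N.Sets) (hB : B ∈ N.Sets)
    (e ν0 n0 : N.M) {s1 s2 : Ctx N → N.M} (h1 : Tm s1) (h2 : Tm s2) :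
    S1 (fun v => Good G0 G1 E B e ν0 n0 (s1 v) (s2 v)) := by
  refine S1.and (D0.S1 (D0.and (Node_D0 hEN h1 h2) (Ini_D0 (Tm.const ν0) h2))) ?_
  refine S1.ex (S1.and (Str_D0 h2.tail (Tm.var 0)).S1 ?_)
  refine S1.ball (Tm.var 0) (S1.or (D0.le (Tm.const n0) (Tm.var 0)).not.S1 ?_)
  refine S1.ex (S1.and (D0.and (Str_D0 (Tm.var 0) (Tm.var 1))
    (Ini_D0 (Tm.var 0) h2.tail.tail.tail)).S1 ?_)
  refine S1.or (Node_D0 hEN h1.tail.tail.tail (Tm.var 0)).not.S1 ?_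
  refine S1.bex h1.tail.tail.tail (S1.ex (S1.ex (S1.and ?_ (S1.or (S1.and ?_ ?_)
    (S1.and ?_ ?_)))))
  · exact (Ins_D0'' hEN (Tm.var 2) (Tm.const e) (Tm.var 3) (Tm.var 1) (Tm.var 0)).S1
  · exact (Ini_D0 (Tm.var 1) h2.tail.tail.tail.tail.tail.tail).S1
  · exact Agr_S1 hD0 hD1 hB (Tm.var 1) (Tm.var 0)
  · exact (Ini_D0 (Tm.var 0) h2.tail.tail.tail.tail.tail.tail).S1
  · exact Agr_S1 hD0 hD1 hB (Tm.var 0) (Tm.var 1)

theorem agr_pre {G0 G1 : N.M → N.M → Prop} (hG : TFun G0 G1) {Y : Set N.M} {α β : N.M}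
    (h : Agr G0 G1 {x | V G1 Y x} α β) (hβ : Pre Y β) : False := by
  obtain ⟨x, ⟨h1, h2, h3⟩ | ⟨h1, h2, h3⟩⟩ := h
  · exact V_excl hG ⟨β, hβ, h2⟩ h3
  · exact h3 ⟨β, hβ, h2⟩

theorem good_sound {E : Set N.M} (hEN : E ∈ N.Sets) (hE : IsE E) {G0 G1 : N.M → N.M → Prop}
    (hG : TFun G0 G1) {e ν0 n0 s δ : N.M} {Y : Set N.M} (hYN : Y ∈ N.Sets) (hY : Obey E Y)
    (hν0 : Str ν0 n0) (hN0 : FN E ν0) (hp0 : Pre Y ν0)
    (hg : Good G0 G1 E {x | V G1 Y x} e ν0 n0 s δ) : Pre Y δ := by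
  obtain ⟨⟨hδN, hδi⟩, n, hδn, hg⟩ := hg
  have key : ∀ m, m ≤ n → ∃ ν k, ((Ini ν δ ∧ Pre Y ν) ∧ (Node E s ν ∧ Ini ν0 ν)) ∧
      (Str ν k ∧ m ≤ k) := by
    intro m
    refine ind_S1 (P := fun m => m ≤ n → ∃ ν k, ((Ini ν δ ∧ Pre Y ν) ∧ (Node E s ν ∧
      Ini ν0 ν)) ∧ (Str ν k ∧ m ≤ k)) ?_ ?_ ?_ m
    · refine S1.congr (R := fun v => ¬ v 0 ≤ n ∨ ∃ ν k, ((Ini ν δ ∧ Pre Y ν) ∧ (Node E s ν ∧
        Ini ν0 ν)) ∧ (Str ν k ∧ v 0 ≤ k)) ?_ fun v => imp_iff_not_or.symm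
      refine S1.or (D0.le (Tm.var 0) (Tm.const n)).not.S1 (S1.ex (S1.ex (D0.S1
        (D0.and (D0.and (D0.and ?_ ?_) (D0.and ?_ ?_)) (D0.and ?_ ?_)))))
      · exact Ini_D0 (Tm.var 1) (Tm.const δ)
      · exact Pre_D0 hYN (Tm.var 1)
      · exact Node_D0 hEN (Tm.const s) (Tm.var 1)
      · exact Ini_D0 (Tm.const ν0) (Tm.var 1)
      · exact Str_D0 (Tm.var 1) (Tm.var 0)
      · exact D0.le (Tm.var 2) (Tm.var 0)
    · intro _
      exact ⟨ν0, n0, ⟨⟨hδi, hp0⟩, hN0 s, Ini.refl hν0.sq⟩, hν0, zero_le' _⟩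
    · intro m ih hm
      obtain ⟨ν, k, ⟨⟨h1, h2⟩, h3, h4⟩, h5, h6⟩ := ih ((lt_succ'' m).le.trans hm)
      by_cases hmk : m + 1 ≤ k
      · exact ⟨ν, k, ⟨⟨h1, h2⟩, h3, h4⟩, h5, hmk⟩
      · have hkm : k = m := by
          refine le_antisymm ?_ h6
          exact lt_add_one_iff'.1 (not_le.1 hmk)
        subst hkm
        have hkn : k < n := add_one_le_iff'.1 hm
        have hnk : n0 ≤ k := h4.len_le hν0.1 h5.1
        rcases hg k hkn with hg | ⟨ν', ⟨h7, h8⟩, hg⟩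
        · exact absurd hnk hg
        · have hνν : ν' = ν := res_unique h7.1 h5.1 h8 h1
          subst hνν
          rcases hg with hg | ⟨t, ht, α, β, hi, hg⟩
          · exact absurd h3 hg
          · obtain ⟨α', β', hc⟩ := exists_cur hEN hE s h5
            obtain ⟨hNα, hNβ⟩ := cur_node hE h5 h3 hc
            obtain ⟨⟨l1, hl1, hα1⟩, ⟨l2, hl2, hβ1⟩⟩ := cur_len hc
            obtain ⟨ha, hb⟩ := hc.2.1 t e α β ht hi
            obtain ⟨n', y, ⟨h9, -⟩, ⟨hsα, hsβ⟩, -⟩ := hE.act hi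
            have hn' : n' = k := h9.unique h5
            subst hn'
            have hνδ : ν' ≠ δ := fun e => by
              subst e
              exact absurd (h5.unique hδn) hkn.ne
            rcases hg with ⟨hαδ, hagr⟩ | ⟨hβδ, hagr⟩
            · have hpα : Pre Y α := by
                rcases hY _ _ _ _ _ hi h2 with h | h
                · exact h
                · exact (agr_pre hG hagr h).elim
              have hpα' : Pre Y α' := by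
                rcases cur_obey hY h5 hc h2 with h | h
                · exact h
                · exact (hpα.conflict h hsα.2.2 hc.1.2.2.2).elim
              refine ⟨α', l1, ⟨⟨?_, hpα'⟩, hNα, h4.trans hc.1.1.2.1⟩, hα1,
                add_one_le_iff'.2 hl1⟩
              rcases hc.2.2 with ⟨t', e', ht', hi'⟩ | ⟨h, _⟩
              · rcases hδN.use ht' hi' h1 hνδ with h | h
                · exact h
                · exact (side_conflict hsα hc.1.2 hαδ h hδn).elim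
              · obtain ⟨⟨j, _, hj⟩, _⟩ := id hsα
                have : α = α' := by
                  have e1 : j = n' + 1 := le_antisymm (ha.len_le hj.1 h.1)
                    (add_one_le_iff'.2 (hj.1.lt hsα.2.2))
                  subst e1
                  exact ha.eq hj.1 h.1
                rw [← this]; exact hαδ
            · have hpβ : Pre Y β := by
                rcases hY _ _ _ _ _ hi h2 with h | h
                · exact (agr_pre hG hagr h).elim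
                · exact h
              have hpβ' : Pre Y β' := by
                rcases cur_obey hY h5 hc h2 with h | h
                · exact (h.conflict hpβ hc.1.1.2.2 hsβ.2.2).elim
                · exact h
              refine ⟨β', l2, ⟨⟨?_, hpβ'⟩, hNβ, h4.trans hc.1.2.2.1⟩, hβ1,
                add_one_le_iff'.2 hl2⟩
              rcases hc.2.2 with ⟨t', e', ht', hi'⟩ | ⟨_, h⟩
              · rcases hδN.use ht' hi' h1 hνδ with h | h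
                · exact (side_conflict hc.1.1 hsβ h hβδ hδn).elim
                · exact h
              · obtain ⟨⟨j, _, hj⟩, _⟩ := id hsβ
                have : β = β' := by
                  have e1 : j = n' + 1 := le_antisymm (hb.len_le hj.1 h.1)
                    (add_one_le_iff'.2 (hj.1.lt hsβ.2.2))
                  subst e1
                  exact hb.eq hj.1 h.1
                rw [← this]; exact hβδ
  obtain ⟨ν, k, ⟨⟨h1, h2⟩, -⟩, h5, h6⟩ := key n le_rfl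
  have hk : k = n := le_antisymm (h1.len_le h5.1 hδn.1) h6
  subst hk
  rw [← h1.eq h5.1 hδn.1]
  exact h2

theorem good_complete {E : Set N.M} (hEN : E ∈ N.Sets) (hE : IsE E) {G0 G1 : N.M → N.M → Prop}
    (hG : TFun G0 G1) {e ν0 n0 : N.M} (he : ∀ z, Spl G0 G1 z ↔ ∃ y, Um e z y) {Y : Set N.M}
    (hYN : Y ∈ N.Sets) (hY : Obey E Y) (hν0 : Str ν0 n0) (hN0 : FN E ν0) (hp0 : Pre Y ν0)
    (hact : ∀ ν, FN E ν → Pre Y ν → Ini ν0 ν → ∃ t α β, Ins E t e ν α β) (m : N.M) :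
    ∃ s δ n, Good G0 G1 E {x | V G1 Y x} e ν0 n0 s δ ∧ Pre Y δ ∧ Str δ n ∧ m ≤ n := by
  obtain ⟨δ, n, h1, h2, h3, h4⟩ := final_along hEN hE hYN hY (max m n0)
  have hn0 : n0 ≤ n := (le_max_right _ _).trans h4
  obtain ⟨s, hs⟩ := settle hEN hE n
  refine ⟨s, δ, n, ⟨⟨h2 s, hp0.comp h1 hν0 h3 hn0⟩, n, h3, fun k hk => ?_⟩, h1, h3,
    (le_max_left _ _).trans h4⟩
  by_cases hn0k : n0 ≤ k
  swap
  · exact Or.inl hn0k
  right
  obtain ⟨ν, hν, hνi⟩ := str_res h3 hk.le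
  refine ⟨ν, ⟨hν, hνi⟩, ?_⟩
  by_cases hNs : Node E s ν
  swap
  · exact Or.inl hNs
  right
  have hFN : FN E ν := by
    intro s' t ht e' he' ν' hν' α hα β hβ hi hini hne
    obtain ⟨j, y, ⟨hj, -⟩, -⟩ := hE.act hi
    exact hNs.use (hs t e' ν' α β j hi hj ((Ini.lt_len hini hne hj hν).le.trans hk.le)) hi
      hini hne
  have hpν : Pre Y ν := h1.ini hνi
  obtain ⟨t, α, β, hi⟩ := hact ν hFN hpν (hp0.comp hpν hν0 hν hn0k)
  refine ⟨t, hs t e ν α β k hi hν hk.le, α, β, hi, ?_⟩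
  obtain ⟨n', y, -, ⟨hsα, hsβ⟩, -, -, hU⟩ := hE.act hi
  obtain ⟨x, hx⟩ := spl_pr.1 ((he _).2 ⟨y, hU⟩)
  have hνδ : ν ≠ δ := fun e => by
    subst e
    exact absurd (hν.unique h3) hk.ne
  have hside := (h2 s).use (hs t e ν α β k hi hν hk.le) hi hνi hνδ
  rcases hY _ _ _ _ _ hi hpν with hp | hp
  · left
    refine ⟨?_, x, ?_⟩
    · rcases hside with h | h
      · exact h
      · exact (hp.conflict (h1.ini h) hsα.2.2 hsβ.2.2).elim
    · rcases hx with ⟨h5, h6⟩ | ⟨h5, h6⟩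
      · exact Or.inr ⟨h5, h6, fun hV => V_excl hG ⟨α, hp, h5⟩ hV⟩
      · exact Or.inl ⟨h5, h6, α, hp, h5⟩
  · right
    refine ⟨?_, x, ?_⟩
    · rcases hside with h | h
      · exact ((h1.ini h).conflict hp hsα.2.2 hsβ.2.2).elim
      · exact h
    · rcases hx with ⟨h5, h6⟩ | ⟨h5, h6⟩
      · exact Or.inl ⟨h6, h5, β, hp, h6⟩
      · exact Or.inr ⟨h6, h5, fun hV => V_excl hG ⟨β, hp, h6⟩ hV⟩

/-- second case of the dichotomy: the set is computable from the value -/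
theorem caseB {E : Set N.M} (hEN : E ∈ N.Sets) (hE : IsE E) {G0 G1 : N.M → N.M → Prop}
    (hG : TFun G0 G1) {e ν0 n0 : N.M} (he : ∀ z, Spl G0 G1 z ↔ ∃ y, Um e z y) {Y : Set N.M}
    (hYN : Y ∈ N.Sets) (hY : Obey E Y) (hν0 : Str ν0 n0) (hN0 : FN E ν0) (hp0 : Pre Y ν0)
    (hact : ∀ ν, FN E ν → Pre Y ν → Ini ν0 ν → ∃ t α β, Ins E t e ν α β) (i : N.M) :
    (i ∈ Y ↔ ∃ s δ, Good G0 G1 E {x | V G1 Y x} e ν0 n0 s δ ∧ MemC (pr i 1) δ) ∧
    (i ∉ Y ↔ ∃ s δ, Good G0 G1 E {x | V G1 Y x} e ν0 n0 s δ ∧ MemC (pr i 0) δ) := by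
  constructor
  · constructor
    · intro hi
      obtain ⟨s, δ, n, h1, h2, h3, h4⟩ := good_complete hEN hE hG he hYN hY hν0 hN0 hp0 hact
        (i + 1)
      exact ⟨s, δ, h1, (h2.bit h3 (add_one_le_iff'.1 h4)).1 hi⟩
    · rintro ⟨s, δ, h1, h2⟩
      exact ((good_sound hEN hE hG hYN hY hν0 hN0 hp0 h1).2 i).1 h2
  · constructor
    · intro hi
      obtain ⟨s, δ, n, h1, h2, h3, h4⟩ := good_complete hEN hE hG he hYN hY hν0 hN0 hp0 hact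
        (i + 1)
      exact ⟨s, δ, h1, (h2.bit h3 (add_one_le_iff'.1 h4)).2 hi⟩
    · rintro ⟨s, δ, h1, h2⟩
      exact ((good_sound hEN hE hG hYN hY hν0 hN0 hp0 h1).2 i).2 h2

end Pool.Agent.Helper116.Min
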