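import Mathlib
import Pool.Agent.Helper116_Min.Dich

/-!
The use principle for bounded formulas with one set parameter, transitivity of relative
computability, and the fact that the paths are not computable.
-/

namespace Pool.Agent.Helper116.Min

open Pool.Agent.Helper617.RM

universe u

set_option linter.unusedSectionVars false
set_option linter.unusedVariables false

variable {N : L2Structure.{u}}

theorem tm_other (X X' : Set (Set N.M)) (t : Term (withSets N X)) :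
    Tm (N := withSets N X') (fun v => (t.val v : N.M)) := by
  induction t with
  | var i => exact Tm.var i
  | const a => exact ⟨.const a, fun _ => rfl⟩
  | zero => exact ⟨.zero, fun _ => rfl⟩
  | one => exact ⟨.one, fun _ => rfl⟩
  | add s t hs ht =>
    obtain ⟨σ, hσ⟩ := hs
    obtain ⟨τ, hτ⟩ := ht
    exact ⟨.add σ τ, fun v => by simp only [Term.val, hσ, hτ]⟩
  | mul s t hs ht =>
    obtain ⟨σ, hσ⟩ := hs
    obtain ⟨τ, hτ⟩ := ht
    exact ⟨.mul σ τ, fun v => by simp only [Term.val, hσ, hτ]⟩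

section

variable [IsModelRCA0 N]

/-- truth of a bounded formula with the oracle replaced by a string -/
def H {X : Set (Set N.M)} : Delta0 (withSets N X) → N.M → Ctx N → Prop
  | .eq s t, _, v => s.val v = t.val v
  | .lt s t, _, v => N.lt (s.val v) (t.val v)
  | .mem t _, σ, v => MemC (N := N) (pr (N := N) (t.val v) 1) σ
  | .neg φ, σ, v => ¬ H φ σ v
  | .and φ ψ, σ, v => H φ σ v ∧ H ψ σ v
  | .ball t φ, σ, v => ∀ a : N.M, N.lt a (t.val v) → H φ σ (cons a v)

/-- all queries are below `m` -/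
def Qb {X : Set (Set N.M)} : Delta0 (withSets N X) → N.M → Ctx N → Prop
  | .eq _ _, _, _ => True
  | .lt _ _, _, _ => True
  | .mem t _, m, v => N.lt (t.val v) m
  | .neg φ, m, v => Qb φ m v
  | .and φ ψ, m, v => Qb φ m v ∧ Qb ψ m v
  | .ball t φ, m, v => ∀ a : N.M, N.lt a (t.val v) → Qb φ m (cons a v)

theorem Qb.mono {X : Set (Set N.M)} (φ : Delta0 (withSets N X)) : ∀ {m m' : N.M} {v : Ctx N},
    m ≤ m' → Qb φ m v → Qb φ m' v := by
  induction φ with
  | eq s t => intro _ _ _ _ _; trivial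
  | lt s t => intro _ _ _ _ _; trivial
  | mem t Y =>
    intro m m' v h hq
    exact lt_of_lt_of_le (α := N.M) (b := m) hq h
  | neg φ ih => intro m m' v h hq; exact ih h hq
  | and φ ψ ih1 ih2 => intro m m' v h hq; exact ⟨ih1 h hq.1, ih2 h hq.2⟩
  | ball t φ ih => intro m m' v h hq a ha; exact ih h (hq a ha)

theorem use_pre {A : Set N.M} (φ : Delta0 (withSets N {A})) {σ m : N.M} (hσ : Str σ m)
    (hp : Pre A σ) : ∀ {v : Ctx N}, Qb φ m v → (φ.Holds v ↔ H φ σ v) := by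
  induction φ with
  | eq s t => intro v _; exact Iff.rfl
  | lt s t => intro v _; exact Iff.rfl
  | mem t Y =>
    intro v hq
    have hY : (Y : Set N.M) = A := Y.2
    show (t.val v : N.M) ∈ (Y : Set N.M) ↔ _
    rw [hY]
    exact ⟨fun h => (hp.bit hσ hq).1 h, fun h => (hp.2 _).1 h⟩
  | neg φ ih => intro v hq; exact not_congr (ih hq)
  | and φ ψ ih1 ih2 => intro v hq; exact and_congr (ih1 hq.1) (ih2 hq.2)
  | ball t φ ih =>
    intro v hq
    exact forall_congr' fun a => imp_congr_right fun ha => ih (hq a ha)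

theorem use_ini {A : Set N.M} (φ : Delta0 (withSets N {A})) {σ τ m : N.M} (hσ : Str σ m)
    (hi : Ini σ τ) (hτ : ∃ k, Str τ k) : ∀ {v : Ctx N}, Qb φ m v → (H φ σ v ↔ H φ τ v) := by
  induction φ with
  | eq s t => intro v _; exact Iff.rfl
  | lt s t => intro v _; exact Iff.rfl
  | mem t Y =>
    intro v hq
    obtain ⟨k, hk⟩ := hτ
    constructor
    · exact fun h => hi.mem h
    · intro h
      rcases Str.bit (N := N) (i := t.val v) hσ hq with h' | h'
      · exact (hk.bit_ne (hi.mem h') h).elim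
      · exact h'
  | neg φ ih => intro v hq; exact not_congr (ih hq)
  | and φ ψ ih1 ih2 => intro v hq; exact and_congr (ih1 hq.1) (ih2 hq.2)
  | ball t φ ih =>
    intro v hq
    exact forall_congr' fun a => imp_congr_right fun ha => ih (hq a ha)

/-- tuples: the first entry is the additional parameter -/
theorem H_D0 {X X' : Set (Set N.M)} [IsModelRCA0 (withSets N X')] (φ : Delta0 (withSets N X)) :
    D0 (N := withSets N X') (fun w => H φ (w 0) (tail w)) := by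
  induction φ with
  | eq s t =>
    exact D0.eq (N := withSets N X') (Tm.tail (tm_other X X' s)) (Tm.tail (tm_other X X' t))
  | lt s t =>
    exact D0.lt (N := withSets N X') (Tm.tail (tm_other X X' s)) (Tm.tail (tm_other X X' t))
  | mem t Y =>
    exact MemC_D0 (N := withSets N X') (Tm.pr (Tm.tail (tm_other X X' t)) Tm.one) (Tm.var 0)
  | neg φ ih => exact D0.not ih
  | and φ ψ ih1 ih2 => exact D0.and ih1 ih2
  | ball t φ ih =>
    exact D0.ball (N := withSets N X') (t := fun w => t.val (tail w))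
      (P := fun w a => H φ (w 0) (cons a (tail w))) (Tm.tail (tm_other X X' t))
      (D0.comp ih (g := fun w => cons (w 1) (cons (w 0) (tail (tail w))))
        (CM.cons (Tm.var 1) (CM.cons (Tm.var 0) CM.tail.tail')))

theorem Qb_D0 {X X' : Set (Set N.M)} [IsModelRCA0 (withSets N X')] (φ : Delta0 (withSets N X)) :
    D0 (N := withSets N X') (fun w => Qb φ (w 0) (tail w)) := by
  induction φ with
  | eq s t => exact D0.true
  | lt s t => exact D0.true
  | mem t Y =>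
    exact D0.lt (N := withSets N X') (Tm.tail (tm_other X X' t)) (Tm.var 0)
  | neg φ ih => exact ih
  | and φ ψ ih1 ih2 => exact D0.and ih1 ih2
  | ball t φ ih =>
    exact D0.ball (N := withSets N X') (t := fun w => t.val (tail w))
      (P := fun w a => Qb φ (w 0) (cons a (tail w))) (Tm.tail (tm_other X X' t))
      (D0.comp ih (g := fun w => cons (w 1) (cons (w 0) (tail (tail w))))
        (CM.cons (Tm.var 1) (CM.cons (Tm.var 0) CM.tail.tail')))

theorem Qb_exists {X : Set (Set N.M)} (φ : Delta0 (withSets N X)) :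
    ∀ v : Ctx N, ∃ m : N.M, Qb φ m v := by
  induction φ with
  | eq s t => intro v; exact ⟨0, trivial⟩
  | lt s t => intro v; exact ⟨0, trivial⟩
  | mem t Y => intro v; exact ⟨(t.val v : N.M) + 1, lt_succ'' (N := N) (t.val v)⟩
  | neg φ ih => intro v; exact ih v
  | and φ ψ ih1 ih2 =>
    intro v
    obtain ⟨m, hm⟩ := ih1 v
    obtain ⟨m', hm'⟩ := ih2 v
    exact ⟨max m m', Qb.mono φ (le_max_left _ _) hm, Qb.mono ψ (le_max_right _ _) hm'⟩
  | ball t φ ih =>
    intro v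
    have : IsModelRCA0 (withSets N N.Sets) := (inferInstance : IsModelRCA0 N)
    have hD : D0 (N := N) (fun w => Qb φ (w 0) (cons (w 1) v)) :=
      D0.comp (Qb_D0 (N := N) (X' := N.Sets) φ) (g := fun w => cons (w 0) (cons (w 1) v))
        (CM.cons (Tm.var 0) (CM.cons (Tm.var 1) fun i => Tm.const _))
    obtain ⟨b, hb⟩ := bounding (N := N) (Q := fun a m => Qb φ m (cons a v)) hD (t.val v)
      (fun a _ => ih (cons a v))
    refine ⟨b, fun a ha => ?_⟩
    obtain ⟨m, hm, h⟩ := hb a ha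
    exact Qb.mono φ hm.le h

/-- the functional given by a bounded search: value `1` -/
def P1 {X : Set (Set N.M)} (θ : Delta0 (withSets N X)) (v0 : Ctx N) (y σ x : N.M) : Prop :=
  ∃ n, n ≤ σ ∧ (Str σ n ∧ ((∀ k, k < y → Qb θ n (cons k (cons x v0))) ∧
    ∃ k, k < y ∧ H θ σ (cons k (cons x v0))))

/-- value `0` -/
def P0 {X : Set (Set N.M)} (θ : Delta0 (withSets N X)) (v0 : Ctx N) (y σ x : N.M) : Prop :=
  ∃ n, n ≤ σ ∧ (Str σ n ∧ ((∀ k, k < y → Qb θ n (cons k (cons x v0))) ∧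
    ¬ ∃ k, k < y ∧ H θ σ (cons k (cons x v0))))

theorem P_D0 {X X' : Set (Set N.M)} [IsModelRCA0 (withSets N X')] (θ : Delta0 (withSets N X))
    (v0 : Ctx N) : D0 (N := withSets N X') (fun w => P1 θ v0 (w 0) (w 1) (w 2)) ∧
      D0 (N := withSets N X') (fun w => P0 θ v0 (w 0) (w 1) (w 2)) := by
  have hQ : D0 (N := withSets N X') (fun w => ∀ k : (withSets N X').M, k < w 1 →
      Qb θ (w 0) (cons k (cons (w 3) v0))) :=
    D0.ball (N := withSets N X') (t := fun w => w 1)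
      (P := fun w k => Qb θ (w 0) (cons k (cons (w 3) v0))) (Tm.var 1)
      (D0.comp (Qb_D0 (N := N) (X' := X') θ)
        (g := fun w => cons (w 1) (cons (w 0) (cons (w 4) v0)))
        (CM.cons (Tm.var 1) (CM.cons (Tm.var 0) (CM.cons (Tm.var 4) fun i => Tm.const _))))
  have hH : D0 (N := withSets N X') (fun w => ∃ k : (withSets N X').M, k < w 1 ∧
      H θ (w 2) (cons k (cons (w 3) v0))) :=
    D0.bex (N := withSets N X') (t := fun w => w 1)
      (P := fun w k => H θ (w 2) (cons k (cons (w 3) v0))) (Tm.var 1)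
      (D0.comp (H_D0 (N := N) (X' := X') θ)
        (g := fun w => cons (w 3) (cons (w 0) (cons (w 4) v0)))
        (CM.cons (Tm.var 3) (CM.cons (Tm.var 0) (CM.cons (Tm.var 4) fun i => Tm.const _))))
  have hS : D0 (N := withSets N X') (fun w => Str (N := withSets N X') (w 2) (w 0)) :=
    Str_D0 (Tm.var 2) (Tm.var 0)
  exact ⟨D0.bexLe (N := withSets N X') (t := fun w => w 1)
      (P := fun w n => Str (N := withSets N X') (w 1) n ∧
        ((∀ k : (withSets N X').M, k < w 0 → Qb θ n (cons k (cons (w 2) v0))) ∧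
          ∃ k : (withSets N X').M, k < w 0 ∧ H θ (w 1) (cons k (cons (w 2) v0))))
      (Tm.var 1) (D0.and hS (D0.and hQ hH)),
    D0.bexLe (N := withSets N X') (t := fun w => w 1)
      (P := fun w n => Str (N := withSets N X') (w 1) n ∧
        ((∀ k : (withSets N X').M, k < w 0 → Qb θ n (cons k (cons (w 2) v0))) ∧
          ¬ ∃ k : (withSets N X').M, k < w 0 ∧ H θ (w 1) (cons k (cons (w 2) v0))))
      (Tm.var 1) (D0.and hS (D0.and hQ (D0.not hH)))⟩

theorem D0.comp_fun3 {P : N.M → N.M → N.M → Prop} (hP : D0 (fun w => P (w 0) (w 1) (w 2)))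
    {g : N.M → N.M} (hg : D0 (fun w => w 1 = g (w 0))) :
    D0 (fun w => P (g (w 1)) (w 0) (w 1)) := by
  refine d0_of_D1 (R := fun σ x => P (g x) σ x) ?_ ?_
  · refine S1.congr (R := fun w => ∃ y, y = g (w 1) ∧ P y (w 0) (w 1)) ?_ fun w => by simp
    exact S1.ex (D0.S1 (D0.and (D0.rel (R := fun k x => x = g k) hg (Tm.var 2) (Tm.var 0))
      (D0.comp3 hP (Tm.var 0) (Tm.var 1) (Tm.var 2))))
  · refine S1.congr (R := fun w => ∃ y, y = g (w 1) ∧ ¬ P y (w 0) (w 1)) ?_ fun w => by simp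
    exact S1.ex (D0.S1 (D0.and (D0.rel (R := fun k x => x = g k) hg (Tm.var 2) (Tm.var 0))
      (D0.comp3 hP (Tm.var 0) (Tm.var 1) (Tm.var 2)).not))

theorem P_fun_D0 {X X' : Set (Set N.M)} [IsModelRCA0 (withSets N X')]
    (θ : Delta0 (withSets N X)) (v0 : Ctx N) {g : N.M → N.M}
    (hg : D0 (N := withSets N X') (fun w => w 1 = g (w 0))) :
    D0 (N := withSets N X') (fun w => P1 θ v0 (g (w 1)) (w 0) (w 1)) ∧
      D0 (N := withSets N X') (fun w => P0 θ v0 (g (w 1)) (w 0) (w 1)) :=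
  ⟨D0.comp_fun3 (N := withSets N X') (P_D0 θ v0).1 hg,
    D0.comp_fun3 (N := withSets N X') (P_D0 θ v0).2 hg⟩

theorem tfun {A : Set N.M} (θ : Delta0 (withSets N {A})) (v0 : Ctx N) (g : N.M → N.M) :
    TFun (fun σ x => P0 θ v0 (g x) σ x) (fun σ x => P1 θ v0 (g x) σ x) where
  mono0 := by
    rintro σ τ x hi ⟨k, hk⟩ ⟨n, -, hn, hq, hH⟩
    refine ⟨k, hk.le, hk, fun j hj => Qb.mono θ (hi.len_le hn.1 hk.1) (hq j hj), ?_⟩
    rintro ⟨j, hj, h⟩
    exact hH ⟨j, hj, (use_ini θ hn hi ⟨k, hk⟩ (hq j hj)).2 h⟩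
  mono1 := by
    rintro σ τ x hi ⟨k, hk⟩ ⟨n, -, hn, hq, j, hj, h⟩
    exact ⟨k, hk.le, hk, fun j hj => Qb.mono θ (hi.len_le hn.1 hk.1) (hq j hj), j, hj,
      (use_ini θ hn hi ⟨k, hk⟩ (hq j hj)).1 h⟩
  excl := by
    rintro σ x ⟨n, -, -, -, h⟩ ⟨n', -, -, -, h'⟩
    exact h h'
  str0 := by
    rintro σ x ⟨n, -, hn, -⟩
    exact ⟨n, hn⟩
  str1 := by
    rintro σ x ⟨n, -, hn, -⟩
    exact ⟨n, hn⟩
  total := by
    intro x
    have : IsModelRCA0 (withSets N N.Sets) := (inferInstance : IsModelRCA0 N)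
    have hD : D0 (N := N) (fun w => Qb θ (w 0) (cons (w 1) (cons x v0))) :=
      D0.comp (Qb_D0 (N := N) (X' := N.Sets) θ)
        (g := fun w => cons (w 0) (cons (w 1) (cons x v0)))
        (CM.cons (Tm.var 0) (CM.cons (Tm.var 1) (CM.cons (Tm.const x) fun i => Tm.const _)))
    obtain ⟨b, hb⟩ := bounding (N := N) (Q := fun a m => Qb θ m (cons a (cons x v0))) hD (g x)
      (fun a _ => Qb_exists θ _)
    refine ⟨b, fun σ k hσ hk => ?_⟩
    have hq : ∀ j, j < g x → Qb θ k (cons j (cons x v0)) := by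
      intro j hj
      obtain ⟨m, hm, h⟩ := hb j hj
      exact Qb.mono θ (hm.le.trans hk) h
    by_cases h : ∃ j, j < g x ∧ H θ σ (cons j (cons x v0))
    · exact Or.inr ⟨k, hσ.le, hσ, hq, h⟩
    · exact Or.inl ⟨k, hσ.le, hσ, hq, h⟩

theorem V_iff {A : Set N.M} (hA : A ∈ N.Sets) (θ : Delta0 (withSets N {A})) (v0 : Ctx N)
    (g : N.M → N.M) (x : N.M) : V (fun σ x => P1 θ v0 (g x) σ x) A x ↔
      ∃ k : N.M, k < g x ∧ θ.Holds (cons k (cons x v0)) := by
  constructor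
  · rintro ⟨σ, hp, n, -, hn, hq, k, hk, h⟩
    exact ⟨k, hk, (use_pre θ hn hp (hq k hk)).2 h⟩
  · rintro ⟨k, hk, h⟩
    obtain ⟨m, hm⟩ := (tfun θ v0 g).total x
    obtain ⟨σ, hσ, hp⟩ := exists_pre hA m
    rcases hm σ m hσ le_rfl with ⟨n, -, hn, hq, h'⟩ | h'
    · exact absurd ⟨k, hk, (use_pre θ hn hp (hq k hk)).1 h⟩ h'
    · exact ⟨σ, hp, h'⟩

/-! ### transitivity -/

theorem cl_trans {X X' : Set (Set N.M)} (h : X ⊆ N.Sets) (h' : X' ⊆ Cl N X) :
    Cl N X' ⊆ Cl N X := by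
  intro Y hY
  obtain ⟨⟨Q, hQ, h1⟩, ⟨Q', hQ', h2⟩⟩ := isDelta1_iff.1 hY
  exact isDelta1_iff.2 ⟨cl_S1 h (WD0.lift (N := withSets N (Cl N X)) h' hQ) h1,
    cl_S1 h (WD0.lift (N := withSets N (Cl N X)) h' hQ') h2⟩

/-! ### the paths are not computable -/

/-- both entries of the pair are incompatible with `C` -/
def Off (C : Set N.M) (z : N.M) : Prop := ∃ α β, z = pr α β ∧ (¬ Pre C α ∧ ¬ Pre C β)

theorem Off_D0 {C : Set N.M} (hC : C ∈ N.Sets) : D0 (fun v : Ctx N => Off C (v 0)) := by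
  refine D0.exB (Tm.var 0) ?_ (D0.exB (Tm.var 1) ?_ (D0.and ?_ (D0.and ?_ ?_)))
  · rintro v a ⟨b, h, -⟩
    rw [h]; exact fst_le_pr _ _
  · rintro v b ⟨h, -⟩
    show b ≤ v 1
    rw [show v 1 = _ from h]; exact snd_le_pr _ _
  · exact D0.eq (Tm.var 2) ((Tm.var 1).pr (Tm.var 0))
  · exact (Pre_D0 hC (Tm.var 1)).not
  · exact (Pre_D0 hC (Tm.var 0)).not

theorem off_pr {C : Set N.M} {α β : N.M} : Off C (pr α β) ↔ ¬ Pre C α ∧ ¬ Pre C β := by
  constructor
  · rintro ⟨α', β', e, h⟩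
    obtain ⟨rfl, rfl⟩ := pr_inj e
    exact h
  · intro h; exact ⟨α, β, rfl, h⟩

theorem obey_ne {E : Set N.M} (hEN : E ∈ N.Sets) (hE : IsE E) {C : Set N.M} {e : N.M}
    (he : ∀ z, Off C z ↔ ∃ y, Um e z y) {Y : Set N.M} (hYN : Y ∈ N.Sets) (hY : Obey E Y) :
    Y ≠ C := by
  intro hYC
  obtain ⟨ν, n, h1, h2, h3, h4⟩ := final_along hEN hE hYN hY e
  obtain ⟨α, β, hs, ⟨hα, hβ⟩, hlast, -⟩ := final_succ hEN hE h3 h2
  by_cases hact : ∃ t α β, Ins E t e ν α β
  · obtain ⟨t, α', β', hi⟩ := hact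
    obtain ⟨n', y, -, -, -, -, hU⟩ := hE.act hi
    obtain ⟨h5, h6⟩ := off_pr.1 ((he _).2 ⟨y, hU⟩)
    rcases hY _ _ _ _ _ hi h1 with h | h
    · exact h5 (hYC ▸ h)
    · exact h6 (hYC ▸ h)
  · obtain ⟨⟨k, _, hk⟩, _⟩ := id hs.1
    obtain ⟨⟨k', _, hk'⟩, _⟩ := id hs.2
    have key : ∀ γ k, Str γ k → FN E γ → ∃ γ' m, Ini γ γ' ∧ FN E γ' ∧ Str γ' m ∧ ¬ Pre C γ' := by
      intro γ k hk hγ
      obtain ⟨a, b, hs, ⟨ha, hb⟩, -, -⟩ := final_succ hEN hE hk hγ
      obtain ⟨⟨m, _, hm⟩, _⟩ := id hs.1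
      obtain ⟨⟨m', _, hm'⟩, _⟩ := id hs.2
      by_cases h : Pre C a
      · refine ⟨b, m', hs.2.2.1, hb, hm', fun h' => h.conflict h' hs.1.2.2 hs.2.2.2⟩
      · exact ⟨a, m, hs.1.2.1, ha, hm, h⟩
    obtain ⟨α', m, a1, a2, a3, a4⟩ := key α k hk hα
    obtain ⟨β', m', b1, b2, b3, b4⟩ := key β k' hk' hβ
    obtain ⟨y, hy⟩ := (he _).1 (off_pr.2 ⟨a4, b4⟩)
    exact no_pair hE h3 h2 h4 (fun t α β hi => hact ⟨t, α, β, hi⟩) hs hlast a1 b1 a2 b2 a3 b3 hy

end

end Pool.Agent.Helper116.Min
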