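import Mathlib
import Pool.Agent.Helper116_Min.Use

/-!
The main theorem: weak König's lemma gives a computable tree all of whose paths satisfy the
dichotomy for truth-table reductions.
-/

namespace Pool.Agent.Helper116.Min

open Pool.Agent.Helper617.RM

universe u

set_option linter.unusedSectionVars false
set_option linter.unusedVariables false


variable {N : L2Structure.{u}} [IsModelRCA0 N]

theorem restr_iff {Y : Set N.M} {n s : N.M} : Restr N Y n s ↔ Str s n ∧ Pre Y s := by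
  unfold Restr
  rw [isCode_iff]
  constructor
  · rintro ⟨h1, h2⟩
    have h3 : ∀ i z, MemC (pr i z) s → i < n ∧ ((i ∈ Y ∧ z = 1) ∨ (i ∉ Y ∧ z = 0)) := by
      intro i z hz
      obtain ⟨j, hj, h | h⟩ := (h2 _).2 hz
      · obtain ⟨rfl, rfl⟩ := pr_inj (N := N) h.2
        exact ⟨hj, Or.inl ⟨h.1, rfl⟩⟩
      · obtain ⟨rfl, rfl⟩ := pr_inj (N := N) h.2
        exact ⟨hj, Or.inr ⟨h.1, rfl⟩⟩
    have hs : Str s n := by
      refine ⟨isSq_of h1 (fun r hr => ?_) (fun i hi => ?_) fun i z z' a b => ?_, fun r hr => ?_⟩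
      · obtain ⟨i, hi, h | h⟩ := (h2 _).2 hr
        · exact ⟨i, 1, hi, h.2⟩
        · exact ⟨i, 0, hi, h.2⟩
      · by_cases hY : i ∈ Y
        · exact ⟨1, (h2 _).1 ⟨i, hi, Or.inl ⟨hY, rfl⟩⟩⟩
        · exact ⟨0, (h2 _).1 ⟨i, hi, Or.inr ⟨hY, rfl⟩⟩⟩
      · rcases (h3 _ _ a).2 with ⟨h, e⟩ | ⟨h, e⟩ <;> rcases (h3 _ _ b).2 with ⟨h', e'⟩ | ⟨h', e'⟩
        · rw [e, e']
        · exact absurd h h'
        · exact absurd h' h
        · rw [e, e']
      · obtain ⟨i, hi, h | h⟩ := (h2 _).2 hr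
        · exact ⟨i, Or.inr h.2⟩
        · exact ⟨i, Or.inl h.2⟩
    refine ⟨hs, ⟨n, hs⟩, fun i => ⟨fun h => ?_, fun h => ?_⟩⟩
    · rcases (h3 _ _ h).2 with h' | h'
      · exact h'.1
      · exact absurd h'.2 one_ne_zero''
    · rcases (h3 _ _ h).2 with h' | h'
      · exact absurd h'.2.symm one_ne_zero''
      · exact h'.1
  · rintro ⟨hs, hp⟩
    refine ⟨hs.1.1, fun r => ⟨?_, fun hr => ?_⟩⟩
    · rintro ⟨i, hi, h | h⟩
      · rw [show r = pr i 1 from h.2]
        exact (hp.bit hs hi).1 h.1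
      · rw [show r = pr i 0 from h.2]
        exact (hp.bit hs hi).2 h.1
    · obtain ⟨i, z, hi, -⟩ := hs.1.mem hr
      obtain ⟨j, h | h⟩ := hs.2 r hr
      · rw [h] at hr
        exact ⟨j, hs.1.lt hr, Or.inr ⟨(hp.2 j).2 hr, h⟩⟩
      · rw [h] at hr
        exact ⟨j, hs.1.lt hr, Or.inl ⟨(hp.2 j).1 hr, h⟩⟩

/-- the set read off from a string -/
theorem pre_self {s n : N.M} (hs : Str s n) : Pre {i | MemC (pr i 1) s} s :=
  ⟨⟨n, hs⟩, fun i => ⟨fun h => h, fun h h' => hs.bit_ne h h'⟩⟩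

theorem wkl' (h : WKL N) : WKL' N := by
  intro T hT hcl hinf
  obtain ⟨Y, hY, hp⟩ := h {s | s ∈ T ∧ ∃ n, n ≤ s ∧ Str s n}
    (comp_D0 (P := fun s => s ∈ T ∧ ∃ n, n ≤ s ∧ Str s n) (D0.and (D0.mem (Tm.var 0) hT)
      (D0.bexLe (Tm.var 0) (Str_D0 (Tm.var 1) (Tm.var 0)))))
    { sub := by
        rintro s ⟨hs, n, -, hn⟩
        exact ⟨_, n, restr_iff.2 ⟨hn, pre_self hn⟩⟩
      closed := by
        rintro Y n m s s' ⟨hs, -⟩ h1 h2 h3
        obtain ⟨a1, a2⟩ := restr_iff.1 h1
        obtain ⟨b1, b2⟩ := restr_iff.1 h3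
        exact ⟨hcl s hs s' (b2.comp a2 b1 a1 (le_of_lt h2)), m, b1.le, b1⟩
      infinite := by
        intro n
        obtain ⟨s, hs, hn⟩ := hinf n
        exact ⟨_, s, ⟨hs, n, hn.le, hn⟩, restr_iff.2 ⟨hn, pre_self hn⟩⟩ }
  exact ⟨Y, hY, fun s n hs h => (hp n s (restr_iff.2 ⟨hs, h⟩)).1⟩

theorem empty_sub : (∅ : Set (Set N.M)) ⊆ N.Sets := Set.empty_subset _

theorem comp_mem {Y : Set N.M} (h : Computable N Y) : Y ∈ N.Sets := cl_sub empty_sub h

/-- graphs -/
theorem graph_D0 {X : Set (Set N.M)} (h : X ⊆ N.Sets) {g : N.M → N.M}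
    (hg : graph N g ∈ Cl N X) :
    D0 (N := withSets N (Cl N X)) (fun w => w 1 = g (w 0)) := by
  have := cl_model h
  refine D0.of_codeRel (N := withSets N (Cl N X)) (R := fun x y => y = g x) ?_
  have e : codeRel (N := withSets N (Cl N X)) (fun x y => y = g x) = graph N g := by
    ext p
    constructor
    · rintro ⟨x, y, h, e⟩
      exact ⟨x, by rw [← h]; exact e⟩
    · rintro ⟨x, e⟩
      exact ⟨x, g x, rfl, e⟩
  rw [e]
  exact hg

theorem graph_mem {X : Set (Set N.M)} (h : X ⊆ N.Sets) {g : N.M → N.M}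
    (hg : D0 (N := withSets N (Cl N X)) (fun w => w 1 = g (w 0))) : graph N g ∈ Cl N X := by
  have := cl_model h
  have h1 := codeRel_mem_D0 (N := withSets N (Cl N X)) (R := fun x y => y = g x) hg
  have e : codeRel (N := withSets N (Cl N X)) (fun x y => y = g x) = graph N g := by
    ext p
    constructor
    · rintro ⟨x, y, h, e⟩
      exact ⟨x, by rw [← h]; exact e⟩
    · rintro ⟨x, e⟩
      exact ⟨x, g x, rfl, e⟩
  rw [← e]
  exact h1

/-- every `Σ⁰₁` property of the model of the computable sets has an index -/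
theorem index_of_comp {R : N.M → Prop}
    (hR : S1 (N := withSets N (Cl N ∅)) (fun v => R (v 0))) :
    ∃ e : N.M, ∀ z, R z ↔ ∃ y, Um e z y := by
  obtain ⟨Q, hQ, h⟩ := hR
  exact exists_index (cl_S1 empty_sub hQ h)

/-- The tree: a computable infinite binary tree all of whose paths `A` are noncomputable and
such that every set truth-table reducible to `A` is computable or computes `A`. -/
theorem main_tree (hW : WKL N) :
    ∃ T : Set N.M, Computable N T ∧ IsBinTree N T ∧ ∀ A ∈ N.Sets, IsPath N T A →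
      ¬ Computable N A ∧ ∀ B, TTLE N B A → Computable N B ∨ TuringLE N A B := by
  have hM0 := cl_model (N := N) empty_sub
  obtain ⟨E, hE0, hE⟩ := exists_E (N := withSets N (Cl N ∅))
  have hE' : IsE (N := N) E := hE
  have hEN : E ∈ N.Sets := cl_sub empty_sub hE0
  have hW' := wkl' hW
  refine ⟨{δ | InT (N := N) E δ}, ?_, ?_, ?_⟩
  · exact comp_D0 (N := withSets N (Cl N ∅)) (P := fun δ => InT (N := withSets N (Cl N ∅)) E δ)
      (InT_D0 hE0 (Tm.var 0))
  · refine ⟨?_, ?_, ?_⟩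
    · rintro s ⟨n, -, hn, -⟩
      exact ⟨_, n, restr_iff.2 ⟨hn, pre_self hn⟩⟩
    · intro Y n m s s' hs h1 h2 h3
      obtain ⟨a1, a2⟩ := restr_iff.1 h1
      obtain ⟨b1, b2⟩ := restr_iff.1 h3
      exact inT_ini hE' hs (b2.comp a2 b1 a1 (le_of_lt h2))
    · intro n
      obtain ⟨r, hr⟩ := exists_str0 (N := N)
      obtain ⟨δ, h1, h2, h3⟩ := inT_above hEN hE' hr (fn_root hE' hr) n (zero_le' _)
      exact ⟨_, δ, h3, restr_iff.2 ⟨h1, pre_self h1⟩⟩
  · intro A hA hpath
    have hO : Obey E A := path_obey hE' hA fun s n hs hp => hpath n s (restr_iff.2 ⟨hs, hp⟩)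
    constructor
    · intro hC
      obtain ⟨e, he⟩ := index_of_comp (N := N) (R := fun z => Off (N := N) A z)
        (D0.S1 (Off_D0 (N := withSets N (Cl N ∅)) hC))
      exact obey_ne hEN hE' he hA hO rfl
    · rintro B ⟨θ, ψ, v0, g, hg, hB⟩
      have hgD := graph_D0 (N := N) empty_sub hg
      have hG := tfun θ v0 g
      have hPD := P_fun_D0 (N := N) (X' := Cl N ∅) θ v0 hgD
      have hPD1 : D0 (N := withSets N (Cl N ∅)) (fun w => P1 θ v0 (g (w 1)) (w 0) (w 1)) := hPD.1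
      have hPD0 : D0 (N := withSets N (Cl N ∅)) (fun w => P0 θ v0 (g (w 1)) (w 0) (w 1)) := hPD.2
      have hN1 : D0 (N := N) (fun w => P1 θ v0 (g (w 1)) (w 0) (w 1)) :=
        WD0.lift (cl_sub empty_sub) hPD1
      have hN0 : D0 (N := N) (fun w => P0 θ v0 (g (w 1)) (w 0) (w 1)) :=
        WD0.lift (cl_sub empty_sub) hPD0
      have hBV : B = {x | V (fun σ x => P1 θ v0 (g x) σ x) A x} := by
        ext x
        rw [(hB x).1]
        exact (V_iff hA θ v0 g x).symm
      obtain ⟨e, he⟩ := index_of_comp (N := N)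
        (R := fun z => Spl (N := N) (fun σ x => P0 θ v0 (g x) σ x) (fun σ x => P1 θ v0 (g x) σ x) z)
        (by
          refine S1.ex (N := withSets N (Cl N ∅)) (S1.ex (S1.and (D0.S1 (D0.eq (Tm.var 2)
            ((Tm.var 1).pr (Tm.var 0)))) (S1.ex (D0.S1 (D0.or (D0.and ?_ ?_) (D0.and ?_ ?_))))))
          · exact D0.rel (N := withSets N (Cl N ∅)) (R := fun σ x => P0 θ v0 (g x) σ x) hPD0
              (Tm.var 2) (Tm.var 0)
          · exact D0.rel (N := withSets N (Cl N ∅)) (R := fun σ x => P1 θ v0 (g x) σ x) hPD1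
              (Tm.var 1) (Tm.var 0)
          · exact D0.rel (N := withSets N (Cl N ∅)) (R := fun σ x => P1 θ v0 (g x) σ x) hPD1
              (Tm.var 2) (Tm.var 0)
          · exact D0.rel (N := withSets N (Cl N ∅)) (R := fun σ x => P0 θ v0 (g x) σ x) hPD0
              (Tm.var 1) (Tm.var 0))
      have hV : ∀ x, ¬ x ∈ B ↔ V (fun σ x => P0 θ v0 (g x) σ x) A x := by
        intro x
        rw [hBV]
        constructor
        · intro h
          exact (V_total hG hA x).resolve_right h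
        · intro h h'
          exact V_excl hG h h'
      by_cases hcase : ∃ ν n, Str ν n ∧ FN E ν ∧ Pre A ν ∧ e ≤ n ∧ ∀ t α β, ¬ Ins E t e ν α β
      · left
        obtain ⟨ν, n, h1, h2, h3, h4, h5⟩ := hcase
        have hA' := caseA hW' hEN hE' hG hN0 hN1 he h1 h2 h4 h5 hA hO h3
        refine comp_D1 (N := withSets N (Cl N ∅)) (P := fun x => x ∈ B) ?_ ?_
        · refine (AllStr_S1 (N := withSets N (Cl N ∅)) hE0 (G := fun σ x => P1 θ v0 (g x) σ x)
            hPD1 ν n).congr fun w => ?_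
          rw [hBV]
          exact (hA' (w 0)).1.symm
        · refine (AllStr_S1 (N := withSets N (Cl N ∅)) hE0 (G := fun σ x => P0 θ v0 (g x) σ x)
            hPD0 ν n).congr fun w => ?_
          exact ((hV (w 0)).trans (hA' (w 0)).2).symm
      · right
        push Not at hcase
        obtain ⟨ν0, n0, a1, a2, a3, a4⟩ := final_along hEN hE' hA hO e
        have hB' := caseB hEN hE' hG he hA hO a3 a2 a1 (fun ν h1 h2 h3 => by
          obtain ⟨n, hn⟩ := h2.1
          obtain ⟨t, α, β, hi⟩ := hcase ν n hn h1 h2 (a4.trans (h3.len_le a3.1 hn.1))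
          exact ⟨t, α, β, hi⟩)
        rw [← hBV] at hB'
        have hBN : B ∈ N.Sets := by
          refine comp_D1 (P := fun x => x ∈ B) ?_ ?_
          · refine S1.congr (R := fun w => V (fun σ x => P1 θ v0 (g x) σ x) A (w 0)) ?_
              fun w => by rw [hBV]; rfl
            exact S1.ex (D0.S1 (D0.and (Pre_D0 hA (Tm.var 0))
              (D0.rel (R := fun σ x => P1 θ v0 (g x) σ x) hN1 (Tm.var 0) (Tm.var 1))))
          · refine S1.congr (R := fun w => V (fun σ x => P0 θ v0 (g x) σ x) A (w 0)) ?_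
              fun w => (hV (w 0)).symm
            exact S1.ex (D0.S1 (D0.and (Pre_D0 hA (Tm.var 0))
              (D0.rel (R := fun σ x => P0 θ v0 (g x) σ x) hN0 (Tm.var 0) (Tm.var 1))))
        have hBs : ({B} : Set (Set N.M)) ⊆ N.Sets := Set.singleton_subset_iff.2 hBN
        have hMB := cl_model (N := N) hBs
        have hsub : Cl N ∅ ⊆ Cl N {B} := cl_mono (Set.empty_subset _)
        have hK1 : D0 (N := withSets N (Cl N {B})) (fun w => P1 θ v0 (g (w 1)) (w 0) (w 1)) :=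
          WD0.lift (N := withSets N (Cl N {B})) hsub hPD1
        have hK0 : D0 (N := withSets N (Cl N {B})) (fun w => P0 θ v0 (g (w 1)) (w 0) (w 1)) :=
          WD0.lift (N := withSets N (Cl N {B})) hsub hPD0
        have hBB : B ∈ Cl N {B} := sub_cl rfl
        have hS : ∀ z : (withSets N (Cl N {B})).M, S1 (N := withSets N (Cl N {B})) (fun w =>
            ∃ s δ, Good (N := withSets N (Cl N {B})) (fun σ x => P0 θ v0 (g x) σ x)
              (fun σ x => P1 θ v0 (g x) σ x) E B e ν0 n0 s δ ∧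
              MemC (N := withSets N (Cl N {B})) (pr (N := withSets N (Cl N {B})) (w 0) z) δ) :=
          fun z => S1.ex (S1.ex (S1.and (Good_S1 (N := withSets N (Cl N {B}))
            (G0 := fun σ x => P0 θ v0 (g x) σ x) (G1 := fun σ x => P1 θ v0 (g x) σ x)
            hK0 hK1 (hsub hE0) hBB e ν0 n0 (Tm.var 1)
            (Tm.var 0)) (MemC_D0 ((Tm.var 2).pr (Tm.const z)) (Tm.var 0)).S1))
        refine comp_D1 (N := withSets N (Cl N {B})) (P := fun x => x ∈ A) ?_ ?_
        · refine S1.congr (N := withSets N (Cl N {B})) (hS 1) (S := fun w => w 0 ∈ A) fun w => ?_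
          exact (hB' (w 0)).1.symm
        · refine S1.congr (N := withSets N (Cl N {B})) (hS 0) (S := fun w => ¬ w 0 ∈ A)
            fun w => ?_
          exact (hB' (w 0)).2.symm

theorem IsDominated.le {X Y : Set N.M} (hX : X ∈ N.Sets) (h : IsDominated N X)
    (hYX : TuringLE N Y X) : IsDominated N Y := fun f hf =>
  h f (cl_trans (Set.singleton_subset_iff.2 hX) (Set.singleton_subset_iff.2 hYX) hf)

/-- below a computably dominated set Turing reductions are truth-table reductions -/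
theorem tt_of_dominated {A B : Set N.M} (hA : A ∈ N.Sets) (h : IsDominated N A)
    (hB : TuringLE N B A) : TTLE N B A := by
  obtain ⟨θ, ψ, v0, hθψ⟩ := hB
  have hAs : ({A} : Set (Set N.M)) ⊆ N.Sets := Set.singleton_subset_iff.2 hA
  have hM := cl_model (N := N) hAs
  have hsub : ({A} : Set (Set N.M)) ⊆ Cl N {A} := sub_cl
  have hD : ∀ φ : Delta0 (withSets N {A}), D0 (N := withSets N (Cl N {A}))
      (fun w => φ.Holds (cons (w 1) (cons (w 0) v0))) := by
    intro φ
    have h1 : D0 (N := withSets N {A}) (fun w => φ.Holds (cons (w 1) (cons (w 0) v0))) :=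
      D0.comp (N := withSets N {A}) (R := fun w => φ.Holds w) ⟨φ, fun _ => Iff.rfl⟩
        (g := fun w => cons (w 1) (cons (w 0) v0))
        (CM.cons (Tm.var 1) (CM.cons (Tm.var 0) fun i => Tm.const _))
    exact WD0.lift (N := withSets N (Cl N {A})) hsub h1
  have hleast : ∀ x, ∃ m : (withSets N (Cl N {A})).M,
      ((θ.Holds (cons m (cons x v0)) ∨ ψ.Holds (cons m (cons x v0))) ∧
      ∀ k, k < m → ¬ (θ.Holds (cons k (cons x v0)) ∨ ψ.Holds (cons k (cons x v0)))) := by
    intro x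
    have hex : ∃ a, θ.Holds (cons a (cons x v0)) ∨ ψ.Holds (cons a (cons x v0)) := by
      by_cases hx : x ∈ B
      · obtain ⟨k, hk⟩ := (hθψ x).1.1 hx
        exact ⟨k, Or.inl hk⟩
      · obtain ⟨k, hk⟩ := (hθψ x).2.1 hx
        exact ⟨k, Or.inr hk⟩
    obtain ⟨a, ha⟩ := hex
    obtain ⟨m, -, h1, h2⟩ := lnp_D0 (N := withSets N (Cl N {A}))
      (P := fun m => θ.Holds (cons m (cons x v0)) ∨ ψ.Holds (cons m (cons x v0)))
      (D0.or
        (D0.rel (N := withSets N (Cl N {A})) (R := fun x m => θ.Holds (cons m (cons x v0)))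
          (hD θ) (Tm.const (N := withSets N (Cl N {A})) x) (Tm.var 0))
        (D0.rel (N := withSets N (Cl N {A})) (R := fun x m => ψ.Holds (cons m (cons x v0)))
          (hD ψ) (Tm.const (N := withSets N (Cl N {A})) x) (Tm.var 0)))
      a ha
    exact ⟨m, h1, h2⟩
  choose f hf1 hf2 using hleast
  have hfD : D0 (N := withSets N (Cl N {A})) (fun w => w 1 = f (w 0)) := by
    have h1 : D0 (N := withSets N (Cl N {A})) (fun w =>
        (θ.Holds (cons (w 1) (cons (w 0) v0)) ∨ ψ.Holds (cons (w 1) (cons (w 0) v0))) ∧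
        ∀ k, k < w 1 → ¬ (θ.Holds (cons k (cons (w 0) v0)) ∨
          ψ.Holds (cons k (cons (w 0) v0)))) := by
      refine D0.and (D0.or (hD θ) (hD ψ)) (D0.ball (Tm.var 1) (D0.not (D0.or ?_ ?_)))
      · exact D0.rel (N := withSets N (Cl N {A})) (R := fun x m => θ.Holds (cons m (cons x v0)))
          (hD θ) (Tm.var 1) (Tm.var 0)
      · exact D0.rel (N := withSets N (Cl N {A})) (R := fun x m => ψ.Holds (cons m (cons x v0)))
          (hD ψ) (Tm.var 1) (Tm.var 0)
    refine h1.congr fun w => ?_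
    constructor
    · rintro ⟨h1, h2⟩
      rcases lt_trichotomy (w 1) (f (w 0)) with h | h | h
      · exact absurd h1 (hf2 _ _ h)
      · exact h
      · exact absurd (hf1 (w 0)) (h2 _ h)
    · intro h
      rw [h]
      exact ⟨hf1 _, hf2 _⟩
  obtain ⟨g, hg, hfg⟩ := h f (graph_mem hAs hfD)
  refine ⟨θ, ψ, v0, g, hg, fun n => ⟨⟨fun hn => ?_, ?_⟩, ⟨fun hn => ?_, ?_⟩⟩⟩
  · rcases hf1 n with h1 | h1
    · exact ⟨_, hfg n, h1⟩
    · exact absurd hn ((hθψ n).2.2 ⟨_, h1⟩)
  · rintro ⟨k, -, hk⟩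
    exact (hθψ n).1.2 ⟨k, hk⟩
  · rcases hf1 n with h1 | h1
    · exact absurd ((hθψ n).1.2 ⟨_, h1⟩) hn
    · exact ⟨_, hfg n, h1⟩
  · rintro ⟨k, -, hk⟩
    exact (hθψ n).2.2 ⟨k, hk⟩

/-- a computably dominated set of PA degree computes a set of minimal degree -/
theorem minimal_of_dominated (hW : WKL N) {X : Set N.M} (hX : X ∈ N.Sets) (hPA : IsPA N X)
    (hD : IsDominated N X) : ∃ A, TuringLE N A X ∧ IsMinimal N A := by
  obtain ⟨T, hT, hTt, hpaths⟩ := main_tree hW
  obtain ⟨A, hAX, hA⟩ := hPA T (comp_mem hT) hTt hT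
  have hAN : A ∈ N.Sets := cl_sub (Set.singleton_subset_iff.2 hX) hAX
  obtain ⟨h1, h2⟩ := hpaths A hAN hA
  exact ⟨A, hAX, hAN, h1, fun B _ hB => h2 B (tt_of_dominated hAN (hD.le hX hAX) hB)⟩

end Pool.Agent.Helper116.Min
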